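import Mathlib

/-!
Pseudo-expectations of the Sherali-Adams (linear programming) hierarchy.
-/

open scoped BigOperators

namespace Pool.Agent.Lib.P325h

/-- A solution of degree `r` of the Sherali-Adams relaxation on the labelings `V → Ω`: a linear
functional with `E 1 = 1` and `E f ≥ 0` for every nonnegative function `f` that depends on the
labels of at most `r` vertices only. -/
structure IsLocalExpectation {V Ω : Type} (r : ℕ) (E : ((V → Ω) → ℝ) →ₗ[ℝ] ℝ) : Prop where
  one : E (fun _ => 1) = 1
  nonneg : ∀ (f : (V → Ω) → ℝ) (D : Finset V), D.card ≤ r → DependsOn f (D : Set V) →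
    (∀ σ, 0 ≤ f σ) → 0 ≤ E f

end Pool.Agent.Lib.P325h
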