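import Mathlib

/-!
# Locally positive semidefinite kernels and the sampled Cauchy-Schwarz inequality

`C` is `M`-locally positive semidefinite if all `M × M` matrices `(C (i k) (i l))` are positive
semidefinite. `local_cs`: for nonnegative symmetric matrices `A`, `B` that fix the vector `u ≥ 0`,
the trace form `tr (X A B)`, `X p q = u p * u q * C p q`, satisfies the Cauchy-Schwarz inequality up
to an error `tr X / N` if `C` is `2 N`-locally positive semidefinite (draw `N` points from the row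
`A p ·` and `N` points from the row `B p ·`).
-/

set_option autoImplicit false

open Finset

namespace Pool.Agent.Lib.P325h

/-- `C` is `M`-locally positive semidefinite. -/
def LocPSD {I : Type} (M : ℕ) (C : I → I → ℝ) : Prop :=
  ∀ (i : Fin M → I) (c : Fin M → ℝ), 0 ≤ ∑ k, ∑ l, c k * c l * C (i k) (i l)

theorem LocPSD.mono {I : Type} {M M' : ℕ} {C : I → I → ℝ} (h : LocPSD M' C) (hM : M ≤ M')
    (hI : M' = 0 ∨ Nonempty I) : LocPSD M C := by
  intro i c
  rcases hI with h0 | ⟨⟨x⟩⟩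
  · have : M = 0 := by omega
    subst this
    simp
  · obtain ⟨d, rfl⟩ := Nat.exists_eq_add_of_le hM
    have h1 := h (Fin.append i (fun _ : Fin d => x)) (Fin.append c (fun _ => 0))
    simpa [Fin.sum_univ_add, Fin.append_left, Fin.append_right] using h1

section sampling

variable {I : Type} [Fintype I] {N : ℕ}

/-- product weights have total mass one -/
theorem sum_prod_one (p : I → ℝ) (hp : ∑ x, p x = 1) :
    ∑ i : Fin N → I, ∏ k, p (i k) = 1 := by
  classical
  rw [← Fintype.prod_sum (fun (_ : Fin N) x => p x)]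
  simp [hp]

/-- one coordinate of independent samples -/
theorem sum_prod_apply (p : I → ℝ) (hp : ∑ x, p x = 1) (k : Fin N) (f : I → ℝ) :
    ∑ i : Fin N → I, (∏ j, p (i j)) * f (i k) = ∑ x, p x * f x := by
  classical
  have h1 : ∀ i : Fin N → I, (∏ j, p (i j)) * f (i k) =
      ∏ j, (p (i j) * if j = k then f (i j) else 1) := by
    intro i
    rw [Finset.prod_mul_distrib, Finset.prod_ite_eq' univ k (fun j => f (i j))]
    simp
  simp_rw [h1]
  rw [← Fintype.prod_sum (fun (j : Fin N) x => p x * if j = k then f x else 1)]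
  rw [Finset.prod_eq_single k]
  · simp
  · intro j _ hj
    simp [hj, hp]
  · intro h
    exact absurd (Finset.mem_univ k) h

/-- two coordinates of independent samples -/
theorem sum_prod_apply_two (p : I → ℝ) (hp : ∑ x, p x = 1) (k l : Fin N) (hkl : k ≠ l)
    (f g : I → ℝ) :
    ∑ i : Fin N → I, (∏ j, p (i j)) * (f (i k) * g (i l)) =
      (∑ x, p x * f x) * ∑ x, p x * g x := by
  classical
  have h1 : ∀ i : Fin N → I, (∏ j, p (i j)) * (f (i k) * g (i l)) =
      ∏ j, (p (i j) * ((if j = k then f (i j) else 1) * (if j = l then g (i j) else 1))) := by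
    intro i
    rw [Finset.prod_mul_distrib, Finset.prod_mul_distrib,
      Finset.prod_ite_eq' univ k (fun j => f (i j)),
      Finset.prod_ite_eq' univ l (fun j => g (i j))]
    simp
  simp_rw [h1]
  rw [← Fintype.prod_sum (fun (j : Fin N) x =>
    p x * ((if j = k then f x else 1) * (if j = l then g x else 1)))]
  rw [← Finset.mul_prod_erase univ _ (Finset.mem_univ k),
    ← Finset.mul_prod_erase (univ.erase k) _ (Finset.mem_erase.2 ⟨hkl.symm, Finset.mem_univ l⟩),
    Finset.prod_eq_one]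
  · simp [hkl, hkl.symm]
  · intro j hj
    have h2 := Finset.mem_erase.1 hj
    have h3 := Finset.mem_erase.1 h2.2
    simp [h2.1, h3.1, hp]

/-- two coordinates of independent samples, a function of the pair -/
theorem sum_prod_pair (p : I → ℝ) (hp : ∑ x, p x = 1) (k l : Fin N) (hkl : k ≠ l)
    (C : I → I → ℝ) :
    ∑ i : Fin N → I, (∏ j, p (i j)) * C (i k) (i l) = ∑ x, ∑ y, p x * p y * C x y := by
  classical
  have h1 : ∀ i : Fin N → I, (∏ j, p (i j)) * C (i k) (i l) =
      ∑ y, (∏ j, p (i j)) * (C (i k) y * if i l = y then 1 else 0) := by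
    intro i
    rw [← Finset.mul_sum]
    congr 1
    simp
  simp_rw [h1]
  rw [Finset.sum_comm]
  refine Eq.trans ?_ (Finset.sum_comm (f := fun y x => p x * p y * C x y))
  refine Finset.sum_congr rfl fun y _ => ?_
  rw [sum_prod_apply_two p hp k l hkl (fun x => C x y) (fun x => if x = y then 1 else 0)]
  rw [Finset.sum_mul]
  refine Finset.sum_congr rfl fun x _ => ?_
  simp
  ring

/-- the mean of the quadratic form of `N` independent samples -/
theorem sum_prod_quad (p : I → ℝ) (hp : ∑ x, p x = 1) (C : I → I → ℝ) :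
    ∑ i : Fin N → I, (∏ j, p (i j)) * ∑ k, ∑ l, C (i k) (i l) =
      N * (∑ x, p x * C x x) + (N * (N - 1) : ℝ) * ∑ x, ∑ y, p x * p y * C x y := by
  classical
  have h1 : ∑ i : Fin N → I, (∏ j, p (i j)) * ∑ k, ∑ l, C (i k) (i l) =
      ∑ k, ∑ l, ∑ i : Fin N → I, (∏ j, p (i j)) * C (i k) (i l) := by
    simp_rw [Finset.mul_sum]
    rw [Finset.sum_comm]
    refine Finset.sum_congr rfl fun k _ => ?_
    rw [Finset.sum_comm]
  rw [h1]
  have h2 : ∀ k l : Fin N, ∑ i : Fin N → I, (∏ j, p (i j)) * C (i k) (i l) =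
      if k = l then ∑ x, p x * C x x else ∑ x, ∑ y, p x * p y * C x y := by
    intro k l
    split_ifs with h
    · subst h
      exact sum_prod_apply p hp k (fun x => C x x)
    · exact sum_prod_pair p hp k l h C
  simp_rw [h2]
  have h3 : ∀ k : Fin N, ∑ l : Fin N, (if k = l then ∑ x, p x * C x x
      else ∑ x, ∑ y, p x * p y * C x y) =
      ∑ x, p x * C x x + ((N : ℝ) - 1) * ∑ x, ∑ y, p x * p y * C x y := by
    intro k
    have h4 : ∀ l : Fin N, (if k = l then ∑ x, p x * C x x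
      else ∑ x, ∑ y, p x * p y * C x y) = (if k = l then ∑ x, p x * C x x -
        ∑ x, ∑ y, p x * p y * C x y else 0) + ∑ x, ∑ y, p x * p y * C x y := by
      intro l
      split_ifs <;> ring
    simp_rw [h4]
    rw [Finset.sum_add_distrib, Finset.sum_ite_eq univ k, if_pos (Finset.mem_univ k)]
    simp
    ring
  simp_rw [h3]
  simp
  ring

/-- two independent families of samples: the mean of the cross term -/
theorem sum_prod_cross (p q : I → ℝ) (hp : ∑ x, p x = 1) (hq : ∑ x, q x = 1) (C : I → I → ℝ) :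
    ∑ i : Fin N → I, ∑ j : Fin N → I, ((∏ k, p (i k)) * ∏ k, q (j k)) *
      ∑ k, ∑ l, C (i k) (j l) = (N * N : ℝ) * ∑ x, ∑ y, p x * q y * C x y := by
  classical
  have h1 : ∀ i : Fin N → I, ∑ j : Fin N → I, ((∏ k, p (i k)) * ∏ k, q (j k)) *
      ∑ k, ∑ l, C (i k) (j l) = (∏ k, p (i k)) * ∑ k, (N : ℝ) * ∑ y, q y * C (i k) y := by
    intro i
    have h2 : ∀ k, ∑ l : Fin N, ∑ j : Fin N → I, (∏ k, q (j k)) * C (i k) (j l) =
        (N : ℝ) * ∑ y, q y * C (i k) y := by
      intro k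
      simp_rw [sum_prod_apply q hq _ (fun y => C (i k) y)]
      simp
    rw [← Finset.sum_congr rfl (fun k _ => h2 k), Finset.mul_sum]
    simp_rw [Finset.mul_sum]
    rw [Finset.sum_comm]
    refine Finset.sum_congr rfl fun k _ => ?_
    rw [Finset.sum_comm]
    refine Finset.sum_congr rfl fun l _ => Finset.sum_congr rfl fun j _ => ?_
    ring
  simp_rw [h1]
  have h3 : ∑ k : Fin N, ∑ i : Fin N → I, (∏ j, p (i j)) * ((N : ℝ) * ∑ y, q y * C (i k) y) =
      ∑ k : Fin N, ∑ x, p x * ((N : ℝ) * ∑ y, q y * C x y) :=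
    Finset.sum_congr rfl fun k _ => sum_prod_apply p hp k
      (fun x => (N : ℝ) * ∑ y, q y * C x y)
  simp_rw [Finset.mul_sum (univ : Finset (Fin N)), ] 
  rw [Finset.sum_comm, h3]
  simp only [Finset.sum_const, Finset.card_univ, Fintype.card_fin, nsmul_eq_mul]
  rw [mul_assoc, Finset.mul_sum (a := (N : ℝ)) (s := univ)
    (f := fun x => ∑ y, p x * q y * C x y)]
  congr 1
  refine Finset.sum_congr rfl fun x _ => ?_
  rw [Finset.mul_sum, Finset.mul_sum, Finset.mul_sum]
  refine Finset.sum_congr rfl fun y _ => ?_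
  ring

/-- the quadratic inequality for the mean of the samples -/
theorem sample_quad {C : I → I → ℝ} (hN : 0 < N) (hC : LocPSD (N + N) C)
    (hsym : ∀ x y, C x y = C y x) {a b : I → ℝ} (ha0 : ∀ x, 0 ≤ a x) (ha : ∑ x, a x = 1)
    (hb0 : ∀ x, 0 ≤ b x) (hb : ∑ x, b x = 1) (α β : ℝ) :
    0 ≤ α ^ 2 * ((∑ x, a x * C x x) / N + (1 - 1 / N) * ∑ x, ∑ y, a x * a y * C x y) -
      2 * α * β * (∑ x, ∑ y, a x * b y * C x y) +
      β ^ 2 * ((∑ x, b x * C x x) / N + (1 - 1 / N) * ∑ x, ∑ y, b x * b y * C x y) := by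
  classical
  have hN0 : (N : ℝ) ≠ 0 := by exact_mod_cast hN.ne'
  -- the inequality for each pair of families
  have key : ∀ i j : Fin N → I, 0 ≤ α ^ 2 * ∑ k, ∑ l, C (i k) (i l) -
      2 * α * β * ∑ k, ∑ l, C (i k) (j l) + β ^ 2 * ∑ k, ∑ l, C (j k) (j l) := by
    intro i j
    have h := hC (Fin.append i j) (Fin.append (fun _ : Fin N => α) (fun _ : Fin N => -β))
    simp only [Fin.sum_univ_add, Fin.append_left, Fin.append_right] at h
    have e1 : ∑ k : Fin N, ∑ l : Fin N, -β * α * C (j k) (i l) =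
        -(β * α) * ∑ k, ∑ l, C (i k) (j l) := by
      rw [Finset.sum_comm, Finset.mul_sum]
      refine Finset.sum_congr rfl fun k _ => ?_
      rw [Finset.mul_sum]
      refine Finset.sum_congr rfl fun l _ => ?_
      rw [hsym (j l) (i k)]
      ring
    have e2 : ∑ k : Fin N, ∑ l : Fin N, α * α * C (i k) (i l) =
        α ^ 2 * ∑ k, ∑ l, C (i k) (i l) := by
      simp_rw [Finset.mul_sum]
      refine Finset.sum_congr rfl fun k _ => Finset.sum_congr rfl fun l _ => by ring
    have e3 : ∑ k : Fin N, ∑ l : Fin N, α * -β * C (i k) (j l) =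
        -(β * α) * ∑ k, ∑ l, C (i k) (j l) := by
      simp_rw [Finset.mul_sum]
      refine Finset.sum_congr rfl fun k _ => Finset.sum_congr rfl fun l _ => by ring
    have e4 : ∑ k : Fin N, ∑ l : Fin N, -β * -β * C (j k) (j l) =
        β ^ 2 * ∑ k, ∑ l, C (j k) (j l) := by
      simp_rw [Finset.mul_sum]
      refine Finset.sum_congr rfl fun k _ => Finset.sum_congr rfl fun l _ => by ring
    rw [Finset.sum_add_distrib, Finset.sum_add_distrib, e1, e2, e3, e4] at h
    linarith
  -- the mean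
  have hmean : 0 ≤ ∑ i : Fin N → I, ∑ j : Fin N → I, ((∏ k, a (i k)) * ∏ k, b (j k)) *
      (α ^ 2 * ∑ k, ∑ l, C (i k) (i l) - 2 * α * β * ∑ k, ∑ l, C (i k) (j l) +
        β ^ 2 * ∑ k, ∑ l, C (j k) (j l)) :=
    Finset.sum_nonneg fun i _ => Finset.sum_nonneg fun j _ => mul_nonneg
      (mul_nonneg (Finset.prod_nonneg fun k _ => ha0 _) (Finset.prod_nonneg fun k _ => hb0 _))
      (key i j)
  have hA := sum_prod_quad (N := N) a ha C
  have hB := sum_prod_quad (N := N) b hb C
  have hAB := sum_prod_cross (N := N) a b ha hb C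
  have h1a := sum_prod_one (N := N) a ha
  have h1b := sum_prod_one (N := N) b hb
  have hexp : ∑ i : Fin N → I, ∑ j : Fin N → I, ((∏ k, a (i k)) * ∏ k, b (j k)) *
      (α ^ 2 * ∑ k, ∑ l, C (i k) (i l) - 2 * α * β * ∑ k, ∑ l, C (i k) (j l) +
        β ^ 2 * ∑ k, ∑ l, C (j k) (j l)) =
      α ^ 2 * (∑ i : Fin N → I, (∏ k, a (i k)) * ∑ k, ∑ l, C (i k) (i l)) -
      2 * α * β * (∑ i : Fin N → I, ∑ j : Fin N → I, ((∏ k, a (i k)) * ∏ k, b (j k)) *
        ∑ k, ∑ l, C (i k) (j l)) +
      β ^ 2 * (∑ j : Fin N → I, (∏ k, b (j k)) * ∑ k, ∑ l, C (j k) (j l)) := by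
    have e1 : ∑ i : Fin N → I, ∑ j : Fin N → I, ((∏ k, a (i k)) * ∏ k, b (j k)) *
        (α ^ 2 * ∑ k, ∑ l, C (i k) (i l)) =
        α ^ 2 * (∑ i : Fin N → I, (∏ k, a (i k)) * ∑ k, ∑ l, C (i k) (i l)) := by
      rw [Finset.mul_sum]
      refine Finset.sum_congr rfl fun i _ => ?_
      calc ∑ j : Fin N → I, ((∏ k, a (i k)) * ∏ k, b (j k)) * (α ^ 2 * ∑ k, ∑ l, C (i k) (i l))
          = ∑ j : Fin N → I, (∏ k, b (j k)) *
            ((∏ k, a (i k)) * (α ^ 2 * ∑ k, ∑ l, C (i k) (i l))) :=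
            Finset.sum_congr rfl fun j _ => by ring
        _ = _ := by rw [← Finset.sum_mul, h1b]; ring
    have e2 : ∑ i : Fin N → I, ∑ j : Fin N → I, ((∏ k, a (i k)) * ∏ k, b (j k)) *
        (β ^ 2 * ∑ k, ∑ l, C (j k) (j l)) =
        β ^ 2 * (∑ j : Fin N → I, (∏ k, b (j k)) * ∑ k, ∑ l, C (j k) (j l)) := by
      rw [Finset.sum_comm, Finset.mul_sum]
      refine Finset.sum_congr rfl fun j _ => ?_
      calc ∑ i : Fin N → I, ((∏ k, a (i k)) * ∏ k, b (j k)) * (β ^ 2 * ∑ k, ∑ l, C (j k) (j l))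
          = ∑ i : Fin N → I, (∏ k, a (i k)) *
            ((∏ k, b (j k)) * (β ^ 2 * ∑ k, ∑ l, C (j k) (j l))) :=
            Finset.sum_congr rfl fun i _ => by ring
        _ = _ := by rw [← Finset.sum_mul, h1a]; ring
    have e3 : ∑ i : Fin N → I, ∑ j : Fin N → I, ((∏ k, a (i k)) * ∏ k, b (j k)) *
        (2 * α * β * ∑ k, ∑ l, C (i k) (j l)) =
        2 * α * β * (∑ i : Fin N → I, ∑ j : Fin N → I, ((∏ k, a (i k)) * ∏ k, b (j k)) *
        ∑ k, ∑ l, C (i k) (j l)) := by
      rw [Finset.mul_sum]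
      refine Finset.sum_congr rfl fun i _ => ?_
      rw [Finset.mul_sum]
      refine Finset.sum_congr rfl fun j _ => ?_
      ring
    rw [← e1, ← e2, ← e3]
    rw [← Finset.sum_sub_distrib, ← Finset.sum_add_distrib]
    refine Finset.sum_congr rfl fun i _ => ?_
    rw [← Finset.sum_sub_distrib, ← Finset.sum_add_distrib]
    refine Finset.sum_congr rfl fun j _ => ?_
    ring
  rw [hexp, hA, hB, hAB] at hmean
  have hN2 : (0 : ℝ) < (N : ℝ) * N := by positivity
  have hfin : α ^ 2 * ((∑ x, a x * C x x) / N + (1 - 1 / N) * ∑ x, ∑ y, a x * a y * C x y) -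
      2 * α * β * (∑ x, ∑ y, a x * b y * C x y) +
      β ^ 2 * ((∑ x, b x * C x x) / N + (1 - 1 / N) * ∑ x, ∑ y, b x * b y * C x y) =
      (α ^ 2 * (N * (∑ x, a x * C x x) + (N * (N - 1) : ℝ) * ∑ x, ∑ y, a x * a y * C x y) -
      2 * α * β * ((N * N : ℝ) * ∑ x, ∑ y, a x * b y * C x y) +
      β ^ 2 * (N * (∑ x, b x * C x x) + (N * (N - 1) : ℝ) * ∑ x, ∑ y, b x * b y * C x y)) /
        (N * N) := by
    field_simp
  rw [hfin]
  exact div_nonneg hmean hN2.le

end sampling

section trace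

open Matrix

variable {I : Type} [Fintype I] [DecidableEq I] {N : ℕ}

/-- the kernel `u p * u q * C p q` -/
noncomputable def XM (u : I → ℝ) (C : I → I → ℝ) : Matrix I I ℝ :=
  Matrix.of fun p q => u p * u q * C p q

/-- the sampled second moment -/
noncomputable def bb (N : ℕ) (X A : Matrix I I ℝ) : ℝ :=
  X.trace / N + (1 - 1 / N) * (X * (A * A)).trace

theorem local_quad {C : I → I → ℝ} (hN : 0 < N) (hC : LocPSD (N + N) C)
    (hsym : ∀ x y, C x y = C y x) {u : I → ℝ} (hu : ∀ x, 0 ≤ u x) {A B : Matrix I I ℝ}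
    (hA : A.IsSymm) (hA0 : ∀ x y, 0 ≤ A x y) (hAu : A *ᵥ u = u)
    (hB : B.IsSymm) (hB0 : ∀ x y, 0 ≤ B x y) (hBu : B *ᵥ u = u) (α β : ℝ) :
    0 ≤ α ^ 2 * bb N (XM u C) A - 2 * α * β * (XM u C * (A * B)).trace +
      β ^ 2 * bb N (XM u C) B := by
  have hrow : ∀ {M : Matrix I I ℝ}, M *ᵥ u = u → ∀ p, ∑ q, M p q * u q = u p := by
    intro M hM p
    exact congrFun hM p
  have hcol : ∀ {M : Matrix I I ℝ}, M.IsSymm → M *ᵥ u = u → ∀ q, ∑ p, u p * M p q = u q := by
    intro M hMs hM q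
    rw [← hrow hM q]
    refine Finset.sum_congr rfl fun p _ => ?_
    rw [mul_comm, hMs.apply]
  -- the local inequality
  have hloc : ∀ p, 0 ≤ α ^ 2 * ((∑ q, u p * A p q * u q * C q q) / N +
      (1 - 1 / N) * ∑ q, ∑ q', (A p q * u q) * (A p q' * u q') * C q q') -
      2 * α * β * (∑ q, ∑ q', (A p q * u q) * (B p q' * u q') * C q q') +
      β ^ 2 * ((∑ q, u p * B p q * u q * C q q) / N +
      (1 - 1 / N) * ∑ q, ∑ q', (B p q * u q) * (B p q' * u q') * C q q') := by
    intro p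
    rcases (hu p).lt_or_eq with hp | hp
    · have h := sample_quad hN hC hsym (a := fun q => A p q * u q / u p)
        (b := fun q => B p q * u q / u p)
        (fun q => div_nonneg (mul_nonneg (hA0 p q) (hu q)) hp.le)
        (by rw [← Finset.sum_div, hrow hAu, div_self hp.ne'])
        (fun q => div_nonneg (mul_nonneg (hB0 p q) (hu q)) hp.le)
        (by rw [← Finset.sum_div, hrow hBu, div_self hp.ne']) α β
      have h2 := mul_nonneg (mul_nonneg hp.le hp.le) h
      have e1 : ∀ M : Matrix I I ℝ, ∑ q, u p * M p q * u q * C q q =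
          u p * u p * ∑ q, M p q * u q / u p * C q q := by
        intro M
        rw [Finset.mul_sum]
        refine Finset.sum_congr rfl fun q _ => ?_
        field_simp
      have e2 : ∀ M M' : Matrix I I ℝ, ∑ q, ∑ q', (M p q * u q) * (M' p q' * u q') * C q q' =
          u p * u p * ∑ q, ∑ q', M p q * u q / u p * (M' p q' * u q' / u p) * C q q' := by
        intro M M'
        rw [Finset.mul_sum]
        refine Finset.sum_congr rfl fun q _ => ?_
        rw [Finset.mul_sum]
        refine Finset.sum_congr rfl fun q' _ => ?_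
        field_simp
      rw [e1, e1, e2, e2, e2]
      refine le_of_le_of_eq h2 ?_
      ring
    · have hz : ∀ M : Matrix I I ℝ, (∀ x y, 0 ≤ M x y) → M *ᵥ u = u → ∀ q, M p q * u q = 0 := by
        intro M hM0 hM q
        have h1 := hrow hM p
        rw [← hp] at h1
        exact (Finset.sum_eq_zero_iff_of_nonneg
          (fun q _ => mul_nonneg (hM0 p q) (hu q))).1 h1 q (Finset.mem_univ q)
      simp only [hz A hA0 hAu, hz B hB0 hBu, ← hp]
      simp
  have hsum := Finset.sum_nonneg fun p (_ : p ∈ (univ : Finset I)) => hloc p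
  -- the sums
  have t1 : ∀ M : Matrix I I ℝ, M.IsSymm → M *ᵥ u = u →
      ∑ p, ∑ q, u p * M p q * u q * C q q = (XM u C).trace := by
    intro M hMs hM
    rw [Finset.sum_comm]
    unfold Matrix.trace
    refine Finset.sum_congr rfl fun q _ => ?_
    rw [Matrix.diag_apply]
    show _ = u q * u q * C q q
    rw [← Finset.sum_mul, ← Finset.sum_mul, hcol hMs hM]
  have t2 : ∀ M M' : Matrix I I ℝ, M.IsSymm →
      ∑ p, ∑ q, ∑ q', (M p q * u q) * (M' p q' * u q') * C q q' =
      (XM u C * (M * M')).trace := by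
    intro M M' hM
    rw [Matrix.trace_mul_comm]
    unfold Matrix.trace
    simp only [Matrix.diag_apply, Matrix.mul_apply, XM, Matrix.of_apply, Finset.sum_mul]
    rw [Finset.sum_comm]
    refine Finset.sum_congr rfl fun q _ => ?_
    rw [Finset.sum_comm]
    refine Finset.sum_congr rfl fun q' _ => ?_
    refine Finset.sum_congr rfl fun p _ => ?_
    rw [hsym q' q, hM.apply p q]
    ring
  have hfin : ∑ p, (α ^ 2 * ((∑ q, u p * A p q * u q * C q q) / N +
      (1 - 1 / N) * ∑ q, ∑ q', (A p q * u q) * (A p q' * u q') * C q q') -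
      2 * α * β * (∑ q, ∑ q', (A p q * u q) * (B p q' * u q') * C q q') +
      β ^ 2 * ((∑ q, u p * B p q * u q * C q q) / N +
      (1 - 1 / N) * ∑ q, ∑ q', (B p q * u q) * (B p q' * u q') * C q q')) =
      α ^ 2 * bb N (XM u C) A - 2 * α * β * (XM u C * (A * B)).trace +
      β ^ 2 * bb N (XM u C) B := by
    unfold bb
    rw [Finset.sum_add_distrib, Finset.sum_sub_distrib, ← Finset.mul_sum, ← Finset.mul_sum,
      ← Finset.mul_sum, Finset.sum_add_distrib, Finset.sum_add_distrib, ← Finset.mul_sum,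
      ← Finset.mul_sum, ← Finset.sum_div, ← Finset.sum_div, t1 A hA hAu, t1 B hB hBu,
      t2 A A hA, t2 A B hA, t2 B B hB]
  rw [hfin] at hsum
  exact hsum

theorem bb_nonneg {C : I → I → ℝ} (hN : 0 < N) (hC : LocPSD (N + N) C)
    (hsym : ∀ x y, C x y = C y x) {u : I → ℝ} (hu : ∀ x, 0 ≤ u x) {A : Matrix I I ℝ}
    (hA : A.IsSymm) (hA0 : ∀ x y, 0 ≤ A x y) (hAu : A *ᵥ u = u) : 0 ≤ bb N (XM u C) A := by
  have h := local_quad hN hC hsym hu hA hA0 hAu hA hA0 hAu 1 0
  simpa using h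

/-- The sampled Cauchy-Schwarz inequality. -/
theorem local_cs {C : I → I → ℝ} (hN : 0 < N) (hC : LocPSD (N + N) C)
    (hsym : ∀ x y, C x y = C y x) {u : I → ℝ} (hu : ∀ x, 0 ≤ u x) {A B : Matrix I I ℝ}
    (hA : A.IsSymm) (hA0 : ∀ x y, 0 ≤ A x y) (hAu : A *ᵥ u = u)
    (hB : B.IsSymm) (hB0 : ∀ x y, 0 ≤ B x y) (hBu : B *ᵥ u = u) :
    (XM u C * (A * B)).trace ^ 2 ≤ bb N (XM u C) A * bb N (XM u C) B := by
  have key : ∀ r : ℝ, 0 ≤ bb N (XM u C) B * (r * r) +
      (-(2 * (XM u C * (A * B)).trace)) * r + bb N (XM u C) A := by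
    intro r
    have h := local_quad hN hC hsym hu hA hA0 hAu hB hB0 hBu 1 r
    refine le_of_le_of_eq h ?_
    ring
  have h := discrim_le_zero key
  unfold discrim at h
  nlinarith [h]

end trace

end Pool.Agent.Lib.P325h
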