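import Pool.Agent.Lib.P325h.Loop
import Pool.Agent.Lib.P325h.Local

/-!
# Conditioning, and the facts about the covariance kernel (Sherali-Adams version of `P325F.Cond`)
-/

set_option autoImplicit false

open Finset Pool.Agent.Lib.P325u

namespace Pool.Agent.Lib.P325h

variable {V L : Type} [Fintype V] [DecidableEq V] [Fintype L] [DecidableEq L]
  {E : ((V → L) → ℝ) →ₗ[ℝ] ℝ} {r : ℕ}

theorem exists_corr (hE : IsLocalExpectation r E) (μ : V → ℝ) (hμ : ∀ x, 0 ≤ μ x)
    (hμ1 : ∑ x, μ x = 1) {R N : ℕ} (hR : 0 < R) (hN : 2 ≤ N) (hRr : R + N ≤ r) :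
    ∃ (κ : Type) (_ : Fintype κ) (P : κ → (V → L) → ℝ) (D : Finset V), IsPart P D ∧
      D.card + N ≤ r ∧ ∑ x, ∑ a, ∑ y, ∑ b, μ x * μ y *
        (cov E P (ind x a) (ind y b) ^ 2 / E (ind y b)) ≤ 1 / R := by
  by_contra hcon
  push Not at hcon
  have hR0 : (0 : ℝ) < R := by exact_mod_cast hR
  obtain ⟨κ, hκ, P, D, hP, hD, hM⟩ := loop hE μ hμ hμ1 (1 - ((R + 1 : ℕ) : ℝ) * (1 / R)) (1 / R)
    (R + 1) le_rfl (by omega) (fun κ _ P D hP hD _ =>
      (hcon κ inferInstance P D hP (by omega)).le)
  have h0 := avVar_nonneg hE hP (by omega) μ hμ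
  have h1 : 1 - ((R + 1 : ℕ) : ℝ) * (1 / R) < 0 := by
    push_cast
    have : ((R : ℝ) + 1) * (1 / R) = 1 + 1 / R := by field_simp
    rw [this]
    have : (0 : ℝ) < 1 / R := by positivity
    linarith
  linarith

/-- the covariances of the labels of few vertices form a positive semidefinite matrix -/
theorem cov_locPSD (hE : IsLocalExpectation r E) {κ : Type} [Fintype κ]
    {P : κ → (V → L) → ℝ} {D : Finset V} (hP : IsPart P D) {M : ℕ} (hD : D.card + M ≤ r) :
    LocPSD M (fun p q : V × L => cov E P (ind p.1 p.2) (ind q.1 q.2)) := by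
  intro i c
  set F : (V → L) → ℝ := ∑ k, c k • (ind (i k).1 (i k).2 : (V → L) → ℝ) with hFdef
  set D' : Finset V := Finset.univ.image (fun k => (i k).1) with hD'
  have hcard : D'.card ≤ M := by
    refine (Finset.card_image_le).trans ?_
    simp
  have hF : DependsOn F (D' : Set V) := by
    intro σ σ' h
    rw [hFdef, Finset.sum_apply, Finset.sum_apply]
    refine Finset.sum_congr rfl fun k _ => ?_
    have h1 : σ (i k).1 = σ' (i k).1 := h _ (by
      rw [hD']
      exact Finset.mem_coe.2 (Finset.mem_image_of_mem _ (Finset.mem_univ k)))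
    simp only [Pi.smul_apply, ind, h1]
  have h := cov_self_nonneg hE hP (D' := D') (by omega) hF
  have e : cov E P F F = ∑ k, ∑ l, c k * c l *
      cov E P (ind (i k).1 (i k).2) (ind (i l).1 (i l).2) := by
    rw [hFdef, cov_sum_left]
    refine Finset.sum_congr rfl fun k _ => ?_
    rw [cov_smul_left, cov_sum_right, Finset.mul_sum]
    refine Finset.sum_congr rfl fun l _ => ?_
    rw [cov_smul_right]
    ring
  rwa [e] at h

theorem cov_null (hE : IsLocalExpectation r E) {κ : Type} [Fintype κ]
    {P : κ → (V → L) → ℝ} {D : Finset V} (hP : IsPart P D) (hD : D.card + 2 ≤ r)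
    (x y : V) (a b : L) (h : E (ind y b) = 0) : cov E P (ind x a) (ind y b) = 0 := by
  have h1 : ∀ α, 0 ≤ E (P α * ind y b) := by
    intro α
    apply E_two_nonneg hE hP hD α x y
    · intro σ σ' _ h2
      unfold ind
      rw [h2]
    · exact ind_nonneg y b
  have h2 : ∀ α, E (P α * ind y b) = 0 := by
    have h3 : ∑ α, E (P α * ind y b) = 0 := by rw [hP.sum_mul, h]
    intro α
    exact (Finset.sum_eq_zero_iff_of_nonneg fun α _ => h1 α).1 h3 α (Finset.mem_univ _)
  have h3 : ∀ α, E (P α * ind x a * ind y b) = 0 := by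
    intro α
    apply le_antisymm
    · have h4 := E_two_nonneg hE hP hD α x y (fun σ => ind y b σ - ind x a σ * ind y b σ) (by
        intro σ σ' h1 h2
        unfold ind
        rw [h1, h2]) (by
        intro σ
        unfold ind
        split_ifs <;> norm_num)
      have h5 : (P α * fun σ => ind y b σ - ind x a σ * ind y b σ) =
          P α * ind y b - P α * ind x a * ind y b := by
        funext σ
        simp only [Pi.mul_apply, Pi.sub_apply]
        ring
      rw [h5, map_sub, h2 α] at h4
      linarith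
    · have h4 := E_two_nonneg hE hP hD α x y (fun σ => ind x a σ * ind y b σ) (by
        intro σ σ' h1 h2
        unfold ind
        rw [h1, h2]) (by
        intro σ
        exact mul_nonneg (ind_nonneg x a σ) (ind_nonneg y b σ))
      have h5 : (P α * fun σ => ind x a σ * ind y b σ) = P α * ind x a * ind y b := by
        funext σ
        simp only [Pi.mul_apply]
        ring
      rwa [h5] at h4
  unfold cov
  apply Finset.sum_eq_zero
  intro α _
  rw [h3, h2]
  simp

theorem nonempty_labelings (hE : IsLocalExpectation r E) : Nonempty (V → L) := by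
  by_contra hne
  rw [not_nonempty_iff] at hne
  have h1 : (fun _ => 1 : (V → L) → ℝ) = 0 := by
    funext σ
    exact (hne.false σ).elim
  have h2 := hE.one
  rw [h1, map_zero] at h2
  exact zero_ne_one h2

/-- the pseudo-probability that an edge is satisfied lies in `[0, 1]` -/
theorem sat_mem (hE : IsLocalExpectation r E) (hr : 2 ≤ r) (x y : V) (g : Equiv.Perm L) :
    0 ≤ E (P325u.sat x y g) ∧ E (P325u.sat x y g) ≤ 1 := by
  have hcard : ({x, y} : Finset V).card ≤ r := (Finset.card_le_two).trans hr
  have hdep : DependsOn (P325u.sat x y g) (({x, y} : Finset V) : Set V) := by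
    intro σ σ' h
    have h1 : σ x = σ' x := h x (by simp)
    have h2 : σ y = σ' y := h y (by simp)
    unfold P325u.sat
    rw [h1, h2]
  refine ⟨hE.nonneg _ _ hcard hdep ?_, ?_⟩
  · intro σ
    unfold P325u.sat
    split_ifs <;> norm_num
  · have h := hE.nonneg (fun σ => 1 - P325u.sat x y g σ) {x, y} hcard
      (by
        intro σ σ' h
        show 1 - P325u.sat x y g σ = 1 - P325u.sat x y g σ'
        rw [hdep h]) (by
        intro σ
        unfold P325u.sat
        split_ifs <;> norm_num)
    have h2 : (fun σ => 1 - P325u.sat x y g σ) =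
        (fun _ => (1 : ℝ)) - P325u.sat x y g := rfl
    rw [h2, map_sub, hE.one] at h
    linarith

end Pool.Agent.Lib.P325h
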