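import Pool.Agent.Lib.P325h.Local

/-!
# The local moment inequality

Moments `tr (X A ^ J)` of a nonnegative symmetric matrix `A` with `A u = u` against a locally positive
semidefinite kernel `X p q = u p * u q * C p q`: if `tr (X A) ≥ ρ tr X` then
`tr (X A ^ J) ≥ (3 / 4) ρ ^ J tr X`, provided that the number `N` of samples is at least
`4 J ^ 2 ρ ^ (-J) + 1`.
-/

set_option autoImplicit false

open Finset Matrix

namespace Pool.Agent.Lib.P325h

theorem seq_moment {b m : ℕ → ℝ} {Φ e ρ : ℝ} {k0 : ℕ} (hk0 : 1 ≤ k0) (hΦ : 0 < Φ)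
    (hb0 : b 0 = Φ) (hcs : ∀ j k, m (j + k) ^ 2 ≤ b j * b k)
    (hm : ∀ k, b k - e * Φ ≤ m (2 * k)) (he : 0 ≤ e) (h1 : ρ * Φ ≤ m 1) (hρ : 0 < ρ)
    (hρ1 : ρ ≤ 1) (hsmall : 16 * (k0 : ℝ) ^ 2 * e ≤ ρ ^ (2 * k0)) :
    3 / 4 * (Φ * ρ ^ (2 * k0)) ≤ m (2 * k0) := by
  set P : ℝ := ρ ^ (2 * k0) with hP
  have hPpos : 0 < P := pow_pos hρ _
  set κ : ℝ := 4 * e / P with hκ
  have hκ0 : 0 ≤ κ := by positivity
  have heκ : e = κ * P / 4 := by rw [hκ]; field_simp
  have hk0' : (1 : ℝ) ≤ k0 := by exact_mod_cast hk0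
  have hκk : κ * (k0 : ℝ) ^ 2 ≤ 1 / 4 := by
    have : 16 * (k0 : ℝ) ^ 2 * (κ * P / 4) ≤ P := by rw [← heκ]; exact hsmall
    have h2 : (4 * (κ * (k0 : ℝ) ^ 2)) * P ≤ 1 * P := by linarith
    have h3 := le_of_mul_le_mul_right h2 hPpos
    linarith
  have hκ4 : κ ≤ 1 / 4 := by
    have h2 : κ * 1 ≤ κ * (k0 : ℝ) ^ 2 := mul_le_mul_of_nonneg_left (by nlinarith) hκ0
    linarith
  -- consequences of a bound for the index
  have hidx : ∀ k : ℕ, k ≤ k0 → κ * (k : ℝ) ^ 2 ≤ 1 / 4 ∧ κ * (k : ℝ) ≤ 1 / 4 ∧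
      P ≤ ρ ^ (2 * k) := by
    intro k hk
    have hkr : (k : ℝ) ≤ k0 := by exact_mod_cast hk
    have hk00 : (0 : ℝ) ≤ k := Nat.cast_nonneg _
    refine ⟨?_, ?_, ?_⟩
    · refine le_trans (mul_le_mul_of_nonneg_left ?_ hκ0) hκk
      exact pow_le_pow_left₀ hk00 hkr 2
    · refine le_trans (mul_le_mul_of_nonneg_left ?_ hκ0) hκk
      nlinarith
    · exact pow_le_pow_of_le_one hρ.le hρ1 (by omega)
  have main : ∀ k : ℕ, k ≤ k0 → Φ * ρ ^ (2 * k) * (1 - κ * (k : ℝ) ^ 2 / 2) ≤ b k ∧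
      (k < k0 → ρ ^ 2 * (1 - κ * k) * b k ≤ b (k + 1)) := by
    intro k
    induction k with
    | zero =>
      intro _
      refine ⟨by simp [hb0], fun _ => ?_⟩
      have h2 := hcs 0 1
      rw [hb0] at h2
      have h3 : (ρ * Φ) ^ 2 ≤ Φ * b 1 := by
        refine le_trans (pow_le_pow_left₀ (by positivity) h1 2) ?_
        simpa using h2
      have h4 : Φ * (ρ ^ 2 * Φ) ≤ Φ * b 1 := by
        refine le_of_eq_of_le ?_ h3
        ring
      have h5 := le_of_mul_le_mul_left h4 hΦ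
      simpa [hb0] using h5
    | succ k ih =>
      intro hk
      obtain ⟨ih1, ih2⟩ := ih (by omega)
      have ih2' := ih2 (by omega)
      obtain ⟨hi1, hi2, hi3⟩ := hidx k (by omega)
      obtain ⟨hj1, hj2, hj3⟩ := hidx (k + 1) hk
      have hk00 : (0 : ℝ) ≤ k := Nat.cast_nonneg _
      have hbk : 0 < b k := by
        refine lt_of_lt_of_le ?_ ih1
        have : 0 < 1 - κ * (k : ℝ) ^ 2 / 2 := by linarith
        positivity
      have hfirst : Φ * ρ ^ (2 * (k + 1)) * (1 - κ * ((k + 1 : ℕ) : ℝ) ^ 2 / 2) ≤ b (k + 1) := by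
        refine le_trans ?_ ih2'
        have h2 : ρ ^ 2 * (1 - κ * k) * (Φ * ρ ^ (2 * k) * (1 - κ * (k : ℝ) ^ 2 / 2)) ≤
            ρ ^ 2 * (1 - κ * k) * b k :=
          mul_le_mul_of_nonneg_left ih1 (mul_nonneg (by positivity) (by linarith))
        refine le_trans ?_ h2
        have h3 : ρ ^ (2 * (k + 1)) = ρ ^ 2 * ρ ^ (2 * k) := by
          rw [mul_add, pow_add, mul_comm]
        rw [h3]
        have h4 : ρ ^ 2 * (1 - κ * k) * (Φ * ρ ^ (2 * k) * (1 - κ * (k : ℝ) ^ 2 / 2)) =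
            Φ * (ρ ^ 2 * ρ ^ (2 * k)) * ((1 - κ * k) * (1 - κ * (k : ℝ) ^ 2 / 2)) := by ring
        rw [h4]
        refine mul_le_mul_of_nonneg_left ?_ (by positivity)
        push_cast
        have h5 : 0 ≤ κ * k * (κ * (k : ℝ) ^ 2 / 2) := by positivity
        nlinarith
      refine ⟨hfirst, fun hlt => ?_⟩
      have hb1 : Φ * P / 2 ≤ b (k + 1) := by
        refine le_trans ?_ hfirst
        have h2 : Φ * P * (1 / 2) ≤
            Φ * ρ ^ (2 * (k + 1)) * (1 - κ * ((k + 1 : ℕ) : ℝ) ^ 2 / 2) := by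
          apply mul_le_mul
          · exact mul_le_mul_of_nonneg_left hj3 hΦ.le
          · linarith
          · norm_num
          · positivity
        linarith
      have hb1pos : 0 < b (k + 1) := lt_of_lt_of_le (by positivity) hb1
      have heb : e * Φ ≤ κ / 2 * b (k + 1) := by
        have h2 := mul_le_mul_of_nonneg_left hb1 (by positivity : 0 ≤ κ / 2)
        rw [heκ]
        linarith
      have hcs' := hcs k (k + 2)
      have hm' := hm (k + 1)
      have hidx2 : k + (k + 2) = 2 * (k + 1) := by ring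
      rw [hidx2] at hcs'
      have h2 : b (k + 1) * (1 - κ / 2) ≤ m (2 * (k + 1)) := by linarith
      have h3 : 0 ≤ b (k + 1) * (1 - κ / 2) := mul_nonneg hb1pos.le (by linarith)
      have h4 : (b (k + 1) * (1 - κ / 2)) ^ 2 ≤ b k * b (k + 2) :=
        (pow_le_pow_left₀ h3 h2 2).trans hcs'
      have h5 : b (k + 1) ^ 2 * (1 - κ) ≤ b k * b (k + 2) := by
        refine le_trans ?_ h4
        rw [mul_pow]
        refine mul_le_mul_of_nonneg_left ?_ (sq_nonneg _)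
        nlinarith [sq_nonneg κ]
      have h6 : b k * (ρ ^ 2 * (1 - κ * ((k + 1 : ℕ) : ℝ)) * b (k + 1)) ≤ b k * b (k + 2) := by
        refine le_trans ?_ h5
        have h7 : b (k + 1) * (1 - κ) * (ρ ^ 2 * (1 - κ * k) * b k) ≤
            b (k + 1) * (1 - κ) * b (k + 1) :=
          mul_le_mul_of_nonneg_left ih2' (mul_nonneg hb1pos.le (by linarith))
        have h8 : b (k + 1) ^ 2 * (1 - κ) = b (k + 1) * (1 - κ) * b (k + 1) := by ring
        rw [h8]
        refine le_trans ?_ h7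
        have h9 : b k * (ρ ^ 2 * (1 - κ * ((k + 1 : ℕ) : ℝ)) * b (k + 1)) =
            (b k * ρ ^ 2 * b (k + 1)) * (1 - κ * ((k + 1 : ℕ) : ℝ)) := by ring
        have h10 : b (k + 1) * (1 - κ) * (ρ ^ 2 * (1 - κ * k) * b k) =
            (b k * ρ ^ 2 * b (k + 1)) * ((1 - κ) * (1 - κ * k)) := by ring
        rw [h9, h10]
        refine mul_le_mul_of_nonneg_left ?_ (by positivity)
        push_cast
        have : 0 ≤ κ * (κ * k) := by positivity
        nlinarith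
      exact le_of_mul_le_mul_left h6 hbk
  obtain ⟨h2, _⟩ := main k0 le_rfl
  rw [← hP] at h2
  have h3 := hm k0
  have h4 : e * Φ ≤ 1 / 16 * (Φ * P) := by
    rw [heκ]
    have := mul_le_mul_of_nonneg_right hκ4 (by positivity : 0 ≤ Φ * P / 4)
    linarith
  have h5 : Φ * P * (7 / 8) ≤ Φ * P * (1 - κ * (k0 : ℝ) ^ 2 / 2) :=
    mul_le_mul_of_nonneg_left (by linarith) (by positivity)
  have h6 : 0 ≤ Φ * P := by positivity
  linarith

/-- The local moment inequality. -/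
theorem local_moment {I : Type} [Fintype I] [DecidableEq I] {N : ℕ} {C : I → I → ℝ}
    (hC : LocPSD (N + N) C) (hsym : ∀ x y, C x y = C y x) {u : I → ℝ} (hu : ∀ x, 0 ≤ u x)
    {A : Matrix I I ℝ} (hA : A.IsSymm) (hA0 : ∀ x y, 0 ≤ A x y) (hAu : A *ᵥ u = u)
    (hΦ : 0 < (XM u C).trace) {ρ : ℝ} (hρ : 0 < ρ) (hρ1 : ρ ≤ 1)
    (h1 : ρ * (XM u C).trace ≤ (XM u C * A).trace) {J : ℕ} (hJ : Even J) (hJ0 : 0 < J)
    (hN : 4 * (J : ℝ) ^ 2 * ρ⁻¹ ^ J + 1 ≤ N) :
    3 / 4 * ((XM u C).trace * ρ ^ J) ≤ (XM u C * A ^ J).trace := by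
  obtain ⟨k0, hk0⟩ := hJ
  have hk01 : 1 ≤ k0 := by omega
  have hJk : J = 2 * k0 := by omega
  have hpos : 0 < 4 * (J : ℝ) ^ 2 * ρ⁻¹ ^ J := by
    have : (0 : ℝ) < J := by exact_mod_cast hJ0
    positivity
  have hN1 : (1 : ℝ) < N := by linarith
  have hNpos : 0 < N := by
    have : (0 : ℝ) < N := by linarith
    exact_mod_cast this
  have hN0 : (N : ℝ) ≠ 0 := by linarith
  have hN10 : (N : ℝ) - 1 ≠ 0 := by linarith
  have hpsym : ∀ k : ℕ, (A ^ k).IsSymm := by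
    intro k
    unfold Matrix.IsSymm
    rw [Matrix.transpose_pow, hA]
  have hp0 : ∀ k : ℕ, ∀ x y, 0 ≤ (A ^ k) x y := by
    intro k
    induction k with
    | zero =>
      intro x y
      rw [pow_zero, Matrix.one_apply]
      split_ifs <;> norm_num
    | succ k ih =>
      intro x y
      rw [pow_succ, Matrix.mul_apply]
      exact Finset.sum_nonneg fun z _ => mul_nonneg (ih x z) (hA0 z y)
  have hpu : ∀ k : ℕ, (A ^ k) *ᵥ u = u := by
    intro k
    induction k with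
    | zero => rw [pow_zero, Matrix.one_mulVec]
    | succ k ih => rw [pow_succ, ← Matrix.mulVec_mulVec, hAu, ih]
  have hres := seq_moment (b := fun k => bb N (XM u C) (A ^ k))
    (m := fun k => (XM u C * A ^ k).trace) (Φ := (XM u C).trace) (e := 1 / ((N : ℝ) - 1))
    (ρ := ρ) (k0 := k0) hk01 hΦ ?_ ?_ ?_ ?_ ?_ hρ hρ1 ?_
  · rw [hJk]
    exact hres
  · -- b 0
    simp only [bb, pow_zero, Matrix.mul_one]
    field_simp
    ring
  · intro j k
    have h := local_cs hNpos hC hsym hu (hpsym j) (hp0 j) (hpu j) (hpsym k) (hp0 k) (hpu k)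
    rw [← pow_add] at h
    exact h
  · intro k
    have h := bb_nonneg hNpos hC hsym hu (hpsym k) (hp0 k) (hpu k)
    have e1 : A ^ (2 * k) = A ^ k * A ^ k := by rw [← pow_add]; congr 1; ring
    rw [e1]
    set t := (XM u C * (A ^ k * A ^ k)).trace with ht
    have e2 : bb N (XM u C) (A ^ k) = (XM u C).trace / N + (1 - 1 / N) * t := rfl
    rw [e2] at h ⊢
    have e3 : t - ((XM u C).trace / N + (1 - 1 / N) * t - 1 / ((N : ℝ) - 1) * (XM u C).trace) =
        ((XM u C).trace / N + (1 - 1 / N) * t) / ((N : ℝ) - 1) := by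
      field_simp
      ring
    have h3 : 0 ≤ ((XM u C).trace / N + (1 - 1 / N) * t) / ((N : ℝ) - 1) :=
      div_nonneg h (by linarith)
    linarith
  · exact div_nonneg zero_le_one (by linarith)
  · simpa using h1
  · -- smallness
    rw [← hJk]
    have e1 : ρ⁻¹ ^ J * ρ ^ J = 1 := by rw [← mul_pow, inv_mul_cancel₀ hρ.ne', one_pow]
    have h2 : 4 * (J : ℝ) ^ 2 * ρ⁻¹ ^ J ≤ (N : ℝ) - 1 := by linarith
    have h3 : 4 * (J : ℝ) ^ 2 ≤ ((N : ℝ) - 1) * ρ ^ J := by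
      have := mul_le_mul_of_nonneg_right h2 (pow_pos hρ J).le
      calc 4 * (J : ℝ) ^ 2 = 4 * (J : ℝ) ^ 2 * (ρ⁻¹ ^ J * ρ ^ J) := by rw [e1, mul_one]
        _ = 4 * (J : ℝ) ^ 2 * ρ⁻¹ ^ J * ρ ^ J := by ring
        _ ≤ _ := this
    have h4 : 16 * (k0 : ℝ) ^ 2 = 4 * (J : ℝ) ^ 2 := by
      rw [hJk]; push_cast; ring
    rw [h4, mul_one_div, div_le_iff₀ (by linarith)]
    linarith

end Pool.Agent.Lib.P325h
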