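import Pool.Agent.Lib.P325F.Lift
import Pool.Agent.Lib.P325s.LiftPow
import Pool.Agent.Lib.P325s.Moment
import Pool.Agent.Lib.P325h.Moment

/-!
# Small correlation at random places implies small correlation along the edges

Sherali-Adams versions of `P325v.corr_gen` and `P325F.corr_le`: the kernel `C` is only locally
positive semidefinite.
-/

set_option autoImplicit false

open Finset Matrix Pool.Agent.Lib.P325F

namespace Pool.Agent.Lib.P325h

variable {V ι L : Type} [Fintype V] [DecidableEq V] [Fintype ι] [Fintype L] [DecidableEq L]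
  {s t : ι → V} {w : ι → ℝ}

namespace CorrAux

/-- the stationary vector of the label extended graph -/
noncomputable def uu (s t : ι → V) (w : ι → ℝ) : V × L → ℝ :=
  fun p => √(dg s t w p.1 / (2 * ∑ e, w e))

omit [Fintype V] [Fintype L] [DecidableEq L] in
theorem uu_nonneg (p : V × L) : 0 ≤ uu s t w p := Real.sqrt_nonneg _

theorem LL_mulVec_uu (perm : ι → Equiv.Perm L) (hw : ∀ e, 0 ≤ w e) :
    LL s t perm w *ᵥ uu s t w = uu s t w := by
  funext p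
  obtain ⟨x, a⟩ := p
  have h1 : (LL s t perm w *ᵥ uu s t w) (x, a) =
      ∑ y, MM s t w x y * √(dg s t w y / (2 * ∑ e, w e)) := by
    simp only [Matrix.mulVec, dotProduct]
    rw [Fintype.sum_prod_type]
    refine Finset.sum_congr rfl fun y _ => ?_
    rw [← LL_row (s := s) (t := t) (w := w) perm x a y, Finset.sum_mul]
    rfl
  rw [h1]
  have h2 := congrFun (MM_mulVec_sqrt (s := s) (t := t) hw) x
  simp only [Matrix.mulVec, dotProduct] at h2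
  have h3 : ∀ y, √(dg s t w y / (2 * ∑ e, w e)) = √(dg s t w y) / √(2 * ∑ e, w e) := fun y =>
    Real.sqrt_div (dg_nonneg hw y) _
  simp_rw [h3, mul_div_assoc']
  rw [← Finset.sum_div, h2]
  show _ = √(dg s t w x / (2 * ∑ e, w e))
  rw [h3]

theorem XM_eq (C : V × L → V × L → ℝ) : XM (uu s t w) C =
    Matrix.of fun p q : V × L => √(dg s t w p.1 / (2 * ∑ e, w e)) *
      √(dg s t w q.1 / (2 * ∑ e, w e)) * C p q := rfl

theorem XM_trace (hw : ∀ e, 0 ≤ w e) (hm : 0 < ∑ e, w e) (C : V × L → V × L → ℝ) :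
    (XM (uu s t w) C).trace =
      ∑ x, dg s t w x / (2 * ∑ e, w e) * ∑ a, C (x, a) (x, a) := by
  have hμ0 : ∀ x, 0 ≤ dg s t w x / (2 * ∑ e, w e) := fun x =>
    div_nonneg (dg_nonneg hw x) (by positivity)
  unfold Matrix.trace
  rw [Fintype.sum_prod_type]
  refine sum_congr rfl fun x _ => ?_
  rw [mul_sum]
  refine sum_congr rfl fun a _ => ?_
  rw [Matrix.diag_apply, XM_eq, Matrix.of_apply, Real.mul_self_sqrt (hμ0 x)]

/-- the Hilbert-Schmidt bound -/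
theorem frob_le (perm : ι → Equiv.Perm L) (hw : ∀ e, 0 ≤ w e) (hm : 0 < ∑ e, w e)
    {C : V × L → V × L → ℝ} {κ : V × L → ℝ}
    (hκ0 : ∀ q, 0 ≤ κ q) (hκ1 : ∀ x, ∑ a, κ (x, a) = 1) (hκC : ∀ p q, κ q = 0 → C p q = 0)
    {J : ℕ} {Q K : ℝ} (htr : (MM s t w ^ (2 * J)).trace ≤ Q)
    (hK : K = ∑ x, ∑ a, ∑ y, ∑ b, dg s t w x / (2 * ∑ e, w e) *
      (dg s t w y / (2 * ∑ e, w e)) * (C (x, a) (y, b) ^ 2 / κ (y, b))) :
    (XM (uu s t w) C * LL s t perm w ^ J).trace ^ 2 ≤ K * Q := by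
  have hμ0 : ∀ x, 0 ≤ dg s t w x / (2 * ∑ e, w e) := fun x =>
    div_nonneg (dg_nonneg hw x) (by positivity)
  have h3 := P325s.frob (X := XM (uu s t w) C) (LL_symm (s := s) (t := t) (w := w) perm) hκ0 (by
    intro p q hq
    rw [XM_eq, Matrix.of_apply, hκC p q hq, mul_zero]) J
  have h4 := P325s.lift_pow (M := MM s t w) (M' := LL s t perm w) (LL_nonneg perm hw)
    (LL_row perm) hκ0 hκ1 (2 * J)
  have h5 : ∑ p, ∑ q, XM (uu s t w) C p q ^ 2 / κ q = K := by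
    rw [hK, Fintype.sum_prod_type]
    refine sum_congr rfl fun x _ => sum_congr rfl fun a _ => ?_
    rw [Fintype.sum_prod_type]
    refine sum_congr rfl fun y _ => sum_congr rfl fun b _ => ?_
    rw [XM_eq, Matrix.of_apply]
    simp only
    rw [mul_pow, mul_pow, Real.sq_sqrt (hμ0 x), Real.sq_sqrt (hμ0 y), mul_div_assoc]
  rw [h5] at h3
  have hK0 : 0 ≤ K := by
    rw [hK]
    exact sum_nonneg fun x _ => sum_nonneg fun a _ => sum_nonneg fun y _ =>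
      sum_nonneg fun b _ => mul_nonneg (mul_nonneg (hμ0 x) (hμ0 y))
        (div_nonneg (sq_nonneg _) (hκ0 _))
  exact h3.trans (mul_le_mul_of_nonneg_left (h4.trans htr) hK0)

end CorrAux

open CorrAux

theorem corr_gen (perm : ι → Equiv.Perm L) (hw : ∀ e, 0 ≤ w e) (hm : 0 < ∑ e, w e)
    {C : V × L → V × L → ℝ} (hC : ∀ p q, C p q = C q p) {N : ℕ}
    (hCp : LocPSD (N + N) C) {κ : V × L → ℝ}
    (hκ0 : ∀ q, 0 ≤ κ q) (hκ1 : ∀ x, ∑ a, κ (x, a) = 1) (hκC : ∀ p q, κ q = 0 → C p q = 0)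
    {J : ℕ} (hJ : Even J) (hJ0 : 0 < J) {Q : ℝ} (htr : (MM s t w ^ (2 * J)).trace ≤ Q)
    {Φ c K ρ : ℝ} (hΦ : Φ = ∑ x, dg s t w x / (2 * ∑ e, w e) * ∑ a, C (x, a) (x, a))
    (hΦ0 : 0 < Φ) (hc : c = (∑ e, w e * ∑ a, C (s e, a) (t e, perm e a)) / ∑ e, w e)
    (hK : K = ∑ x, ∑ a, ∑ y, ∑ b, dg s t w x / (2 * ∑ e, w e) *
      (dg s t w y / (2 * ∑ e, w e)) * (C (x, a) (y, b) ^ 2 / κ (y, b)))
    (hρ : 0 < ρ) (hρ1 : ρ ≤ 1) (hρc : ρ * Φ ≤ c)
    (hN : 4 * (J : ℝ) ^ 2 * ρ⁻¹ ^ J + 1 ≤ N) :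
    (Φ * ρ ^ J) ^ 2 ≤ 2 * (K * Q) := by
  have htrL := trace_LL (s := s) (t := t) perm hw hm hC
  rw [← XM_eq, ← hc] at htrL
  have htrX := XM_trace (s := s) (t := t) hw hm C
  rw [← hΦ] at htrX
  have h1 := local_moment (u := uu s t w) hCp hC uu_nonneg (LL_symm (s := s) (t := t) (w := w) perm)
    (LL_nonneg perm hw) (LL_mulVec_uu perm hw) (by rw [htrX]; exact hΦ0) hρ hρ1
    (by rw [htrX, htrL]; exact hρc) hJ hJ0 hN
  rw [htrX] at h1
  have h2 := frob_le perm hw hm hκ0 hκ1 hκC htr hK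
  have h3 : 0 ≤ Φ * ρ ^ J := by positivity
  have h4 : (3 / 4 * (Φ * ρ ^ J)) ^ 2 ≤ K * Q :=
    (pow_le_pow_left₀ (by positivity) h1 2).trans h2
  nlinarith [sq_nonneg (Φ * ρ ^ J)]

theorem corr_le (perm : ι → Equiv.Perm L) (hw : ∀ e, 0 ≤ w e) (hm : 0 < ∑ e, w e)
    {C : V × L → V × L → ℝ} (hC : ∀ p q, C p q = C q p) {N : ℕ}
    (hCp : LocPSD (N + N) C)
    (hC1 : ∑ x, dg s t w x / (2 * ∑ e, w e) * ∑ a, C (x, a) (x, a) ≤ 1) {κ : V × L → ℝ}
    (hκ0 : ∀ q, 0 ≤ κ q) (hκ1 : ∀ x, ∑ a, κ (x, a) = 1) (hκC : ∀ p q, κ q = 0 → C p q = 0)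
    {J : ℕ} (hJ : J = 1 ∨ Even J) (hJ0 : 0 < J) {Q τ : ℝ} (hτ : 0 < τ)
    (hN : 4 * (J : ℝ) ^ 2 * τ⁻¹ ^ J + 1 ≤ N)
    (htr : (MM s t w ^ (2 * J)).trace ≤ Q)
    (hK : 2 * ((∑ x, ∑ a, ∑ y, ∑ b, dg s t w x / (2 * ∑ e, w e) * (dg s t w y / (2 * ∑ e, w e)) *
      (C (x, a) (y, b) ^ 2 / κ (y, b))) * Q) ≤ τ ^ (2 * J)) :
    ∑ e, w e * ∑ a, C (s e, a) (t e, perm e a) ≤ τ * ∑ e, w e := by
  set m : ℝ := ∑ e, w e with hmdef
  set K : ℝ := ∑ x, ∑ a, ∑ y, ∑ b, dg s t w x / (2 * m) * (dg s t w y / (2 * m)) *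
      (C (x, a) (y, b) ^ 2 / κ (y, b)) with hKdef
  set Φ : ℝ := ∑ x, dg s t w x / (2 * m) * ∑ a, C (x, a) (x, a) with hΦdef
  set c : ℝ := (∑ e, w e * ∑ a, C (s e, a) (t e, perm e a)) / m with hc
  have hcm : ∑ e, w e * ∑ a, C (s e, a) (t e, perm e a) = c * m := by
    rw [hc, div_mul_cancel₀ _ hm.ne']
  rw [hcm]
  refine mul_le_mul_of_nonneg_right ?_ hm.le
  by_contra hlt
  push Not at hlt
  have hcpos : 0 < c := hτ.trans hlt
  -- the mass is at least the correlation of the edges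
  have hNpos : 0 < N := by
    have h1 : (0 : ℝ) < 4 * (J : ℝ) ^ 2 * τ⁻¹ ^ J := by
      have : (0 : ℝ) < J := by exact_mod_cast hJ0
      positivity
    have h2 : (0 : ℝ) < N := by linarith
    exact_mod_cast h2
  have hpair : ∀ p q : V × L, 2 * C p q ≤ C p p + C q q := by
    intro p q
    have h2 : LocPSD 2 C := hCp.mono (by omega) (Or.inr ⟨p⟩)
    have h := h2 ![p, q] ![1, -1]
    simp only [Fin.sum_univ_two, Matrix.cons_val_zero, Matrix.cons_val_one] at h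
    rw [hC q p] at h
    linarith
  have hcΦ : c ≤ Φ := by
    rw [hc, div_le_iff₀ hm]
    have h1 : ∑ e, w e * ∑ a, C (s e, a) (t e, perm e a) ≤
        ∑ e, w e * ((∑ a, C (s e, a) (s e, a) + ∑ a, C (t e, a) (t e, a)) / 2) := by
      refine Finset.sum_le_sum fun e _ => mul_le_mul_of_nonneg_left ?_ (hw e)
      have h2 : ∑ a, 2 * C (s e, a) (t e, perm e a) ≤
          ∑ a, (C (s e, a) (s e, a) + C (t e, perm e a) (t e, perm e a)) :=
        Finset.sum_le_sum fun a _ => hpair _ _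
      rw [← Finset.mul_sum, Finset.sum_add_distrib,
        Equiv.sum_comp (perm e) (fun a => C (t e, a) (t e, a))] at h2
      linarith
    refine h1.trans (le_of_eq ?_)
    have h3 := sum_dg_mul (s := s) (t := t) (w := w) (fun x => ∑ a, C (x, a) (x, a))
    rw [hΦdef, Finset.sum_mul]
    have h4 : ∀ x, dg s t w x / (2 * m) * (∑ a, C (x, a) (x, a)) * m =
        dg s t w x * (∑ a, C (x, a) (x, a)) / 2 := by
      intro x
      field_simp
    simp_rw [h4]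
    rw [← Finset.sum_div, h3, Finset.sum_div]
    refine Finset.sum_congr rfl fun e _ => ?_
    ring
  have hΦ0 : 0 < Φ := lt_of_lt_of_le hcpos hcΦ
  rcases hJ with rfl | hJ
  · -- one step
    have htrL := trace_LL (s := s) (t := t) perm hw hm hC
    rw [← XM_eq, ← hmdef, ← hc] at htrL
    have h2 := frob_le (C := C) (K := K) perm hw hm hκ0 hκ1 hκC htr rfl
    rw [pow_one, htrL] at h2
    have h3 : c ^ 2 ≤ τ ^ 2 := by
      have h4 : 0 ≤ c ^ 2 := sq_nonneg _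
      rw [mul_one] at hK
      nlinarith
    have h4 := (pow_le_pow_iff_left₀ hcpos.le hτ.le two_ne_zero).1 h3
    linarith
  · set ρ : ℝ := c / Φ with hρ
    have hρ0 : 0 < ρ := div_pos hcpos hΦ0
    have hρ1 : ρ ≤ 1 := (div_le_one hΦ0).2 hcΦ
    have hρτ : τ ≤ ρ := by
      rw [hρ, le_div_iff₀ hΦ0]
      have : τ * Φ ≤ τ * 1 := mul_le_mul_of_nonneg_left hC1 hτ.le
      linarith
    have hN' : 4 * (J : ℝ) ^ 2 * ρ⁻¹ ^ J + 1 ≤ N := by
      refine le_trans ?_ hN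
      have h1 : ρ⁻¹ ^ J ≤ τ⁻¹ ^ J :=
        pow_le_pow_left₀ (inv_nonneg.2 hρ0.le) (inv_anti₀ hτ hρτ) J
      have h2 := mul_le_mul_of_nonneg_left h1 (by positivity : 0 ≤ 4 * (J : ℝ) ^ 2)
      linarith
    have h1 := corr_gen (C := C) (K := K) (Φ := Φ) (c := c) perm hw hm hC hCp hκ0 hκ1 hκC hJ hJ0
      htr rfl hΦ0 rfl rfl hρ0 hρ1 (by rw [hρ, div_mul_cancel₀ _ hΦ0.ne']) hN'
    have h2 : c ^ J ≤ Φ * ρ ^ J := by
      obtain ⟨k, hk⟩ : ∃ k, J = k + 1 := ⟨J - 1, by omega⟩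
      have h3 : c = Φ * ρ := by rw [hρ]; field_simp
      calc c ^ J = Φ ^ J * ρ ^ J := by rw [h3, mul_pow]
        _ ≤ Φ * ρ ^ J := by
          refine mul_le_mul_of_nonneg_right ?_ (by positivity)
          rw [hk, pow_succ]
          exact mul_le_of_le_one_left hΦ0.le (pow_le_one₀ hΦ0.le hC1)
    have h3 : (c ^ J) ^ 2 ≤ τ ^ (2 * J) :=
      (pow_le_pow_left₀ (by positivity) h2 2).trans (h1.trans hK)
    rw [← pow_mul, mul_comm J 2] at h3
    have h4 := (pow_le_pow_iff_left₀ hcpos.le hτ.le (by omega)).1 h3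
    linarith

end Pool.Agent.Lib.P325h
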