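import Pool.Agent.Lib.P325h.Sos
import Pool.Agent.Lib.P325w.Main

/-!
# Sherali-Adams on unique games with a spectral gap

The version of `Pool/Agent/Lib/P325w/Main.lean` for the Sherali-Adams hierarchy.
-/

set_option autoImplicit false

open Finset Matrix Pool.Agent.Lib.P325F

namespace Pool.Agent.Lib.P325h

theorem sq_mul_pow_le {t : ℝ} (ht0 : 0 < t) (ht1 : t < 1) (J : ℕ) :
    8 * (J : ℝ) ^ 2 * t⁻¹ ^ J ≤ 5 / (1 - t) ^ 2 * t⁻¹ ^ (2 * J) := by
  set L : ℝ := -Real.log t with hL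
  have hL0 : 0 < L := by
    have := Real.log_neg ht0 ht1
    rw [hL]; linarith
  have hL1 : 1 - t ≤ L := by
    have := Real.log_le_sub_one_of_pos ht0
    rw [hL]; linarith
  have h1t : 0 < 1 - t := by linarith
  have htJ : t⁻¹ ^ J = Real.exp (J * L) := by
    rw [hL, ← Real.log_inv, mul_comm, ← Real.rpow_def_of_pos (inv_pos.2 ht0), Real.rpow_natCast]
  have h2J : t⁻¹ ^ (2 * J) = Real.exp (J * L) * Real.exp (J * L) := by
    rw [two_mul, pow_add, htJ]
  rw [h2J, htJ, ← mul_assoc]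
  refine mul_le_mul_of_nonneg_right ?_ (Real.exp_pos _).le
  set y : ℝ := J * L / 2 with hy
  have hy0 : 0 ≤ y := by positivity
  have h1 : y ≤ Real.exp (y - 1) := by
    have := Real.add_one_le_exp (y - 1)
    linarith
  have h2 : y ^ 2 ≤ Real.exp (y - 1) ^ 2 := by gcongr
  have h3 : Real.exp (y - 1) ^ 2 * Real.exp 2 = Real.exp (J * L) := by
    rw [← Real.exp_nat_mul, ← Real.exp_add]
    congr 1
    rw [hy]; push_cast; ring
  have h4 : (7 : ℝ) ≤ Real.exp 2 := by
    have h5 := Real.exp_one_gt_d9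
    have h6 : Real.exp 2 = Real.exp 1 * Real.exp 1 := by
      rw [← Real.exp_add]; norm_num
    rw [h6]
    nlinarith
  have h7 : 7 * y ^ 2 ≤ Real.exp (J * L) := by
    rw [← h3]
    have := Real.exp_pos (y - 1)
    nlinarith [sq_nonneg (Real.exp (y - 1)), sq_nonneg y]
  have h8 : (J : ℝ) ^ 2 * L ^ 2 = 4 * y ^ 2 := by rw [hy]; ring
  have h9 : 8 * (J : ℝ) ^ 2 * (1 - t) ^ 2 ≤ 5 * Real.exp (J * L) := by
    have h10 : (J : ℝ) ^ 2 * (1 - t) ^ 2 ≤ (J : ℝ) ^ 2 * L ^ 2 := by gcongr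
    nlinarith [sq_nonneg y]
  rw [div_mul_eq_mul_div, le_div_iff₀ (by positivity)]
  exact h9

/-- Sherali-Adams of degree `16 n ^ (log t / log μ) / (t ^ 4 (1 - t) ^ 2)` certifies, for unique games
on graphs with second eigenvalue at most `μ`, the value within an additive error `t`. -/
theorem sa_expander {μ t s : ℝ} (hμ0 : 0 < μ) (hμ1 : μ < 1) (ht0 : 0 < t) (ht1 : t < 1)
    (U W Ω ι : Type) [Fintype U] [Fintype W] [Fintype Ω] [Fintype ι]
    (I : P325x.Game U W Ω ι) (hI : I.SecondEigenvalueLE μ) (r : ℕ)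
    (E : ((U ⊕ W → Ω) → ℝ) →ₗ[ℝ] ℝ) (hE : IsLocalExpectation r E)
    (hr : 16 / (t ^ 4 * (1 - t) ^ 2) *
      ((Fintype.card U : ℝ) + Fintype.card W) ^ (Real.log t / Real.log μ) ≤ r)
    (hval : s ≤ E (fun z => I.satFrac (fun u => z (Sum.inl u)) (fun v => z (Sum.inr v)))) :
    s - t ≤ I.value := by
  classical
  rcases Nat.eq_zero_or_pos (Fintype.card ι) with h0 | hm
  · have h1 : (fun z : U ⊕ W → Ω =>
        I.satFrac (fun u => z (Sum.inl u)) (fun v => z (Sum.inr v))) = 0 := by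
      funext z
      unfold P325x.Game.satFrac
      rw [h0]
      simp
    rw [h1, map_zero] at hval
    have h2 : 0 ≤ I.value := by
      unfold P325x.Game.value
      refine Real.iSup_nonneg fun p => ?_
      unfold P325x.Game.satFrac
      positivity
    linarith
  have hm' : (0 : ℝ) < Fintype.card ι := by exact_mod_cast hm
  have hι : Nonempty ι := Fintype.card_pos_iff.1 hm
  obtain ⟨i0⟩ := id hι
  set n : ℝ := (Fintype.card U : ℝ) + Fintype.card W with hn
  have hcard : (Fintype.card (U ⊕ W) : ℝ) = n := by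
    rw [Fintype.card_sum, hn]; push_cast; ring
  have hn1 : 1 ≤ n := by
    have : 1 ≤ Fintype.card U := Fintype.card_pos_iff.2 ⟨I.src i0⟩
    have h2 : (1 : ℝ) ≤ Fintype.card U := by exact_mod_cast this
    have h3 : (0 : ℝ) ≤ Fintype.card W := Nat.cast_nonneg _
    linarith
  have hsum : s * Fintype.card ι ≤ ∑ e, E (P325u.sat (Sum.inl (I.src e) : U ⊕ W)
      (Sum.inr (I.dst e)) (I.perm e)) := by
    have h1 : (fun z : U ⊕ W → Ω =>
        I.satFrac (fun u => z (Sum.inl u)) (fun v => z (Sum.inr v))) =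
        (Fintype.card ι : ℝ)⁻¹ • ∑ e, P325u.sat (Sum.inl (I.src e) : U ⊕ W)
          (Sum.inr (I.dst e)) (I.perm e) := by
      funext z
      have h2 := P325v.satFrac_card I hm z
      rw [Pi.smul_apply, Finset.sum_apply, smul_eq_mul, ← div_eq_inv_mul, eq_div_iff hm'.ne', h2]
      unfold P325F.sat P325u.sat Good
      apply Finset.sum_congr rfl
      intro e _
      by_cases hc : I.perm e (z (Sum.inl (I.src e))) = z (Sum.inr (I.dst e))
      · simp only [hc, if_true]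
      · simp only [hc, if_false]
    rw [h1, map_smul, map_sum, smul_eq_mul, ← div_eq_inv_mul, le_div_iff₀ hm'] at hval
    exact hval
  obtain ⟨J, hJe, hJ0, hJn, hJt⟩ := P325w.exists_J hμ0 hμ1 ht0 ht1 hn1
  have htr := P325w.game_trace I hμ0.le hI hJ0
  rw [hcard] at htr
  have hdeg : 2 * (3 * t⁻¹ ^ (2 * J)) + 8 * (J : ℝ) ^ 2 * t⁻¹ ^ J + 5 ≤ r := by
    refine le_trans ?_ hr
    have h1t : 0 < 1 - t := by linarith
    have hA := sq_mul_pow_le ht0 ht1 J
    have hX : 1 ≤ t⁻¹ ^ (2 * J) := one_le_pow₀ ((one_le_inv₀ ht0).2 ht1.le)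
    have hB : 1 ≤ 1 / (1 - t) ^ 2 := by
      rw [le_div_iff₀ (by positivity), one_mul]
      exact pow_le_one₀ h1t.le (by linarith)
    have h1 : 16 / (t ^ 4 * (1 - t) ^ 2) * n ^ (Real.log t / Real.log μ) =
        16 * (1 / (1 - t) ^ 2) * (1 / t ^ 4 * n ^ (Real.log t / Real.log μ)) := by
      field_simp
    rw [h1]
    refine le_trans ?_ (mul_le_mul_of_nonneg_left hJt (by positivity))
    have h2 : 5 / (1 - t) ^ 2 * t⁻¹ ^ (2 * J) = 5 * (1 / (1 - t) ^ 2) * t⁻¹ ^ (2 * J) := by ring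
    rw [h2] at hA
    have h3 : t⁻¹ ^ (2 * J) ≤ 1 / (1 - t) ^ 2 * t⁻¹ ^ (2 * J) := by
      exact le_mul_of_one_le_left (by positivity) hB
    nlinarith
  obtain ⟨z, hz⟩ := sos_of_le (s := fun e => (Sum.inl (I.src e) : U ⊕ W))
    (t := fun e => Sum.inr (I.dst e)) I.perm (fun e => Sum.inl_ne_inr) hE (Or.inr hJe) hJ0
    (Q := 3) (τ := t) (by norm_num) ht0 hdeg (fun _ => 1) (fun _ => zero_le_one) (by linarith)
  rw [← P325v.satFrac_card I hm z] at hz
  simp only [one_mul, Finset.sum_const, Finset.card_univ, nsmul_eq_mul, mul_one] at hz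
  have h3 : (s - t) * Fintype.card ι ≤
      I.satFrac (fun u => z (Sum.inl u)) (fun v => z (Sum.inr v)) * Fintype.card ι := by
    refine le_trans ?_ hz
    rw [sub_mul]
    linarith
  exact (le_of_mul_le_mul_right h3 hm').trans (P325u.satFrac_le_value I _ _)

end Pool.Agent.Lib.P325h
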