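import Pool.Agent.Lib.P325s.Kern
import Pool.Agent.Lib.P325h.Moment

/-!
# A locally positive semidefinite kernel of small energy on the lift has a large mean square

Sherali-Adams version of `P325s.kern_bound`. The kernel `C` is only `2 N`-locally positive
semidefinite; `dl` is a pseudo-metric with `2 C p q ≥ C p p + C q q - dl p q`.
-/

open scoped BigOperators

namespace Pool.Agent.Lib.P325h

open Pool.Agent.Lib.P325s

namespace KernAux

variable {T ι L : Type} [Fintype T] [DecidableEq T] [Fintype ι] [Fintype L] [DecidableEq L]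

/-- the stationary vector -/
noncomputable def us (μ : T → ℝ) : T × L → ℝ := fun p => √(μ p.1)

omit [Fintype T] [DecidableEq T] [Fintype L] [DecidableEq L] in
theorem us_nonneg (μ : T → ℝ) (p : T × L) : 0 ≤ us μ p := Real.sqrt_nonneg _

theorem lapL_mulVec (μ : T → ℝ) (hμ : ∀ x, 0 < μ x) (s t : ι → T) (σ : ι → Equiv.Perm L)
    (w : ι → ℝ) : (lapL μ s t σ w).mulVec (us μ) = 0 := by
  funext p
  simp only [Matrix.mulVec, dotProduct, lapL, Pi.zero_apply, Finset.sum_mul]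
  rw [Finset.sum_comm]
  refine Finset.sum_eq_zero fun e _ => ?_
  have h1 : ∀ a : L, ∑ q : T × L, bvL μ s t σ e a q * us μ q = 0 := by
    intro a
    have h2 : ∀ q : T × L, bvL μ s t σ e a q * us μ q =
        (if (s e, a) = q then 1 else 0) - (if (t e, σ e a) = q then 1 else 0) := by
      rintro ⟨x, b⟩
      have hx : √(μ x) ≠ 0 := (Real.sqrt_pos.2 (hμ x)).ne'
      unfold bvL us
      simp only [Prod.mk.injEq, sub_mul, ite_mul, zero_mul, inv_mul_cancel₀ hx]
    simp_rw [h2]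
    rw [Finset.sum_sub_distrib]
    simp
  have h2 : ∀ q : T × L, w e * (∑ a, bvL μ s t σ e a p * bvL μ s t σ e a q) * us μ q =
      ∑ a, w e * bvL μ s t σ e a p * (bvL μ s t σ e a q * us μ q) := by
    intro q
    rw [Finset.mul_sum, Finset.sum_mul]
    refine Finset.sum_congr rfl fun a _ => ?_
    ring
  simp_rw [h2]
  rw [Finset.sum_comm]
  refine Finset.sum_eq_zero fun a _ => ?_
  rw [← Finset.mul_sum, h1 a, mul_zero]

theorem walkL_mulVec (μ : T → ℝ) (hμ : ∀ x, 0 < μ x) (s t : ι → T) (σ : ι → Equiv.Perm L)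
    (w : ι → ℝ) (c : ℝ) : (walkL μ s t σ w c).mulVec (us μ) = us μ := by
  unfold walkL
  rw [Matrix.sub_mulVec, Matrix.one_mulVec, Matrix.smul_mulVec, lapL_mulVec μ hμ, smul_zero,
    sub_zero]

section general

variable {I : Type} [Fintype I] [DecidableEq I]

/-- the mean of a pseudo-metric along a product of two stationary walks -/
theorem trace_mul_le {u : I → ℝ} (hu : ∀ x, 0 ≤ u x) {dl : I → I → ℝ}
    (hdl : ∀ p q, dl p q = dl q p) (htri : ∀ p q r, dl p r ≤ dl p q + dl q r)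
    {A B : Matrix I I ℝ} (hA : A.IsSymm) (hA0 : ∀ x y, 0 ≤ A x y) (hAu : A.mulVec u = u)
    (hB : B.IsSymm) (hB0 : ∀ x y, 0 ≤ B x y) (hBu : B.mulVec u = u) :
    (XM u dl * (A * B)).trace ≤ (XM u dl * A).trace + (XM u dl * B).trace := by
  have hrow : ∀ {M : Matrix I I ℝ}, M.mulVec u = u → ∀ p, ∑ q, M p q * u q = u p := by
    intro M hM p
    exact congrFun hM p
  have e1 : ∀ M : Matrix I I ℝ, M.IsSymm → (XM u dl * M).trace =
      ∑ p, ∑ q, u p * u q * dl p q * M p q := by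
    intro M hM
    simp only [Matrix.trace, Matrix.diag, Matrix.mul_apply, XM, Matrix.of_apply]
    refine Finset.sum_congr rfl fun p _ => Finset.sum_congr rfl fun q _ => ?_
    rw [hM.apply p q]
  have e2 : (XM u dl * (A * B)).trace = ∑ p, ∑ q, ∑ r, u p * u r * dl p r * (A p q * B q r) := by
    have h1 : (XM u dl * (A * B)).trace = ∑ r, ∑ p, u r * u p * dl r p * (A * B) p r := by
      simp only [Matrix.trace, Matrix.diag, Matrix.mul_apply, XM, Matrix.of_apply]
    rw [h1, Finset.sum_comm]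
    refine Finset.sum_congr rfl fun p _ => ?_
    rw [Finset.sum_comm]
    refine Finset.sum_congr rfl fun r _ => ?_
    rw [Matrix.mul_apply, Finset.mul_sum]
    refine Finset.sum_congr rfl fun q _ => ?_
    rw [hdl r p]
    ring
  have e3 : ∑ p, ∑ q, ∑ r, u p * u r * dl p q * (A p q * B q r) = (XM u dl * A).trace := by
    rw [e1 A hA]
    refine Finset.sum_congr rfl fun p _ => Finset.sum_congr rfl fun q _ => ?_
    have h1 := hrow hBu q
    calc ∑ r, u p * u r * dl p q * (A p q * B q r) =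
        u p * dl p q * A p q * ∑ r, B q r * u r := by
          rw [Finset.mul_sum]
          exact Finset.sum_congr rfl fun r _ => by ring
      _ = _ := by rw [h1]; ring
  have e4 : ∑ p, ∑ q, ∑ r, u p * u r * dl q r * (A p q * B q r) = (XM u dl * B).trace := by
    rw [e1 B hB, Finset.sum_comm]
    refine Finset.sum_congr rfl fun q _ => ?_
    rw [Finset.sum_comm]
    refine Finset.sum_congr rfl fun r _ => ?_
    have h1 := hrow hAu q
    calc ∑ p, u p * u r * dl q r * (A p q * B q r) =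
        u r * dl q r * B q r * ∑ p, A q p * u p := by
          rw [Finset.mul_sum]
          exact Finset.sum_congr rfl fun p _ => by rw [hA.apply p q]; ring
      _ = _ := by rw [h1]; ring
  rw [e2, ← e3, ← e4, ← Finset.sum_add_distrib]
  refine Finset.sum_le_sum fun p _ => ?_
  rw [← Finset.sum_add_distrib]
  refine Finset.sum_le_sum fun q _ => ?_
  rw [← Finset.sum_add_distrib]
  refine Finset.sum_le_sum fun r _ => ?_
  have h1 : 0 ≤ u p * u r * (A p q * B q r) :=
    mul_nonneg (mul_nonneg (hu p) (hu r)) (mul_nonneg (hA0 p q) (hB0 q r))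
  have h2 := mul_le_mul_of_nonneg_left (htri p q r) h1
  linarith

theorem trace_pow_le {u : I → ℝ} (hu : ∀ x, 0 ≤ u x) {dl : I → I → ℝ}
    (hdl : ∀ p q, dl p q = dl q p) (htri : ∀ p q r, dl p r ≤ dl p q + dl q r)
    (hdl0 : ∀ p, dl p p = 0)
    {A : Matrix I I ℝ} (hA : A.IsSymm) (hA0 : ∀ x y, 0 ≤ A x y) (hAu : A.mulVec u = u) (m : ℕ) :
    (A ^ m).IsSymm ∧ (∀ x y, 0 ≤ (A ^ m) x y) ∧ (A ^ m).mulVec u = u ∧
      (XM u dl * A ^ m).trace ≤ m * (XM u dl * A).trace := by
  induction m with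
  | zero =>
    refine ⟨by rw [pow_zero]; exact Matrix.isSymm_one, ?_, by rw [pow_zero, Matrix.one_mulVec], ?_⟩
    · intro x y
      rw [pow_zero, Matrix.one_apply]
      split_ifs <;> norm_num
    · rw [pow_zero, Matrix.mul_one]
      have : (XM u dl).trace = 0 := by
        unfold Matrix.trace
        refine Finset.sum_eq_zero fun p _ => ?_
        rw [Matrix.diag_apply]
        show u p * u p * dl p p = 0
        rw [hdl0, mul_zero]
      rw [this]
      simp
  | succ m ih =>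
    obtain ⟨ih1, ih2, ih3, ih4⟩ := ih
    refine ⟨?_, ?_, ?_, ?_⟩
    · unfold Matrix.IsSymm
      rw [Matrix.transpose_pow, hA]
    · intro x y
      rw [pow_succ, Matrix.mul_apply]
      exact Finset.sum_nonneg fun z _ => mul_nonneg (ih2 x z) (hA0 z y)
    · rw [pow_succ, ← Matrix.mulVec_mulVec, hAu, ih3]
    · rw [pow_succ]
      refine (trace_mul_le hu hdl htri ih1 ih2 ih3 hA hA0 hAu).trans ?_
      push_cast
      linarith

/-- the kernel along a stationary walk -/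
theorem trace_ge {u : I → ℝ} (hu : ∀ x, 0 ≤ u x) {C dl : I → I → ℝ}
    (hC : ∀ p q, C p p + C q q - dl p q ≤ 2 * C p q)
    {A : Matrix I I ℝ} (hA : A.IsSymm) (hA0 : ∀ x y, 0 ≤ A x y) (hAu : A.mulVec u = u) :
    (XM u C).trace - (XM u dl * A).trace / 2 ≤ (XM u C * A).trace := by
  have hrow : ∀ p, ∑ q, A p q * u q = u p := fun p => congrFun hAu p
  have e1 : ∀ F : I → I → ℝ, (XM u F * A).trace = ∑ p, ∑ q, u p * u q * F p q * A p q := by
    intro F
    simp only [Matrix.trace, Matrix.diag, Matrix.mul_apply, XM, Matrix.of_apply]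
    refine Finset.sum_congr rfl fun p _ => Finset.sum_congr rfl fun q _ => ?_
    rw [hA.apply p q]
  have e2 : ∑ p, ∑ q, u p * u q * C p p * A p q = (XM u C).trace := by
    unfold Matrix.trace
    refine Finset.sum_congr rfl fun p _ => ?_
    rw [Matrix.diag_apply]
    show _ = u p * u p * C p p
    calc ∑ q, u p * u q * C p p * A p q = u p * C p p * ∑ q, A p q * u q := by
          rw [Finset.mul_sum]
          exact Finset.sum_congr rfl fun q _ => by ring
      _ = _ := by rw [hrow p]; ring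
  have e3 : ∑ p, ∑ q, u p * u q * C q q * A p q = (XM u C).trace := by
    rw [← e2, Finset.sum_comm]
    refine Finset.sum_congr rfl fun p _ => Finset.sum_congr rfl fun q _ => ?_
    rw [hA.apply p q]
    ring
  have h1 : 2 * (XM u C).trace - (XM u dl * A).trace ≤ 2 * (XM u C * A).trace := by
    have h2 : 2 * (XM u C).trace = ∑ p, ∑ q, u p * u q * C p p * A p q +
        ∑ p, ∑ q, u p * u q * C q q * A p q := by rw [e2, e3]; ring
    rw [h2, e1, e1, Finset.mul_sum, ← Finset.sum_add_distrib, ← Finset.sum_sub_distrib]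
    refine Finset.sum_le_sum fun p _ => ?_
    rw [Finset.mul_sum, ← Finset.sum_add_distrib, ← Finset.sum_sub_distrib]
    refine Finset.sum_le_sum fun q _ => ?_
    have h3 : 0 ≤ u p * u q * A p q := mul_nonneg (mul_nonneg (hu p) (hu q)) (hA0 p q)
    have h4 := mul_le_mul_of_nonneg_left (hC p q) h3
    linarith
  linarith

end general

end KernAux

open KernAux

/-- the energy of the pseudo-metric along the lifted edges -/
noncomputable def dEnergy {T ι L : Type} [Fintype ι] [Fintype L] (s t : ι → T)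
    (σ : ι → Equiv.Perm L) (w : ι → ℝ) (dl : T × L → T × L → ℝ) : ℝ :=
  ∑ e, w e * ∑ a, dl (s e, a) (t e, σ e a)

theorem pre_bound {T ι L : Type} [Fintype T] [DecidableEq T] [Nonempty T] [Fintype ι]
    [Fintype L] [DecidableEq L]
    (μ : T → ℝ) (s t : ι → T) (σ : ι → Equiv.Perm L) (w : ι → ℝ) (lam : ℝ)
    (hμ : ∀ x, 0 < μ x) (hμ1 : ∑ x, μ x = 1) (hw : ∀ e, 0 ≤ w e) (hlam : 0 ≤ lam)
    (hnash : ∀ g : T → ℝ, (∀ x, 0 ≤ g x) → ∑ x, μ x * g x = 1 →
      lam * ((∑ x, μ x * g x ^ 2) * Real.log (∑ x, μ x * g x ^ 2)) ≤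
        ∑ e, w e * (g (s e) - g (t e)) ^ 2)
    (C : T × L → T × L → ℝ) (hsym : ∀ p q, C p q = C q p) {N : ℕ}
    (hpsd : LocPSD (N + N) C) (hΦ : 0 < kMass μ C)
    (dl : T × L → T × L → ℝ) (hdl : ∀ p q, dl p q = dl q p)
    (htri : ∀ p q r, dl p r ≤ dl p q + dl q r) (hdl0 : ∀ p, dl p p = 0)
    (hCd : ∀ p q, C p p + C q q - dl p q ≤ 2 * C p q)
    {κ : T × L → ℝ} (hκ0 : ∀ q, 0 ≤ κ q) (hκ1 : ∀ x, ∑ a, κ (x, a) = 1)
    (hκC : ∀ p q, κ q = 0 → C p q = 0)
    {c : ℝ} (hc0 : 0 < c) (hc : lamMax μ s t w ≤ c) (hc2 : 2 * lam ≤ c) (m : ℕ)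
    {ρ : ℝ} (hρ : 0 < ρ) (hρ1 : ρ ≤ 1)
    (hen : m * dEnergy s t σ w dl ≤ c * ((1 - ρ) * kMass μ C))
    {J : ℕ} (hJ : Even J) (hJ0 : 0 < J) (hN : 4 * (J : ℝ) ^ 2 * ρ⁻¹ ^ J + 1 ≤ N) :
    (kMass μ C * ρ ^ J) ^ 2 ≤
      2 * (kCorr μ κ C * (Fintype.card T : ℝ) ^
        ((1 - 2 * lam / c * (1 - lamMax μ s t w / (2 * c))) ^ (m * J) : ℝ)) := by
  set u : T × L → ℝ := us μ with hu
  have hu0 : ∀ p, 0 ≤ u p := us_nonneg μ
  have htr : (XM u C).trace = kMass μ C := by
    unfold Matrix.trace kMass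
    rw [Fintype.sum_prod_type]
    refine Finset.sum_congr rfl fun x _ => ?_
    rw [Finset.mul_sum]
    refine Finset.sum_congr rfl fun a _ => ?_
    rw [Matrix.diag_apply]
    show √(μ x) * √(μ x) * C (x, a) (x, a) = _
    rw [Real.mul_self_sqrt (hμ x).le]
  have hcorr : ∑ p, ∑ q, XM u C p q ^ 2 / κ q = kCorr μ κ C := by
    unfold kCorr
    rw [Fintype.sum_prod_type]
    refine Finset.sum_congr rfl fun x _ => ?_
    simp only [Fintype.sum_prod_type]
    rw [Finset.sum_comm]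
    refine Finset.sum_congr rfl fun y _ => ?_
    simp only [Finset.mul_sum]
    refine Finset.sum_congr rfl fun a _ => Finset.sum_congr rfl fun b _ => ?_
    show (√(μ x) * √(μ y) * C (x, a) (y, b)) ^ 2 / κ (y, b) = _
    rw [mul_pow, mul_pow, Real.sq_sqrt (hμ x).le, Real.sq_sqrt (hμ y).le]
    ring
  have hM := walkL_isSymm μ s t σ w c
  have hM0 := walkL_nonneg μ s t σ w hμ hw hc0 hc
  have hMu := walkL_mulVec μ hμ s t σ w c
  set M : Matrix (T × L) (T × L) ℝ := walkL μ s t σ w c with hMdef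
  -- the pseudo-metric along one step
  have hone : (XM u dl * M).trace = 2 / c * dEnergy s t σ w dl := by
    have h1 := trace_mul_lapL μ s t σ w hμ dl hdl (XM u dl) (fun _ _ => rfl)
    have h2 : (XM u dl).trace = 0 := by
      unfold Matrix.trace
      refine Finset.sum_eq_zero fun p _ => ?_
      rw [Matrix.diag_apply]
      show u p * u p * dl p p = 0
      rw [hdl0, mul_zero]
    rw [hMdef]
    unfold walkL
    rw [Matrix.mul_sub, Matrix.mul_one, Matrix.mul_smul, Matrix.trace_sub, Matrix.trace_smul,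
      h1, h2, smul_eq_mul, zero_sub]
    unfold kEnergy dEnergy
    have h3 : ∑ e, w e * ∑ a, (dl (s e, a) (s e, a) + dl (t e, σ e a) (t e, σ e a) -
        2 * dl (s e, a) (t e, σ e a)) = -(2 * ∑ e, w e * ∑ a, dl (s e, a) (t e, σ e a)) := by
      rw [Finset.mul_sum, ← Finset.sum_neg_distrib]
      refine Finset.sum_congr rfl fun e _ => ?_
      have h4 : ∑ a, (dl (s e, a) (s e, a) + dl (t e, σ e a) (t e, σ e a) -
        2 * dl (s e, a) (t e, σ e a)) = -(2 * ∑ a, dl (s e, a) (t e, σ e a)) := by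
        rw [Finset.mul_sum, ← Finset.sum_neg_distrib]
        refine Finset.sum_congr rfl fun a _ => ?_
        rw [hdl0, hdl0]
        ring
      rw [h4]
      ring
    rw [h3]
    field_simp
  obtain ⟨hA, hA0, hAu, hAdl⟩ := trace_pow_le hu0 hdl htri hdl0 hM hM0 hMu m
  have hbase : ρ * (XM u C).trace ≤ (XM u C * M ^ m).trace := by
    have h1 := trace_ge hu0 hCd hA hA0 hAu
    rw [hone] at hAdl
    have h2 : (XM u dl * M ^ m).trace / 2 ≤ (1 - ρ) * kMass μ C := by
      have h3 : (m : ℝ) * (2 / c * dEnergy s t σ w dl) ≤ 2 * ((1 - ρ) * kMass μ C) := by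
        have h4 : (m : ℝ) * (2 / c * dEnergy s t σ w dl) =
            2 * (m * dEnergy s t σ w dl) / c := by ring
        rw [h4, div_le_iff₀ hc0]
        linarith
      linarith
    rw [htr] at h1 ⊢
    linarith
  have h1 := local_moment hpsd hsym hu0 hA hA0 hAu (by rw [htr]; exact hΦ) hρ hρ1 hbase hJ hJ0 hN
  rw [← pow_mul, htr] at h1
  have hκX : ∀ p q, κ q = 0 → XM u C p q = 0 := by
    intro p q hq0
    show u p * u q * C p q = 0
    rw [hκC p q hq0, mul_zero]
  have h2 := frob hM hκ0 hκX (m * J)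
  have h3 := lift_pow hM0 (walkL_row μ s t σ w c) hκ0 hκ1 (2 * (m * J))
  have h4 := trace_walk_le μ s t w lam hμ hμ1 hw hlam hnash hc0 hc hc2 (m * J)
  have hk0 : 0 ≤ kCorr μ κ C := by
    unfold kCorr
    exact Finset.sum_nonneg fun x _ => Finset.sum_nonneg fun y _ =>
      mul_nonneg (mul_pos (hμ x) (hμ y)).le (Finset.sum_nonneg fun a _ =>
        Finset.sum_nonneg fun b _ => div_nonneg (sq_nonneg _) (hκ0 _))
  rw [hcorr] at h2
  have h5 : (3 / 4 * (kMass μ C * ρ ^ J)) ^ 2 ≤ kCorr μ κ C * (Fintype.card T : ℝ) ^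
        ((1 - 2 * lam / c * (1 - lamMax μ s t w / (2 * c))) ^ (m * J) : ℝ) := by
    calc (3 / 4 * (kMass μ C * ρ ^ J)) ^ 2 ≤ (XM u C * M ^ (m * J)).trace ^ 2 :=
          pow_le_pow_left₀ (by positivity) h1 2
      _ ≤ _ := h2
      _ ≤ kCorr μ κ C * (walk μ s t w c ^ (2 * (m * J))).trace :=
          mul_le_mul_of_nonneg_left h3 hk0
      _ ≤ _ := mul_le_mul_of_nonneg_left h4 hk0
  nlinarith [sq_nonneg (kMass μ C * ρ ^ J)]

/-- `exp (-(z + z ^ 2)) ≤ 1 - z` for `0 ≤ z ≤ 1 / 2` -/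
theorem exp_neg_le {z : ℝ} (hz : 0 ≤ z) (hz2 : z ≤ 1 / 2) :
    Real.exp (-(z + z ^ 2)) ≤ 1 - z := by
  have h1 := Real.quadratic_le_exp_of_nonneg (x := z + z ^ 2) (by positivity)
  rw [Real.exp_neg, inv_le_comm₀ (Real.exp_pos _) (by linarith)]
  refine le_trans ?_ h1
  rw [inv_le_iff_one_le_mul₀ (by linarith)]
  have h2 : 0 ≤ z ^ 2 := sq_nonneg z
  have h3 : 0 ≤ z ^ 3 := by positivity
  have h4 : 0 ≤ z ^ 2 * (1 / 2 - z) := mul_nonneg h2 (by linarith)
  have h5 : 0 ≤ z ^ 3 * (1 / 2 - z) := mul_nonneg h3 (by linarith)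
  nlinarith [mul_nonneg h3 (by linarith : (0 : ℝ) ≤ 1 / 2 - z), mul_nonneg h3 h2]

/-- the number of steps -/
noncomputable def steps (Y : ℝ) : ℕ := 2 * (⌈Y ^ 2 + Y⌉₊ + 1)

theorem steps_pos (Y : ℝ) : 0 < steps Y := by unfold steps; omega

theorem steps_even (Y : ℝ) : Even (steps Y) := ⟨⌈Y ^ 2 + Y⌉₊ + 1, by unfold steps; ring⟩

theorem le_steps (Y : ℝ) : 2 * (Y ^ 2 + Y) + 2 ≤ (steps Y : ℝ) := by
  unfold steps
  push_cast
  have := Nat.le_ceil (Y ^ 2 + Y)
  linarith

theorem steps_le {Y : ℝ} (hY : 0 ≤ Y) : (steps Y : ℝ) ≤ 2 * (Y ^ 2 + Y) + 4 := by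
  unfold steps
  push_cast
  have := Nat.ceil_lt_add_one (a := Y ^ 2 + Y) (by positivity)
  linarith

theorem kern_bound {T ι L : Type} [Fintype T] [DecidableEq T] [Nonempty T] [Fintype ι]
    [Fintype L] [DecidableEq L]
    (μ : T → ℝ) (s t : ι → T) (σ : ι → Equiv.Perm L) (w : ι → ℝ) (lam : ℝ)
    (hμ : ∀ x, 0 < μ x) (hμ1 : ∑ x, μ x = 1) (hw : ∀ e, 0 ≤ w e) (hlam : 0 ≤ lam)
    (hnash : ∀ g : T → ℝ, (∀ x, 0 ≤ g x) → ∑ x, μ x * g x = 1 →
      lam * ((∑ x, μ x * g x ^ 2) * Real.log (∑ x, μ x * g x ^ 2)) ≤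
        ∑ e, w e * (g (s e) - g (t e)) ^ 2)
    (C : T × L → T × L → ℝ) (hsym : ∀ p q, C p q = C q p) {N : ℕ}
    (hpsd : LocPSD (N + N) C) (hΦ : 0 < kMass μ C)
    (dl : T × L → T × L → ℝ) (hdl : ∀ p q, dl p q = dl q p)
    (htri : ∀ p q r, dl p r ≤ dl p q + dl q r) (hdl0 : ∀ p, dl p p = 0)
    (hCd : ∀ p q, C p p + C q q - dl p q ≤ 2 * C p q)
    {κ : T × L → ℝ} (hκ0 : ∀ q, 0 ≤ κ q) (hκ1 : ∀ x, ∑ a, κ (x, a) = 1)
    (hκC : ∀ p q, κ q = 0 → C p q = 0)
    {T0 η : ℝ} (hT0 : 0 ≤ T0) (hη : 0 ≤ η) (hen : dEnergy s t σ w dl ≤ η * kMass μ C)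
    (hN : 4 * (steps (T0 * η) : ℝ) ^ 2 * Real.exp (T0 * η + 1 / 2) + 1 ≤ N) :
    kMass μ C ^ 2 * Real.exp (-(2 * (T0 * η) + 1)) ≤
      2 * (kCorr μ κ C * (Fintype.card T : ℝ) ^ Real.exp (-(2 * lam * T0))) := by
  have hk0 : 0 ≤ kCorr μ κ C := by
    unfold kCorr
    exact Finset.sum_nonneg fun x _ => Finset.sum_nonneg fun y _ =>
      mul_nonneg (mul_pos (hμ x) (hμ y)).le (Finset.sum_nonneg fun a _ =>
        Finset.sum_nonneg fun b _ => div_nonneg (sq_nonneg _) (hκ0 _))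
  rcases hT0.eq_or_lt with hT | hT
  · -- the case T0 = 0
    subst hT
    have hκX : ∀ p q, κ q = 0 → XM (us μ : T × L → ℝ) C p q = 0 := by
      intro p q hq0
      show us μ p * us μ q * C p q = 0
      rw [hκC p q hq0, mul_zero]
    have htr : (XM (us μ : T × L → ℝ) C).trace = kMass μ C := by
      unfold Matrix.trace kMass
      rw [Fintype.sum_prod_type]
      refine Finset.sum_congr rfl fun x _ => ?_
      rw [Finset.mul_sum]
      refine Finset.sum_congr rfl fun a _ => ?_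
      rw [Matrix.diag_apply]
      show √(μ x) * √(μ x) * C (x, a) (x, a) = _
      rw [Real.mul_self_sqrt (hμ x).le]
    have hcorr : ∑ p, ∑ q, XM (us μ : T × L → ℝ) C p q ^ 2 / κ q = kCorr μ κ C := by
      unfold kCorr
      rw [Fintype.sum_prod_type]
      refine Finset.sum_congr rfl fun x _ => ?_
      simp only [Fintype.sum_prod_type]
      rw [Finset.sum_comm]
      refine Finset.sum_congr rfl fun y _ => ?_
      simp only [Finset.mul_sum]
      refine Finset.sum_congr rfl fun a _ => Finset.sum_congr rfl fun b _ => ?_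
      show (√(μ x) * √(μ y) * C (x, a) (y, b)) ^ 2 / κ (y, b) = _
      rw [mul_pow, mul_pow, Real.sq_sqrt (hμ x).le, Real.sq_sqrt (hμ y).le]
      ring
    have h2 := frob (X := XM (us μ : T × L → ℝ) C) (walkL_isSymm μ s t σ w 1) hκ0 hκX 0
    rw [hcorr, pow_zero, Matrix.mul_one, htr] at h2
    have h3 : ∑ q : T × L, κ q * (1 : Matrix (T × L) (T × L) ℝ) q q = Fintype.card T := by
      simp only [Matrix.one_apply_eq, mul_one]
      rw [Fintype.sum_prod_type]
      simp only [hκ1]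
      simp
    rw [h3] at h2
    have h4 : kMass μ C ^ 2 * Real.exp (-(2 * (0 * η) + 1)) ≤ kMass μ C ^ 2 * 1 :=
      mul_le_mul_of_nonneg_left (Real.exp_le_one_iff.2 (by linarith)) (sq_nonneg _)
    have h5 : (Fintype.card T : ℝ) ^ Real.exp (-(2 * lam * 0)) = Fintype.card T := by
      rw [mul_zero, neg_zero, Real.exp_zero, Real.rpow_one]
    rw [h5]
    have h6 : 0 ≤ kCorr μ κ C * (Fintype.card T : ℝ) := by positivity
    linarith
  · -- the limit
    set Φ := kMass μ C with hΦdef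
    set Λ := lamMax μ s t w with hΛdef
    set Y : ℝ := T0 * η with hY
    have hY0 : 0 ≤ Y := by positivity
    set J : ℕ := steps Y with hJdef
    have hJ0 : 0 < J := steps_pos Y
    have hJr : (0 : ℝ) < J := by exact_mod_cast hJ0
    have hJ1 : 2 * (Y ^ 2 + Y) + 2 ≤ (J : ℝ) := le_steps Y
    have hJeven : Even J := steps_even Y
    set z : ℝ := Y / J with hz
    have hz0 : 0 ≤ z := by positivity
    have hzJ : (J : ℝ) * z = Y := by rw [hz]; field_simp
    have hz2 : z ≤ 1 / 2 := by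
      rw [hz, div_le_iff₀ hJr]
      nlinarith [sq_nonneg Y]
    set ρ : ℝ := 1 - z with hρ
    have hρ0 : 0 < ρ := by linarith
    have hρ1 : ρ ≤ 1 := by linarith
    have hρJ : Real.exp (-(Y + 1 / 2)) ≤ ρ ^ J := by
      have h1 := pow_le_pow_left₀ (Real.exp_pos _).le (exp_neg_le hz0 hz2) J
      refine le_trans ?_ h1
      rw [← Real.exp_nat_mul]
      refine Real.exp_le_exp.2 ?_
      have h2 : (J : ℝ) * -(z + z ^ 2) = -(Y + Y * z) := by
        have : (J : ℝ) * -(z + z ^ 2) = -((J : ℝ) * z + (J : ℝ) * z * z) := by ring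
        rw [this, hzJ]
      rw [h2]
      have h3 : Y * z ≤ 1 / 2 := by
        rw [hz, mul_div_assoc', div_le_iff₀ hJr]
        nlinarith [sq_nonneg Y]
      linarith
    have hρinv : ρ⁻¹ ^ J ≤ Real.exp (Y + 1 / 2) := by
      rw [inv_pow]
      have h1 := inv_anti₀ (Real.exp_pos _) hρJ
      rw [Real.exp_neg, inv_inv] at h1
      exact h1
    have hN' : 4 * (J : ℝ) ^ 2 * ρ⁻¹ ^ J + 1 ≤ N := by
      refine le_trans ?_ hN
      have := mul_le_mul_of_nonneg_left hρinv (by positivity : 0 ≤ 4 * (J : ℝ) ^ 2)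
      linarith
    have hcard : (0 : ℝ) < Fintype.card T := by
      exact_mod_cast Fintype.card_pos
    -- the sequence
    have hinv : Filter.Tendsto (fun n : ℕ => ((n : ℝ))⁻¹) Filter.atTop (nhds 0) :=
      tendsto_inv_atTop_nhds_zero_nat
    have hg2 : Filter.Tendsto (fun n : ℕ => (n : ℝ) *
        (-(2 * lam * T0 * (n : ℝ)⁻¹ * (1 - Λ * T0 / 2 * (n : ℝ)⁻¹))))
        Filter.atTop (nhds (-(2 * lam * T0))) := by
      have h1 : Filter.Tendsto (fun n : ℕ => -(2 * lam * T0) * (1 - Λ * T0 / 2 * (n : ℝ)⁻¹))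
          Filter.atTop (nhds (-(2 * lam * T0) * (1 - Λ * T0 / 2 * 0))) :=
        (tendsto_const_nhds.sub (hinv.const_mul _)).const_mul _
      rw [mul_zero, sub_zero, mul_one] at h1
      refine h1.congr' ?_
      filter_upwards [Filter.eventually_gt_atTop 0] with n hn
      have hn' : (n : ℝ) ≠ 0 := by exact_mod_cast hn.ne'
      field_simp
    have hθ := Real.tendsto_one_add_pow_exp_of_tendsto hg2
    have hR : Filter.Tendsto (fun n : ℕ => 2 * (kCorr μ κ C * (Fintype.card T : ℝ) ^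
        ((1 + -(2 * lam * T0 * (n : ℝ)⁻¹ * (1 - Λ * T0 / 2 * (n : ℝ)⁻¹))) ^ n : ℝ)))
        Filter.atTop (nhds (2 * (kCorr μ κ C *
          (Fintype.card T : ℝ) ^ Real.exp (-(2 * lam * T0))))) := by
      refine Filter.Tendsto.const_mul _ (Filter.Tendsto.const_mul _ ?_)
      exact (tendsto_const_nhds.rpow hθ (Or.inl hcard.ne'))
    have hmul : Filter.Tendsto (fun m : ℕ => m * J) Filter.atTop (Filter.atTop : Filter ℕ) :=
      Filter.tendsto_id.atTop_mul_const' hJ0
    have hc : Filter.Tendsto (fun m : ℕ => (((m * J : ℕ) : ℕ) : ℝ) / T0) Filter.atTop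
        Filter.atTop :=
      (tendsto_natCast_atTop_atTop.comp hmul).atTop_div_const hT
    have hev : ∀ᶠ m : ℕ in Filter.atTop, (Φ * ρ ^ J) ^ 2 ≤
        2 * (kCorr μ κ C * (Fintype.card T : ℝ) ^
        ((1 + -(2 * lam * T0 * ((m * J : ℕ) : ℝ)⁻¹ *
          (1 - Λ * T0 / 2 * ((m * J : ℕ) : ℝ)⁻¹))) ^ (m * J) : ℝ)) := by
      filter_upwards [hc.eventually_ge_atTop Λ, hc.eventually_ge_atTop (2 * lam),
        hc.eventually_gt_atTop 0, Filter.eventually_gt_atTop 0] with m h1 h2 h4 hm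
      have hmr : (0 : ℝ) < m := by exact_mod_cast hm
      have hen' : (m : ℝ) * dEnergy s t σ w dl ≤
          (((m * J : ℕ) : ℕ) : ℝ) / T0 * ((1 - ρ) * Φ) := by
        have h5 : (((m * J : ℕ) : ℕ) : ℝ) / T0 * ((1 - ρ) * Φ) = m * (η * Φ) := by
          have h6 : 1 - ρ = z := by rw [hρ]; ring
          rw [h6]
          push_cast
          calc (m : ℝ) * J / T0 * (z * Φ) = m * ((J : ℝ) * z) / T0 * Φ := by ring
            _ = m * (T0 * η) / T0 * Φ := by rw [hzJ]
            _ = m * (η * Φ) := by field_simp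
        rw [h5]
        exact mul_le_mul_of_nonneg_left hen hmr.le
      have h := pre_bound μ s t σ w lam hμ hμ1 hw hlam hnash C hsym hpsd hΦ dl hdl htri hdl0 hCd
        hκ0 hκ1 hκC h4 h1 h2 m hρ0 hρ1 hen' hJeven hJ0 hN'
      have hmJ : ((m * J : ℕ) : ℝ) ≠ 0 := by
        have : 0 < m * J := Nat.mul_pos hm hJ0
        exact_mod_cast this.ne'
      have e2 : 1 + -(2 * lam * T0 * ((m * J : ℕ) : ℝ)⁻¹ *
          (1 - Λ * T0 / 2 * ((m * J : ℕ) : ℝ)⁻¹)) =
          1 - 2 * lam / (((m * J : ℕ) : ℝ) / T0) *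
            (1 - Λ / (2 * (((m * J : ℕ) : ℝ) / T0))) := by
        have hT' := hT.ne'
        field_simp
        try ring
      rw [e2]
      exact h
    have hfin := le_of_tendsto_of_tendsto tendsto_const_nhds (hR.comp hmul) hev
    refine le_trans ?_ hfin
    rw [mul_pow]
    refine mul_le_mul_of_nonneg_left ?_ (sq_nonneg _)
    have h1 := pow_le_pow_left₀ (Real.exp_pos _).le hρJ 2
    refine le_trans (le_of_eq ?_) h1
    rw [← Real.exp_nat_mul]
    congr 1
    push_cast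
    ring

end Pool.Agent.Lib.P325h
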