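import Pool.Agent.Lib.P325u.Part
import Pool.Agent.Lib.P325h.Kern
import Pool.Agent.Lib.P325h.Cond

/-!
One part of the soft decomposition (Sherali-Adams version of `P325u.Part`).
-/

open scoped BigOperators

namespace Pool.Agent.Lib.P325h

open Pool.Agent.Lib.P325s (kMass kCorr kEnergy)
open Pool.Agent.Lib.P325u (IsPart cov ind avVar sat ind_mul_self ind_nonneg sum_ind cov_sub_sub
  cov_comm sum_subtype_eq nash_restrict)

variable {V Ω ι : Type} [Fintype V] [DecidableEq V] [Fintype Ω] [DecidableEq Ω] [Fintype ι]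
  {E : ((V → Ω) → ℝ) →ₗ[ℝ] ℝ} {r : ℕ}

/-- the pseudo-probability that exactly one of the events `x = a`, `y = b` happens -/
noncomputable def dl (E : ((V → Ω) → ℝ) →ₗ[ℝ] ℝ) (p q : V × Ω) : ℝ :=
  E (((ind p.1 p.2 : (V → Ω) → ℝ) - ind q.1 q.2) * (ind p.1 p.2 - ind q.1 q.2))

theorem dl_symm (p q : V × Ω) : dl E p q = dl E q p := by
  unfold dl
  congr 1
  funext σ
  simp only [Pi.mul_apply, Pi.sub_apply]
  ring

theorem dl_self (p : V × Ω) : dl E p p = 0 := by
  unfold dl
  rw [sub_self, mul_zero, map_zero]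

theorem dl_tri (hE : IsLocalExpectation r E) (hr : 3 ≤ r) (p q z : V × Ω) :
    dl E p z ≤ dl E p q + dl E q z := by
  unfold dl
  rw [← map_add, ← sub_nonneg, ← map_sub]
  refine hE.nonneg _ ({p.1, q.1, z.1} : Finset V) ((Finset.card_le_three).trans hr) ?_ ?_
  · intro σ σ' h
    have h1 : σ p.1 = σ' p.1 := h p.1 (by simp)
    have h2 : σ q.1 = σ' q.1 := h q.1 (by simp)
    have h3 : σ z.1 = σ' z.1 := h z.1 (by simp)
    simp only [Pi.mul_apply, Pi.sub_apply, Pi.add_apply, ind, h1, h2, h3]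
  · intro σ
    simp only [Pi.mul_apply, Pi.sub_apply, Pi.add_apply, ind]
    split_ifs <;> norm_num

theorem dl_cov (hE : IsLocalExpectation r E) {κ : Type} [Fintype κ] {P : κ → (V → Ω) → ℝ}
    {D : Finset V} (hP : IsPart P D) (hD : D.card ≤ r) (p q : V × Ω) :
    cov E P (ind p.1 p.2) (ind p.1 p.2) + cov E P (ind q.1 q.2) (ind q.1 q.2) - dl E p q ≤
      2 * cov E P (ind p.1 p.2) (ind q.1 q.2) := by
  have h1 := cov_sub_sub (E := E) (P := P) (ind p.1 p.2) (ind q.1 q.2)
  have h2 := cov_self_le hE hP hD (ind p.1 p.2 - ind q.1 q.2)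
  unfold dl
  linarith

theorem sum_dl (hE : IsLocalExpectation r E) (x y : V) (g : Equiv.Perm Ω) :
    ∑ a, dl E (x, a) (y, g a) = 2 * (1 - E (sat x y g)) := by
  have h1 : ∀ a, dl E (x, a) (y, g a) =
      E (ind x a) + E (ind y (g a)) - 2 * E (ind x a * ind y (g a)) := by
    intro a
    have h2 : ((ind x a : (V → Ω) → ℝ) - ind y (g a)) * (ind x a - ind y (g a)) =
        ind x a + ind y (g a) - (2 : ℝ) • (ind x a * ind y (g a)) := by
      have e1 := ind_mul_self (V := V) x a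
      have e2 := ind_mul_self (V := V) y (g a)
      funext σ
      have e3 := congrFun e1 σ
      have e4 := congrFun e2 σ
      simp only [Pi.mul_apply, Pi.sub_apply, Pi.add_apply, Pi.smul_apply, smul_eq_mul] at e3 e4 ⊢
      calc (ind x a σ - ind y (g a) σ) * (ind x a σ - ind y (g a) σ) =
          ind x a σ * ind x a σ + ind y (g a) σ * ind y (g a) σ -
          2 * (ind x a σ * ind y (g a) σ) := by ring
        _ = _ := by rw [e3, e4]
    unfold dl
    simp only
    rw [h2, map_sub, map_add, map_smul, smul_eq_mul]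
  rw [Finset.sum_congr rfl fun a _ => h1 a, Finset.sum_sub_distrib, Finset.sum_add_distrib,
    sum_E_ind hE, ← Finset.mul_sum]
  have h3 : ∑ a, E (ind y (g a)) = 1 := by
    rw [Equiv.sum_comp g (fun b => E (ind y b))]
    exact sum_E_ind hE y
  have h4 : ∑ a, E (ind x a * ind y (g a)) = E (sat x y g) := by
    rw [← map_sum]
    congr 1
    funext σ
    rw [Finset.sum_apply]
    simp only [Pi.mul_apply]
    unfold ind sat
    rw [Finset.sum_eq_single (σ x)]
    · simp only [if_true, one_mul]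
      by_cases h : σ y = g (σ x)
      · rw [if_pos h, if_pos h.symm]
      · rw [if_neg h, if_neg (fun h' => h h'.symm)]
    · intro b _ hb
      rw [if_neg (fun h => hb h.symm), zero_mul]
    · intro h
      exact absurd (Finset.mem_univ _) h
  rw [h3, h4]
  ring

/-- Conditioning on the labels of at most `R` vertices makes the average variance of one part
small. -/
theorem part_var (hE : IsLocalExpectation r E) (s t : ι → V) (perm : ι → Equiv.Perm Ω)
    (W : ι → ℝ) (hW : ∀ e, 0 ≤ W e) (p : V → ℝ) (hp : ∀ x, 0 ≤ p x)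
    (hWp : ∀ e, W e ≠ 0 → 0 < p (s e) ∧ 0 < p (t e)) (ρ : V → ℝ) (hρ : ∀ x, 0 ≤ ρ x)
    (lam m : ℝ) (hlam : 0 ≤ lam) (hm : 0 < m) (hmdef : ∑ x, p x * ρ x = m)
    (hnash : ∀ g : V → ℝ, (∀ x, 0 ≤ g x) → ∑ x, p x * ρ x * g x = ∑ x, p x * ρ x →
      lam * ((∑ x, p x * ρ x * g x ^ 2) *
        Real.log ((∑ x, p x * ρ x * g x ^ 2) / ∑ x, p x * ρ x)) ≤
      ∑ e, W e * (√(ρ (s e) * ρ (t e)) * (g (s e) - g (t e)) ^ 2))
    (τ η T0 : ℝ) (hτ : 0 < τ) (hη : 0 < η) (hT0 : 0 ≤ T0) (R N : ℕ) (hN0 : 1 ≤ N)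
    (hRr : R + (N + N) ≤ r) (hr3 : 3 ≤ r)
    (hN : 4 * (steps (T0 * η) : ℝ) ^ 2 * Real.exp (T0 * η + 1 / 2) + 1 ≤ N)
    (hR : 2 * Real.exp 1 * ((Fintype.card V : ℝ) ^ (Real.exp (-(2 * lam * T0))) *
      Real.exp (2 * T0 * η)) ≤ τ ^ 2 * R) :
    ∃ (κ : Type) (_ : Fintype κ) (P : κ → (V → Ω) → ℝ) (D : Finset V),
      IsPart P D ∧ D.card ≤ R ∧ avVar E P (fun x => p x * ρ x / m) ≤
        max τ (2 * (∑ e, W e * (√(ρ (s e) * ρ (t e)) *
          (1 - E (sat (s e) (t e) (perm e))))) / (m * η)) := by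
  classical
  set d := ∑ e, W e * (√(ρ (s e) * ρ (t e)) * (1 - E (sat (s e) (t e) (perm e)))) with hd
  set M := max τ (2 * d / (m * η)) with hM
  set n : ℝ := (Fintype.card V : ℝ) with hn
  have hVne : Nonempty V := by
    by_contra hne
    rw [not_nonempty_iff] at hne
    rw [← hmdef] at hm
    simp at hm
  have hn1 : 1 ≤ n := by
    rw [hn]
    exact_mod_cast Fintype.card_pos
  set nθ := n ^ (Real.exp (-(2 * lam * T0))) with hnθ
  have hnθ0 : 0 < nθ := Real.rpow_pos_of_pos (by linarith) _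
  set δ := τ ^ 2 * Real.exp (-(2 * (T0 * η) + 1)) / (2 * nθ) with hδ
  have hμ0 : ∀ x, 0 ≤ p x * ρ x / m := fun x => div_nonneg (mul_nonneg (hp x) (hρ x)) hm.le
  apply loop hE (fun x => p x * ρ x / m) hμ0 (by rw [← Finset.sum_div, hmdef, div_self hm.ne'])
    M δ R _ (by omega)
  · intro κ _ P D hP hD hMP
    have hΦτ : τ < avVar E P (fun x => p x * ρ x / m) := lt_of_le_of_lt (le_max_left _ _) hMP
    have hΦd : 2 * d / (m * η) < avVar E P (fun x => p x * ρ x / m) :=
      lt_of_le_of_lt (le_max_right _ _) hMP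
    set Φ := avVar E P (fun x => p x * ρ x / m) with hΦ
    -- the restricted data
    let T := {x : V // 0 < p x * ρ x}
    let ι' := {e : ι // 0 < p (s e) * ρ (s e) ∧ 0 < p (t e) * ρ (t e)}
    let μ : T → ℝ := fun x => p x * ρ x / m
    let s' : ι' → T := fun e => ⟨s e, e.2.1⟩
    let t' : ι' → T := fun e => ⟨t e, e.2.2⟩
    let w' : ι' → ℝ := fun e => W e * √(ρ (s e) * ρ (t e)) / m
    let C : T × Ω → T × Ω → ℝ := fun x y => cov E P (ind x.1.1 x.2) (ind y.1.1 y.2)
    let kap : T × Ω → ℝ := fun x => E (ind x.1.1 x.2)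
    have hmul : ∀ x, ¬ 0 < p x * ρ x → p x * ρ x = 0 := fun x h =>
      le_antisymm (not_lt.1 h) (mul_nonneg (hp x) (hρ x))
    have hμpos : ∀ x, 0 < μ x := fun x => div_pos x.2 hm
    have hμ1 : ∑ x, μ x = 1 := by
      have h1 := sum_subtype_eq (fun x => 0 < p x * ρ x) (fun x => p x * ρ x / m)
        (fun x h => by rw [hmul x h, zero_div])
      rw [← h1, ← Finset.sum_div, hmdef, div_self hm.ne']
    have hTne : Nonempty T := by
      by_contra hne
      rw [not_nonempty_iff] at hne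
      have : ∑ x, μ x = 0 := by
        rw [Finset.univ_eq_empty, Finset.sum_empty]
      rw [hμ1] at this
      exact one_ne_zero this
    have hw' : ∀ e, 0 ≤ w' e := fun e =>
      div_nonneg (mul_nonneg (hW _) (Real.sqrt_nonneg _)) hm.le
    -- the mass
    have hkMass : kMass μ C = Φ := by
      rw [hΦ]
      unfold kMass avVar
      rw [sum_subtype_eq (fun x => 0 < p x * ρ x) (fun x => p x * ρ x / m *
        ∑ a, cov E P (ind x a) (ind x a)) (fun x h => by rw [hmul x h, zero_div, zero_mul])]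
    have hΦpos : 0 < kMass μ C := by rw [hkMass]; linarith
    -- the energy
    have hEn : dEnergy s' t' (fun e : ι' => perm e) w'
        (fun x y => dl E (x.1.1, x.2) (y.1.1, y.2)) ≤ 2 * d / m := by
      have h1 : dEnergy s' t' (fun e : ι' => perm e) w'
          (fun x y => dl E (x.1.1, x.2) (y.1.1, y.2)) ≤
          ∑ e : ι', w' e * (2 * (1 - E (sat (s e) (t e) (perm e)))) := by
        unfold dEnergy
        apply Finset.sum_le_sum
        intro e _
        apply mul_le_mul_of_nonneg_left _ (hw' e)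
        exact (sum_dl hE (s e) (t e) (perm e)).le
      refine h1.trans (le_of_eq ?_)
      rw [hd, sum_subtype_eq (fun e => 0 < p (s e) * ρ (s e) ∧ 0 < p (t e) * ρ (t e))
        (fun e => W e * (√(ρ (s e) * ρ (t e)) * (1 - E (sat (s e) (t e) (perm e))))),
        Finset.mul_sum, Finset.sum_div]
      swap
      · intro e he
        by_cases hWe : W e = 0
        · rw [hWe, zero_mul]
        · have h3 := hWp e hWe
          have h4 : ρ (s e) * ρ (t e) = 0 := by
            by_contra hne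
            have h5 : ρ (s e) ≠ 0 := left_ne_zero_of_mul hne
            have h6 : ρ (t e) ≠ 0 := right_ne_zero_of_mul hne
            exact he ⟨mul_pos h3.1 (lt_of_le_of_ne (hρ _) (Ne.symm h5)),
              mul_pos h3.2 (lt_of_le_of_ne (hρ _) (Ne.symm h6))⟩
          rw [h4]
          simp
      apply Finset.sum_congr rfl
      intro e _
      simp only [w']
      ring
    have hEn' : dEnergy s' t' (fun e : ι' => perm e) w'
        (fun x y => dl E (x.1.1, x.2) (y.1.1, y.2)) ≤ η * kMass μ C := by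
      have hΦ0 : 0 < Φ := by linarith
      rw [hkMass]
      rw [div_lt_iff₀ (by positivity)] at hΦd
      have : 2 * d / m ≤ η * Φ := by
        rw [div_le_iff₀ hm]
        linarith
      linarith
    -- the kernel bound
    have hkb := kern_bound μ s' t' (fun e : ι' => perm e) w' lam hμpos hμ1 hw' hlam
      (fun g hg hg1 => nash_restrict s t W p ρ hρ hWp hp lam m hm hmdef hnash g hg hg1)
      C (fun _ _ => cov_comm _ _)
      (N := N) (fun i c => cov_locPSD hE hP (M := N + N) (by omega)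
        (fun k => ((i k).1.1, (i k).2)) c)
      hΦpos (fun x y => dl E (x.1.1, x.2) (y.1.1, y.2)) (fun _ _ => dl_symm _ _)
      (fun _ _ _ => dl_tri hE hr3 _ _ _) (fun _ => dl_self _)
      (fun p q => dl_cov hE hP (by omega) (p.1.1, p.2) (q.1.1, q.2))
      (κ := kap) (fun q => E_ind_nonneg hE (by omega) q.1.1 q.2)
      (fun x => sum_E_ind hE x.1)
      (fun q q' h => cov_null hE hP (by omega) q.1.1 q'.1.1 q.2 q'.2 h) hT0 hη.le hEn' hN
    rw [hkMass] at hkb
    -- the size of T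
    have hcard : (Fintype.card T : ℝ) ^ Real.exp (-(2 * lam * T0)) ≤ nθ := by
      rw [hnθ]
      apply Real.rpow_le_rpow (by positivity) _ (Real.exp_nonneg _)
      rw [hn]
      exact_mod_cast Fintype.card_subtype_le _
    have hkc0 : 0 ≤ kCorr μ kap C := by
      unfold kCorr
      apply Finset.sum_nonneg
      intro x _
      apply Finset.sum_nonneg
      intro y _
      apply mul_nonneg (mul_nonneg (hμpos x).le (hμpos y).le)
      apply Finset.sum_nonneg
      intro a _
      apply Finset.sum_nonneg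
      intro b _
      exact div_nonneg (sq_nonneg _) (E_ind_nonneg hE (by omega) _ _)
    have hmain : δ ≤ kCorr μ kap C := by
      rw [hδ, div_le_iff₀ (by positivity)]
      have h1 : τ ^ 2 * Real.exp (-(2 * (T0 * η) + 1)) ≤
          Φ ^ 2 * Real.exp (-(2 * (T0 * η) + 1)) :=
        mul_le_mul_of_nonneg_right (pow_le_pow_left₀ hτ.le hΦτ.le 2) (Real.exp_nonneg _)
      have h2 : kCorr μ kap C * (Fintype.card T : ℝ) ^ Real.exp (-(2 * lam * T0)) ≤
          kCorr μ kap C * nθ := mul_le_mul_of_nonneg_left hcard hkc0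
      linarith
    refine hmain.trans (le_of_eq ?_)
    -- kCorr as a sum over V
    unfold kCorr
    have hx : ∀ F : V → V → ℝ, ∑ x : T, ∑ y : T, μ x * μ y * F x y =
        ∑ x, ∑ y, p x * ρ x / m * (p y * ρ y / m) * F x y := by
      intro F
      rw [sum_subtype_eq (fun x => 0 < p x * ρ x)
        (fun x => ∑ y, p x * ρ x / m * (p y * ρ y / m) * F x y)
        (fun x h => by
          apply Finset.sum_eq_zero
          intro y _
          rw [hmul x h, zero_div, zero_mul, zero_mul])]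
      apply Finset.sum_congr rfl
      intro x _
      rw [sum_subtype_eq (fun y => 0 < p y * ρ y)
        (fun y => p x * ρ x / m * (p y * ρ y / m) * F x y)
        (fun y h => by rw [hmul y h, zero_div, mul_zero, zero_mul])]
    rw [hx (fun x y => ∑ a, ∑ b, cov E P (ind x a) (ind y b) ^ 2 / E (ind y b))]
    apply Finset.sum_congr rfl
    intro x _
    rw [Finset.sum_comm]
    apply Finset.sum_congr rfl
    intro y _
    rw [Finset.mul_sum]
    apply Finset.sum_congr rfl
    intro a _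
    rw [Finset.mul_sum]
  · -- 1 - R δ ≤ M
    have h1 : 1 ≤ R * δ := by
      rw [hδ, mul_div_assoc', le_div_iff₀ (by positivity), one_mul]
      have h2 : Real.exp (-(2 * (T0 * η) + 1)) = (Real.exp 1 * Real.exp (2 * T0 * η))⁻¹ := by
        rw [← Real.exp_add, ← Real.exp_neg]
        congr 1
        ring
      rw [h2]
      have h3 : 0 < Real.exp 1 * Real.exp (2 * T0 * η) := by positivity
      have h4 := Real.exp_pos 1
      have h5 := Real.exp_pos (2 * T0 * η)
      calc 2 * nθ = 2 * Real.exp 1 * (nθ * Real.exp (2 * T0 * η)) *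
            (Real.exp 1 * Real.exp (2 * T0 * η))⁻¹ := by
            field_simp
        _ ≤ τ ^ 2 * R * (Real.exp 1 * Real.exp (2 * T0 * η))⁻¹ :=
            mul_le_mul_of_nonneg_right hR (by positivity)
        _ = R * (τ ^ 2 * (Real.exp 1 * Real.exp (2 * T0 * η))⁻¹) := by ring
    have h2 : 0 < M := lt_of_lt_of_le hτ (le_max_left _ _)
    linarith

/-- The oracle for one part. -/
theorem part_oracle [Nonempty Ω] (hE : IsLocalExpectation r E) (s t : ι → V)
    (perm : ι → Equiv.Perm Ω)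
    (W : ι → ℝ) (hW : ∀ e, 0 ≤ W e) (p : V → ℝ) (hp : ∀ x, 0 ≤ p x)
    (hWp : ∀ e, W e ≠ 0 → 0 < p (s e) ∧ 0 < p (t e)) (ρ : V → ℝ) (hρ : ∀ x, 0 ≤ ρ x)
    (lam : ℝ) (hlam : 0 ≤ lam)
    (hnash : ∀ g : V → ℝ, (∀ x, 0 ≤ g x) → ∑ x, p x * ρ x * g x = ∑ x, p x * ρ x →
      lam * ((∑ x, p x * ρ x * g x ^ 2) *
        Real.log ((∑ x, p x * ρ x * g x ^ 2) / ∑ x, p x * ρ x)) ≤
      ∑ e, W e * (√(ρ (s e) * ρ (t e)) * (g (s e) - g (t e)) ^ 2))
    (τ η T0 : ℝ) (hτ : 0 < τ) (hη : 0 < η) (hT0 : 0 ≤ T0) (R N : ℕ) (hN0 : 1 ≤ N)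
    (hRr : R + (N + N) ≤ r) (hr3 : 3 ≤ r)
    (hN : 4 * (steps (T0 * η) : ℝ) ^ 2 * Real.exp (T0 * η + 1 / 2) + 1 ≤ N)
    (hR : 2 * Real.exp 1 * ((Fintype.card V : ℝ) ^ (Real.exp (-(2 * lam * T0))) *
      Real.exp (2 * T0 * η)) ≤ τ ^ 2 * R) (A₁ A₂ : ℝ) (hA₁ : 0 ≤ A₁) (hA₂ : 0 ≤ A₂) :
    ∃ (ℓ : V → Ω) (P : V → ℝ) (er : ι → ℝ),
      (∀ x, 0 ≤ P x ∧ P x ≤ 1) ∧ (∀ e, 0 ≤ er e) ∧ (∀ e, |P (s e) - P (t e)| ≤ er e) ∧
      (∀ e, perm e (ℓ (s e)) ≠ ℓ (t e) → P (s e) + P (t e) ≤ 1 + er e) ∧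
      A₁ * ∑ e, W e * (min (ρ (s e)) (ρ (t e)) * er e) +
        A₂ * ∑ x, p x * (ρ x * (1 - P x)) ≤
      A₁ * ∑ e, W e * (min (ρ (s e)) (ρ (t e)) * (1 - E (sat (s e) (t e) (perm e)))) +
        A₂ * ((∑ x, p x * ρ x) *
          max τ (2 * (∑ e, W e * (√(ρ (s e) * ρ (t e)) *
            (1 - E (sat (s e) (t e) (perm e))))) / ((∑ x, p x * ρ x) * η))) := by
  classical
  rcases (Finset.sum_nonneg (fun x _ => mul_nonneg (hp x) (hρ x)) :
    0 ≤ ∑ x, p x * ρ x).lt_or_eq with hm | hm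
  · set m := ∑ x, p x * ρ x with hmdef
    obtain ⟨κ, hκ, P, D, hP, hD, hΦ⟩ := part_var hE s t perm W hW p hp hWp ρ hρ lam m hlam hm
      hmdef.symm hnash τ η T0 hτ hη hT0 R N hN0 hRr hr3 hN hR
    obtain ⟨ℓ, Q, er, h1, h2, h3, h4, h5⟩ := round_part hE hP (by omega) s t perm
      (fun e => A₁ * (W e * min (ρ (s e)) (ρ (t e))))
      (fun e => mul_nonneg hA₁ (mul_nonneg (hW e) (le_min (hρ _) (hρ _))))
      (fun x => A₂ * (p x * ρ x)) (fun x => mul_nonneg hA₂ (mul_nonneg (hp x) (hρ x)))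
    refine ⟨ℓ, Q, er, h1, h2, h3, h4, ?_⟩
    have e1 : A₁ * ∑ e, W e * (min (ρ (s e)) (ρ (t e)) * er e) +
        A₂ * ∑ x, p x * (ρ x * (1 - Q x)) =
        ∑ e, A₁ * (W e * min (ρ (s e)) (ρ (t e))) * er e +
        ∑ x, A₂ * (p x * ρ x) * (1 - Q x) := by
      rw [Finset.mul_sum, Finset.mul_sum]
      congr 1
      · exact Finset.sum_congr rfl (fun e _ => by ring)
      · exact Finset.sum_congr rfl (fun x _ => by ring)
    rw [e1]
    refine h5.trans ?_
    have e2 : ∑ e, A₁ * (W e * min (ρ (s e)) (ρ (t e))) * (1 - E (sat (s e) (t e) (perm e))) =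
        A₁ * ∑ e, W e * (min (ρ (s e)) (ρ (t e)) * (1 - E (sat (s e) (t e) (perm e)))) := by
      rw [Finset.mul_sum]
      exact Finset.sum_congr rfl (fun e _ => by ring)
    have e3 : ∑ x, A₂ * (p x * ρ x) * ∑ a, cov E P (ind x a) (ind x a) =
        A₂ * (m * avVar E P (fun x => p x * ρ x / m)) := by
      unfold avVar
      rw [Finset.mul_sum, Finset.mul_sum]
      apply Finset.sum_congr rfl
      intro x _
      field_simp
    rw [e2, e3]
    have h6 := mul_le_mul_of_nonneg_left (mul_le_mul_of_nonneg_left hΦ hm.le) hA₂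
    linarith
  · have hz : ∀ x, p x * ρ x = 0 := by
      intro x
      exact (Finset.sum_eq_zero_iff_of_nonneg
        (fun x _ => mul_nonneg (hp x) (hρ x))).1 hm.symm x (Finset.mem_univ x)
    have hz' : ∀ e, W e * min (ρ (s e)) (ρ (t e)) = 0 := by
      intro e
      by_cases hWe : W e = 0
      · rw [hWe, zero_mul]
      · have h3 := hWp e hWe
        have h4 : ρ (s e) = 0 := by
          rcases mul_eq_zero.1 (hz (s e)) with h | h
          · exact absurd h h3.1.ne'
          · exact h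
        rw [h4, min_eq_left (hρ _), mul_zero]
    refine ⟨fun _ => Classical.arbitrary Ω, fun _ => 1, fun _ => 1, ?_, ?_, ?_, ?_, ?_⟩
    · intro _; exact ⟨zero_le_one, le_rfl⟩
    · intro _; exact zero_le_one
    · intro _; simp
    · intro _ _; exact le_rfl
    · have e1 : ∀ er : ι → ℝ, ∑ e, W e * (min (ρ (s e)) (ρ (t e)) * er e) = 0 := by
        intro er
        apply Finset.sum_eq_zero
        intro e _
        rw [← mul_assoc, hz', zero_mul]
      rw [e1, e1 (fun e => 1 - E (sat (s e) (t e) (perm e))), ← hm]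
      simp

end Pool.Agent.Lib.P325h
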