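import Pool.Agent.Lib.P325u.Final
import Pool.Agent.Lib.P325h.Part

/-!
The recursion (Sherali-Adams version of `P325u.Final`).
-/

open scoped BigOperators

namespace Pool.Agent.Lib.P325h

open Pool.Agent.Lib.P325s Pool.Agent.Lib.P325u
open Pool.Agent.Lib.P325u (IsPart cov ind avVar sat)

theorem sa_rec {V Ω ι : Type} [Fintype V] [DecidableEq V] [Fintype Ω] [DecidableEq Ω]
    [Nonempty Ω] [Fintype ι] [Nonempty ι] (s t : ι → V) (perm : ι → Equiv.Perm Ω) {r : ℕ}
    {E : ((V → Ω) → ℝ) →ₗ[ℝ] ℝ} (hE : IsLocalExpectation r E)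
    {ε x : ℝ} (hε : 0 < ε) (hx0 : 0 < x) (hx1 : x ≤ 1) (hn : 2 ≤ Fintype.card V) {R N : ℕ}
    (hR : 1152 * Real.exp 1 * (Fintype.card V : ℝ) ^ (x * (1 + Real.log (1 / x))) ≤ (R : ℝ))
    (hr : R + (N + N) ≤ r) (hr3 : 3 ≤ r) (hN0 : 1 ≤ N)
    (hN : 4 * (steps (x * (-Real.log x) * Real.log (Fintype.card V) / 2) : ℝ) ^ 2 *
      Real.exp (x * (-Real.log x) * Real.log (Fintype.card V) / 2 + 1 / 2) + 1 ≤ N)
    (hviol : ∑ e, 1 / (Fintype.card ι : ℝ) * (1 - E (sat (s e) (t e) (perm e))) ≤ ε)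
    (U : Finset V) :
    ∃ ℓ : V → Ω, ∑ e, (if s e ∈ U ∧ t e ∈ U then
        1 / (Fintype.card ι : ℝ) * (if perm e (ℓ (s e)) = ℓ (t e) then 0 else 1) else 0) ≤
      56 * √(ε / x) * √(∑ y ∈ U, vmeas s t y) := by
  classical
  have hVne : Nonempty V := ⟨s (Classical.arbitrary ι)⟩
  have hc : (0 : ℝ) < Fintype.card ι := by exact_mod_cast Fintype.card_pos
  have he0 : ∀ e, 0 ≤ 1 - E (sat (s e) (t e) (perm e)) := by
    intro e
    have h1 : 0 ≤ E ((fun _ => (1 : ℝ)) - sat (s e) (t e) (perm e)) := by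
      apply hE.nonneg _ (insert (s e) {t e})
      · have := Finset.card_insert_le (s e) {t e}
        rw [Finset.card_singleton] at this
        omega
      · intro σ σ' h
        have h2 : σ (s e) = σ' (s e) := h _ (by simp)
        have h3 : σ (t e) = σ' (t e) := h _ (by simp)
        simp only [Pi.sub_apply]
        unfold sat
        rw [h2, h3]
      · intro σ
        simp only [Pi.sub_apply]
        unfold sat
        split_ifs <;> norm_num
    rw [map_sub, hE.one] at h1
    exact h1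
  apply recursion s t perm (fun _ => 1 / (Fintype.card ι : ℝ)) (fun _ => by positivity)
    (vmeas s t) (vmeas_nonneg s t) (fun U => sum_restrict_le s t U) (56 * √(ε / x))
    (by positivity)
  intro U hbig
  set v : ℝ := ∑ y ∈ U, vmeas s t y with hv
  set a : ℝ := 56 * √(ε / x) with ha
  have ha0 : 0 < a := by positivity
  have hv0 : 0 < v := lt_of_le_of_lt (sq_nonneg a) hbig
  set n : ℝ := (Fintype.card V : ℝ) with hndef
  have hn2 : 2 ≤ n := by rw [hndef]; exact_mod_cast hn
  have hn0 : 0 < n := by linarith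
  have hlogn : 0 < Real.log n := Real.log_pos (by linarith)
  have hlogx0 : 0 ≤ -Real.log x := by
    have := Real.log_nonpos hx0.le hx1
    linarith
  -- the data of the stage
  set W : ι → ℝ := fun e => if s e ∈ U ∧ t e ∈ U then 1 / (Fintype.card ι : ℝ) else 0 with hW
  set p : V → ℝ := fun y => if y ∈ U then vmeas s t y else 0 with hp
  have hW0 : ∀ e, 0 ≤ W e := fun e => by simp only [hW]; split_ifs <;> positivity
  have hp0 : ∀ y, 0 ≤ p y := fun y => by
    simp only [hp]
    split_ifs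
    · exact vmeas_nonneg s t y
    · exact le_rfl
  have hpv : ∑ y, p y = v := by simp only [hp, hv, Finset.sum_ite_mem, Finset.univ_inter]
  have hWv : ∑ e, W e ≤ v := sum_restrict_le s t U
  have hWp : ∀ e, W e ≠ 0 → 0 < p (s e) ∧ 0 < p (t e) := by
    intro e he
    have h1 : s e ∈ U ∧ t e ∈ U := by
      by_contra hno
      exact he (by simp only [hW, if_neg hno])
    simp only [hp, h1.1, h1.2, if_true]
    exact ⟨vmeas_pos s t _ e (Or.inl rfl), vmeas_pos s t _ e (Or.inr rfl)⟩
  set η : ℝ := 48 * ε / v with hη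
  have hη0 : 0 < η := by positivity
  set K : ℝ := √(η / x) with hK
  have hK2 : K ^ 2 = η / x := Real.sq_sqrt (by positivity)
  set lam : ℝ := η / (x * Real.log n) with hlam
  have hlam0 : 0 < lam := by positivity
  set T0 : ℝ := -Real.log x / (2 * lam) with hT0
  have hT00 : 0 ≤ T0 := by positivity
  have hexp1 : Real.exp (-(2 * lam * T0)) = x := by
    have : -(2 * lam * T0) = Real.log x := by
      rw [hT0]; field_simp
    rw [this, Real.exp_log hx0]
  have hexp2 : Real.exp (2 * T0 * η) = n ^ (x * (-Real.log x)) := by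
    rw [Real.rpow_def_of_pos hn0]
    congr 1
    rw [hT0, hlam]
    field_simp
  have hTη : T0 * η = x * (-Real.log x) * Real.log n / 2 := by
    rw [hT0, hlam]
    field_simp
  have hRcond : 2 * Real.exp 1 * (n ^ Real.exp (-(2 * lam * T0)) * Real.exp (2 * T0 * η)) ≤
      (1 / 24 : ℝ) ^ 2 * R := by
    rw [hexp1, hexp2, ← Real.rpow_add hn0]
    have h1 : x + x * (-Real.log x) = x * (1 + Real.log (1 / x)) := by
      rw [one_div, Real.log_inv]; ring
    rw [h1]
    linarith
  -- the decomposition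
  obtain ⟨N', ρ, hρ0, hρ1, hcut, hnash⟩ := soft_decomposition s t hW0 hp0 hlam0.le
    (fun _ => 1) (fun _ => zero_le_one)
  have hEn : ∑ i, ∑ e, W e * (√(ρ i (s e)) - √(ρ i (t e))) ^ 2 ≤ K ^ 2 * v := by
    have h1 : cutEn s t W (fun _ => 1) = 0 := by
      unfold cutEn
      simp
    rw [h1, zero_add] at hcut
    simp only [mul_one] at hcut
    rw [hpv] at hcut
    have h2 : lam * (v * Real.log n) = K ^ 2 * v := by
      rw [hK2, hlam]
      field_simp
    rw [← hndef, h2] at hcut
    exact hcut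
  have herr : ∑ e, W e * (1 - E (sat (s e) (t e) (perm e))) ≤ ε := by
    refine le_trans (Finset.sum_le_sum fun e _ => ?_) hviol
    apply mul_le_mul_of_nonneg_right _ (he0 e)
    simp only [hW]
    split_ifs
    · exact le_rfl
    · positivity
  obtain ⟨ℓ, hℓ⟩ := stage s t perm W hW0 p hp0 ρ hρ0 hρ1
    (fun e => 1 - E (sat (s e) (t e) (perm e))) he0 ε herr v hpv hWv K (Real.sqrt_nonneg _) hEn
    (1 / 24) η (by norm_num) hη0
    (fun i A₁ A₂ hA₁ hA₂ => part_oracle hE s t perm W hW0 p hp0 hWp (ρ i) (hρ0 i) lam hlam0.le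
      (hnash i) (1 / 24) η T0 (by norm_num) hη0 hT00 R N hN0 hr hr3 (by rw [hTη]; exact hN)
      hRcond A₁ A₂ hA₁ hA₂)
    (a / √v) (by positivity)
  refine ⟨ℓ, ?_⟩
  have e1 : ∑ e, (if s e ∈ U ∧ t e ∈ U then 1 / (Fintype.card ι : ℝ) *
      (if Option.map (perm e) (ℓ (s e)) = ℓ (t e) then 0 else 1) else 0) =
      ∑ e, W e * (if Option.map (perm e) (ℓ (s e)) = ℓ (t e) then 0 else 1) := by
    apply Finset.sum_congr rfl
    intro e _
    simp only [hW]
    by_cases h : s e ∈ U ∧ t e ∈ U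
    · rw [if_pos h, if_pos h]
    · rw [if_neg h, if_neg h, zero_mul]
  have e2 : ∑ y ∈ U, (if ℓ y = none then vmeas s t y else 0) =
      ∑ y, (if ℓ y = none then p y else 0) := by
    have h1 : ∑ y, (if ℓ y = none then p y else 0) =
        ∑ y ∈ U, (if ℓ y = none then p y else 0) := by
      symm
      apply Finset.sum_subset (Finset.subset_univ _)
      intro y _ hy
      simp only [hp, if_neg hy]
      split_ifs <;> rfl
    rw [h1]
    apply Finset.sum_congr rfl
    intro y hy
    simp only [hp, if_pos hy]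
  rw [e1, e2]
  refine hℓ.trans ?_
  have hnum := stage_numeric hε hx0 hx1 hv0 ha hbig
  rw [← hη, ← hK] at hnum
  exact hnum

end Pool.Agent.Lib.P325h
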