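import Pool.Agent.Lib.P325h.Pe

/-!
Conditioning on the labels of few vertices until the average variance is small, and rounding
(Sherali-Adams version of `P325u.Loop`).
-/

open scoped BigOperators

namespace Pool.Agent.Lib.P325h

open Pool.Agent.Lib.P325u (IsPart cov ind avVar sat ind_mul_self ind_nonneg sum_ind dep_two)

section

variable {V Ω : Type} [Fintype V] [DecidableEq V] [Fintype Ω] [DecidableEq Ω]
  {E : ((V → Ω) → ℝ) →ₗ[ℝ] ℝ} {r : ℕ}

theorem avVar_nonneg (hE : IsLocalExpectation r E) {κ : Type} [Fintype κ]
    {P : κ → (V → Ω) → ℝ} {D : Finset V} (hP : IsPart P D) (hD : D.card + 1 ≤ r)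
    (μ : V → ℝ) (hμ : ∀ x, 0 ≤ μ x) : 0 ≤ avVar E P μ :=
  Finset.sum_nonneg (fun x _ => mul_nonneg (hμ x)
    (Finset.sum_nonneg (fun a _ => cov_self_nonneg hE hP
      (by rw [Finset.card_singleton]; exact hD) (ind_dep x a))))

theorem avVar_le_one (hE : IsLocalExpectation r E) {κ : Type} [Fintype κ]
    {P : κ → (V → Ω) → ℝ} {D : Finset V} (hP : IsPart P D) (hD : D.card ≤ r)
    (μ : V → ℝ) (hμ : ∀ x, 0 ≤ μ x) (hμ1 : ∑ x, μ x = 1) : avVar E P μ ≤ 1 := by
  rw [← hμ1]
  apply Finset.sum_le_sum
  intro x _
  apply mul_le_of_le_one_right (hμ x)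
  rw [← sum_E_ind hE x]
  apply Finset.sum_le_sum
  intro a _
  have := cov_self_le hE hP hD (ind x a)
  rwa [ind_mul_self] at this

/-- The conditioning loop. -/
theorem loop (hE : IsLocalExpectation r E) (μ : V → ℝ) (hμ : ∀ x, 0 ≤ μ x)
    (hμ1 : ∑ x, μ x = 1) (M δ : ℝ) (R : ℕ) (hR : 1 - R * δ ≤ M)
    (hRr : R + 1 ≤ r)
    (hstep : ∀ (κ : Type) [Fintype κ] (P : κ → (V → Ω) → ℝ) (D : Finset V), IsPart P D →
      D.card < R → M < avVar E P μ →
      δ ≤ ∑ x, ∑ a, ∑ w, ∑ b, μ x * μ w *
        (cov E P (ind x a) (ind w b) ^ 2 / E (ind w b))) :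
    ∃ (κ : Type) (_ : Fintype κ) (P : κ → (V → Ω) → ℝ) (D : Finset V),
      IsPart P D ∧ D.card ≤ R ∧ avVar E P μ ≤ M := by
  have main : ∀ j : ℕ, j ≤ R → ∃ (κ : Type) (_ : Fintype κ) (P : κ → (V → Ω) → ℝ)
      (D : Finset V), IsPart P D ∧ D.card ≤ j ∧ avVar E P μ ≤ max M (1 - j * δ) := by
    intro j
    induction j with
    | zero =>
      intro _
      refine ⟨Unit, inferInstance, fun _ _ => 1, ∅, ⟨?_, ?_, ?_⟩, ?_, ?_⟩
      · intro _ _; ring
      · intro _; simp
      · intro _ _ _ _; rfl
      · simp
      · apply le_max_of_le_right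
        have hP : IsPart (V := V) (Ω := Ω) (fun (_ : Unit) (_ : V → Ω) => (1 : ℝ)) ∅ :=
          ⟨fun _ _ => by ring, fun _ => by simp, fun _ _ _ _ => rfl⟩
        simpa using avVar_le_one hE hP (by simp) μ hμ hμ1
    | succ j ih =>
      intro hj
      obtain ⟨κ, hκ, P, D, hP, hD, hΦ⟩ := ih (by omega)
      by_cases hM : avVar E P μ ≤ M
      · exact ⟨κ, hκ, P, D, hP, by omega, le_max_of_le_left hM⟩
      · push Not at hM
        have hgain := hstep κ P D hP (by omega) hM
        -- some vertex has a large gain
        have hex : ∃ w, δ ≤ avVar E P μ -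
            avVar E (fun q : κ × Ω => P q.1 * ind w q.2) μ := by
          by_contra hcon
          push Not at hcon
          have h1 : ∑ x, ∑ a, ∑ w, ∑ b, μ x * μ w *
              (cov E P (ind x a) (ind w b) ^ 2 / E (ind w b)) ≤
              ∑ w, μ w * (avVar E P μ - avVar E (fun q : κ × Ω => P q.1 * ind w q.2) μ) := by
            have h2 : ∀ w, ∑ x, ∑ a, μ x * ∑ b,
                (cov E P (ind x a) (ind w b) ^ 2 / E (ind w b)) ≤
                avVar E P μ - avVar E (fun q : κ × Ω => P q.1 * ind w q.2) μ := by
              intro w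
              unfold avVar
              rw [← Finset.sum_sub_distrib]
              apply Finset.sum_le_sum
              intro x _
              rw [← mul_sub, ← Finset.sum_sub_distrib, ← Finset.mul_sum]
              apply mul_le_mul_of_nonneg_left _ (hμ x)
              apply Finset.sum_le_sum
              intro a _
              exact gain hE hP (by omega) x a w
            have h3 : ∑ x, ∑ a, ∑ w, ∑ b, μ x * μ w *
                (cov E P (ind x a) (ind w b) ^ 2 / E (ind w b)) =
                ∑ w, μ w * ∑ x, ∑ a, μ x * ∑ b,
                  (cov E P (ind x a) (ind w b) ^ 2 / E (ind w b)) := by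
              have e1 : ∀ x : V, ∑ a, ∑ w, ∑ b, μ x * μ w *
                (cov E P (ind x a) (ind w b) ^ 2 / E (ind w b)) =
                ∑ w, ∑ a, ∑ b, μ x * μ w *
                (cov E P (ind x a) (ind w b) ^ 2 / E (ind w b)) := fun x => Finset.sum_comm
              simp_rw [e1]
              rw [Finset.sum_comm]
              apply Finset.sum_congr rfl
              intro w _
              rw [Finset.mul_sum]
              apply Finset.sum_congr rfl
              intro x _
              rw [Finset.mul_sum]
              apply Finset.sum_congr rfl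
              intro a _
              rw [Finset.mul_sum, Finset.mul_sum]
              apply Finset.sum_congr rfl
              intro b _
              ring
            rw [h3]
            exact Finset.sum_le_sum (fun w _ => mul_le_mul_of_nonneg_left (h2 w) (hμ w))
          have h4 : ∑ w, μ w * (avVar E P μ -
              avVar E (fun q : κ × Ω => P q.1 * ind w q.2) μ) < ∑ w, μ w * δ := by
            apply Finset.sum_lt_sum
            · intro w _
              exact mul_le_mul_of_nonneg_left (hcon w).le (hμ w)
            · have : ∃ w, 0 < μ w := by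
                by_contra hno
                push Not at hno
                have : ∑ x, μ x ≤ 0 := Finset.sum_nonpos (fun x _ => hno x)
                linarith
              obtain ⟨w, hw⟩ := this
              exact ⟨w, Finset.mem_univ _, mul_lt_mul_of_pos_left (hcon w) hw⟩
          rw [← Finset.sum_mul, hμ1, one_mul] at h4
          linarith
        obtain ⟨w, hw⟩ := hex
        refine ⟨κ × Ω, inferInstance, _, _, hP.refine w, ?_, ?_⟩
        · have := Finset.card_insert_le w D
          omega
        · have h5 : avVar E P μ ≤ 1 - j * δ := by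
            rcases le_max_iff.1 hΦ with h | h
            · linarith
            · exact h
          apply le_max_of_le_right
          push_cast
          linarith
  obtain ⟨κ, hκ, P, D, hP, hD, hΦ⟩ := main R le_rfl
  exact ⟨κ, hκ, P, D, hP, hD, hΦ.trans (max_le le_rfl hR)⟩

end

section round

variable {V Ω ι : Type} [Fintype V] [DecidableEq V] [Fintype Ω] [DecidableEq Ω]
  [Fintype ι] {E : ((V → Ω) → ℝ) →ₗ[ℝ] ℝ} {r : ℕ}

/-- Pointwise inequalities between functions of the labels of two vertices hold under the
conditional pseudo-expectations. -/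
theorem E_two_nonneg {κ : Type} [Fintype κ] {P : κ → (V → Ω) → ℝ} {D : Finset V}
    (hE : IsLocalExpectation r E) (hP : IsPart P D) (hD : D.card + 2 ≤ r) (α : κ) (x y : V)
    (F : (V → Ω) → ℝ) (hF : ∀ σ σ' : V → Ω, σ x = σ' x → σ y = σ' y → F σ = F σ')
    (hF0 : ∀ σ, 0 ≤ F σ) : 0 ≤ E (P α * F) := by
  apply hE.nonneg _ (insert x (insert y D)) _ (dep_two (hP.dep α) hF)
  · intro σ
    exact mul_nonneg (hP.nonneg α σ) (hF0 σ)
  · have h1 := Finset.card_insert_le x (insert y D)
    have h2 := Finset.card_insert_le y D
    omega

/-- Rounding: for one of the conditional pseudo-expectations the most likely labels are good. -/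
theorem round_part [Nonempty Ω] (hE : IsLocalExpectation r E) {κ : Type} [Fintype κ]
    {P : κ → (V → Ω) → ℝ} {D : Finset V} (hP : IsPart P D) (hD : D.card + 2 ≤ r)
    (s t : ι → V) (perm : ι → Equiv.Perm Ω) (g : ι → ℝ) (hg : ∀ e, 0 ≤ g e)
    (h : V → ℝ) (hh : ∀ x, 0 ≤ h x) :
    ∃ (ℓ : V → Ω) (Q : V → ℝ) (er : ι → ℝ),
      (∀ x, 0 ≤ Q x ∧ Q x ≤ 1) ∧ (∀ e, 0 ≤ er e) ∧ (∀ e, |Q (s e) - Q (t e)| ≤ er e) ∧
      (∀ e, perm e (ℓ (s e)) ≠ ℓ (t e) → Q (s e) + Q (t e) ≤ 1 + er e) ∧
      ∑ e, g e * er e + ∑ x, h x * (1 - Q x) ≤
        ∑ e, g e * (1 - E (sat (s e) (t e) (perm e))) +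
        ∑ x, h x * ∑ a, cov E P (ind x a) (ind x a) := by
  classical
  have hp0 : ∀ α, 0 ≤ E (P α) := fun α => E_nonneg hE hP (by omega) α
  -- the most likely label
  have hmax : ∀ α x, ∃ a, ∀ b, E (P α * ind x b) ≤ E (P α * ind x a) := by
    intro α x
    obtain ⟨a, _, ha⟩ := Finset.exists_max_image Finset.univ
      (fun b => E (P α * ind x b)) (Finset.univ_nonempty)
    exact ⟨a, fun b => ha b (Finset.mem_univ _)⟩
  choose L hL using hmax
  have hsumind : ∀ α x, ∑ b, E (P α * ind x b) = E (P α) := by
    intro α x
    rw [← map_sum, ← Finset.mul_sum]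
    congr 1
    funext σ
    rw [Pi.mul_apply, Finset.sum_apply, sum_ind, mul_one]
  have hind0 : ∀ α x b, 0 ≤ E (P α * ind x b) := by
    intro α x b
    apply E_two_nonneg hE hP hD α x x
    · intro σ σ' h1 _
      unfold ind
      rw [h1]
    · exact ind_nonneg x b
  set Q : κ → V → ℝ := fun α x => E (P α * ind x (L α x)) / E (P α) with hQ
  set er : κ → ι → ℝ := fun α e => 1 - E (P α * sat (s e) (t e) (perm e)) / E (P α) with her
  set obj : κ → ℝ := fun α => ∑ e, g e * er α e + ∑ x, h x * (1 - Q α x) with hobj
  set RHS : ℝ := ∑ e, g e * (1 - E (sat (s e) (t e) (perm e))) +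
        ∑ x, h x * ∑ a, cov E P (ind x a) (ind x a) with hRHS
  -- the average of the objective
  have havg : ∑ α, E (P α) * obj α ≤ RHS := by
    have h1 : ∀ α, E (P α) * obj α ≤
        ∑ e, g e * (E (P α) - E (P α * sat (s e) (t e) (perm e))) +
        ∑ x, h x * ∑ a, (E (P α * ind x a * ind x a) -
          E (P α * ind x a) * E (P α * ind x a) / E (P α)) := by
      intro α
      rcases (hp0 α).lt_or_eq with hpos | hz
      · simp only [hobj]
        rw [mul_add, Finset.mul_sum, Finset.mul_sum]
        apply add_le_add
        · apply Finset.sum_le_sum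
          intro e _
          apply le_of_eq
          simp only [her]
          field_simp
        · apply Finset.sum_le_sum
          intro x _
          have e1 : E (P α) * (h x * (1 - Q α x)) = h x * (E (P α) * (1 - Q α x)) := by ring
          rw [e1]
          apply mul_le_mul_of_nonneg_left _ (hh x)
          have e2 : ∀ a, E (P α * ind x a * ind x a) = E (P α * ind x a) := by
            intro a
            rw [mul_assoc, ind_mul_self]
          simp_rw [e2]
          rw [Finset.sum_sub_distrib, hsumind]
          have e3 : ∑ a, E (P α * ind x a) * E (P α * ind x a) / E (P α) ≤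
              E (P α) * Q α x := by
            calc ∑ a, E (P α * ind x a) * E (P α * ind x a) / E (P α)
                ≤ ∑ a, E (P α * ind x a) * E (P α * ind x (L α x)) / E (P α) := by
                  apply Finset.sum_le_sum
                  intro a _
                  apply div_le_div_of_nonneg_right _ hpos.le
                  exact mul_le_mul_of_nonneg_left (hL α x a) (hind0 α x a)
              _ = E (P α) * Q α x := by
                  simp only [hQ]
                  rw [← Finset.sum_div, ← Finset.sum_mul, hsumind]
                  ring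
          linarith
      · rw [← hz, zero_mul]
        have e1 : ∀ x b, E (P α * ind x b) = 0 := fun x b =>
          E_mul_eq_zero hE hP (by rw [Finset.card_singleton]; omega) (ind_dep x b) α hz.symm
        have e2 : ∀ e, E (P α * sat (s e) (t e) (perm e)) ≤ 0 := by
          intro e
          have := E_two_nonneg hE hP hD α (s e) (t e)
            (fun σ => 1 - sat (s e) (t e) (perm e) σ) (by
              intro σ σ' h1 h2
              unfold sat
              simp only [h1, h2]) (by
              intro σ
              unfold sat
              split_ifs <;> norm_num)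
          have e3 : (P α * fun σ => 1 - sat (s e) (t e) (perm e) σ) =
              P α - P α * sat (s e) (t e) (perm e) := by
            funext σ
            simp only [Pi.mul_apply, Pi.sub_apply]
            ring
          rw [e3, map_sub, ← hz] at this
          linarith
        apply add_nonneg
        · apply Finset.sum_nonneg
          intro e _
          apply mul_nonneg (hg e)
          have := e2 e
          linarith
        · apply Finset.sum_nonneg
          intro x _
          apply mul_nonneg (hh x)
          apply Finset.sum_nonneg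
          intro a _
          rw [mul_assoc, ind_mul_self, e1]
          simp
    refine (Finset.sum_le_sum (fun α _ => h1 α)).trans (le_of_eq ?_)
    rw [Finset.sum_add_distrib, hRHS]
    congr 1
    · rw [Finset.sum_comm]
      apply Finset.sum_congr rfl
      intro e _
      rw [← Finset.mul_sum, Finset.sum_sub_distrib, sum_E hE hP, hP.sum_mul]
    · rw [Finset.sum_comm]
      apply Finset.sum_congr rfl
      intro x _
      rw [← Finset.mul_sum]
      congr 1
      rw [Finset.sum_comm]
      rfl
  -- choose α
  have hex : ∃ α, 0 < E (P α) ∧ obj α ≤ RHS := by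
    by_contra hcon
    push Not at hcon
    have h2 : ∑ α, E (P α) * RHS < ∑ α, E (P α) * obj α := by
      apply Finset.sum_lt_sum
      · intro α _
        rcases (hp0 α).lt_or_eq with hpos | hz
        · exact mul_le_mul_of_nonneg_left (hcon α hpos).le hpos.le
        · rw [← hz]; simp
      · have : ∃ α, 0 < E (P α) := by
          by_contra hno
          push Not at hno
          have h3 : ∑ α, E (P α) ≤ 0 := Finset.sum_nonpos (fun α _ => hno α)
          rw [sum_E hE hP] at h3
          linarith
        obtain ⟨α, hα⟩ := this
        exact ⟨α, Finset.mem_univ _, mul_lt_mul_of_pos_left (hcon α hα) hα⟩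
    rw [← Finset.sum_mul, sum_E hE hP, one_mul] at h2
    linarith
  obtain ⟨α, hα, hobjα⟩ := hex
  -- comparison of probabilities
  have hcmp : ∀ (x y : V) (F G : (V → Ω) → ℝ),
      (∀ σ σ' : V → Ω, σ x = σ' x → σ y = σ' y → F σ = F σ') →
      (∀ σ σ' : V → Ω, σ x = σ' x → σ y = σ' y → G σ = G σ') →
      (∀ σ, F σ ≤ G σ) → E (P α * F) ≤ E (P α * G) := by
    intro x y F G hF hG hFG
    have := E_two_nonneg hE hP hD α x y (G - F) (by
      intro σ σ' h1 h2
      simp only [Pi.sub_apply]
      rw [hF σ σ' h1 h2, hG σ σ' h1 h2]) (by
      intro σ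
      simp only [Pi.sub_apply]
      linarith [hFG σ])
    rw [mul_sub, map_sub] at this
    linarith
  have hone : P α * (fun _ => (1 : ℝ)) = P α := by
    funext σ
    simp
  have hcong_ind : ∀ (x y : V) (a : Ω) (σ σ' : V → Ω), σ x = σ' x → σ y = σ' y →
      (ind x a : (V → Ω) → ℝ) σ = ind x a σ' := by
    intro x y a σ σ' h1 _
    unfold ind
    rw [h1]
  have hcong_ind' : ∀ (x y : V) (a : Ω) (σ σ' : V → Ω), σ x = σ' x → σ y = σ' y →
      (ind y a : (V → Ω) → ℝ) σ = ind y a σ' := by
    intro x y a σ σ' _ h2
    unfold ind
    rw [h2]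
  have hcong_sat : ∀ (x y : V) (k : Equiv.Perm Ω) (σ σ' : V → Ω), σ x = σ' x → σ y = σ' y →
      (sat x y k : (V → Ω) → ℝ) σ = sat x y k σ' := by
    intro x y k σ σ' h1 h2
    unfold sat
    rw [h1, h2]
  refine ⟨L α, Q α, er α, ?_, ?_, ?_, ?_, hobjα⟩
  · intro x
    refine ⟨div_nonneg (hind0 α x _) hα.le, ?_⟩
    simp only [hQ]
    rw [div_le_one hα]
    have := hcmp x x (ind x (L α x)) (fun _ => 1) (hcong_ind x x _) (fun _ _ _ _ => rfl)
      (by
        intro σ
        unfold ind
        split_ifs <;> norm_num)
    rwa [hone] at this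
  · intro e
    simp only [her]
    rw [sub_nonneg, div_le_one hα]
    have := hcmp (s e) (t e) (sat (s e) (t e) (perm e)) (fun _ => 1)
      (hcong_sat _ _ _) (fun _ _ _ _ => rfl)
      (by
        intro σ
        unfold sat
        split_ifs <;> norm_num)
    rwa [hone] at this
  · intro e
    -- E (P ind_s a) + E (P sat) ≤ E P + E (P ind_t (perm a))
    have h1 : ∀ a, E (P α * ind (s e) a) + E (P α * sat (s e) (t e) (perm e)) ≤
        E (P α) + E (P α * ind (t e) (perm e a)) := by
      intro a
      have := hcmp (s e) (t e) (ind (s e) a + sat (s e) (t e) (perm e))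
        ((fun _ => 1) + ind (t e) (perm e a))
        (by
          intro σ σ' h1 h2
          simp only [Pi.add_apply]
          rw [hcong_ind (s e) (t e) a σ σ' h1 h2, hcong_sat (s e) (t e) (perm e) σ σ' h1 h2])
        (by
          intro σ σ' h1 h2
          simp only [Pi.add_apply]
          rw [hcong_ind' (s e) (t e) (perm e a) σ σ' h1 h2])
        (by
          intro σ
          simp only [Pi.add_apply]
          unfold ind sat
          by_cases c1 : σ (s e) = a
          · by_cases c2 : perm e (σ (s e)) = σ (t e)
            · have c3 : σ (t e) = perm e a := by rw [← c2, c1]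
              simp [c1, c3]
            · simp only [c1, if_true]
              have c4 : ¬ (perm e a = σ (t e)) := by rwa [c1] at c2
              rw [if_neg c4]
              split_ifs <;> norm_num
          · rw [if_neg c1]
            split_ifs <;> norm_num)
      rw [mul_add, mul_add, map_add, map_add, hone] at this
      exact this
    have h2 : ∀ b, E (P α * ind (t e) b) + E (P α * sat (s e) (t e) (perm e)) ≤
        E (P α) + E (P α * ind (s e) ((perm e).symm b)) := by
      intro b
      have := hcmp (s e) (t e) (ind (t e) b + sat (s e) (t e) (perm e))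
        ((fun _ => 1) + ind (s e) ((perm e).symm b))
        (by
          intro σ σ' h1 h2
          simp only [Pi.add_apply]
          rw [hcong_ind' (s e) (t e) b σ σ' h1 h2, hcong_sat (s e) (t e) (perm e) σ σ' h1 h2])
        (by
          intro σ σ' h1 h2
          simp only [Pi.add_apply]
          rw [hcong_ind (s e) (t e) ((perm e).symm b) σ σ' h1 h2])
        (by
          intro σ
          simp only [Pi.add_apply]
          unfold ind sat
          by_cases c1 : σ (t e) = b
          · by_cases c2 : perm e (σ (s e)) = σ (t e)
            · have c3 : σ (s e) = (perm e).symm b := by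
                rw [← c1, ← c2, Equiv.symm_apply_apply]
              rw [if_pos c1, if_pos c2, if_pos c3]
            · rw [if_pos c1, if_neg c2]
              split_ifs <;> norm_num
          · rw [if_neg c1]
            split_ifs <;> norm_num)
      rw [mul_add, mul_add, map_add, map_add, hone] at this
      exact this
    have h3 := h1 (L α (s e))
    have h4 := h2 (L α (t e))
    have h5 := hL α (t e) (perm e (L α (s e)))
    have h6 := hL α (s e) ((perm e).symm (L α (t e)))
    simp only [hQ, her]
    rw [abs_le]
    constructor
    · rw [neg_le_sub_iff_le_add, ← sub_nonneg]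
      have : E (P α * ind (s e) (L α (s e))) / E (P α) +
          (1 - E (P α * sat (s e) (t e) (perm e)) / E (P α)) -
          E (P α * ind (t e) (L α (t e))) / E (P α) =
          (E (P α * ind (s e) (L α (s e))) + E (P α) - E (P α * sat (s e) (t e) (perm e)) -
          E (P α * ind (t e) (L α (t e)))) / E (P α) := by
        field_simp
        ring
      rw [this]
      apply div_nonneg _ hα.le
      linarith
    · rw [← sub_nonneg]
      have : (1 - E (P α * sat (s e) (t e) (perm e)) / E (P α)) -
          (E (P α * ind (s e) (L α (s e))) / E (P α) -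
          E (P α * ind (t e) (L α (t e))) / E (P α)) =
          (E (P α) - E (P α * sat (s e) (t e) (perm e)) -
          E (P α * ind (s e) (L α (s e))) + E (P α * ind (t e) (L α (t e)))) / E (P α) := by
        field_simp
        ring
      rw [this]
      apply div_nonneg _ hα.le
      linarith
  · intro e hviol
    have h1 := hcmp (s e) (t e) (ind (s e) (L α (s e)) + ind (t e) (L α (t e)) +
        sat (s e) (t e) (perm e)) ((fun _ => 1) + (fun _ => 1))
      (by
        intro σ σ' h1 h2
        simp only [Pi.add_apply]
        rw [hcong_ind (s e) (t e) _ σ σ' h1 h2, hcong_ind' (s e) (t e) _ σ σ' h1 h2,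
          hcong_sat (s e) (t e) (perm e) σ σ' h1 h2])
      (fun _ _ _ _ => rfl)
      (by
        intro σ
        simp only [Pi.add_apply]
        unfold ind sat
        by_cases c1 : σ (s e) = L α (s e)
        · by_cases c2 : σ (t e) = L α (t e)
          · have c3 : ¬ (perm e (σ (s e)) = σ (t e)) := by
              rw [c1, c2]
              exact hviol
            rw [if_pos c1, if_pos c2, if_neg c3]
            norm_num
          · rw [if_neg c2]
            split_ifs <;> norm_num
        · rw [if_neg c1]
          split_ifs <;> norm_num)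
    rw [mul_add, mul_add, mul_add, map_add, map_add, map_add, hone] at h1
    simp only [hQ, her]
    rw [← sub_nonneg]
    have : 1 + (1 - E (P α * sat (s e) (t e) (perm e)) / E (P α)) -
        (E (P α * ind (s e) (L α (s e))) / E (P α) +
        E (P α * ind (t e) (L α (t e))) / E (P α)) =
        (E (P α) + E (P α) - E (P α * sat (s e) (t e) (perm e)) -
        E (P α * ind (s e) (L α (s e))) - E (P α * ind (t e) (L α (t e)))) / E (P α) := by
      field_simp
      ring
    rw [this]
    apply div_nonneg _ hα.le
    linarith

end round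

end Pool.Agent.Lib.P325h
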