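import Pool.Agent.Lib.P325u.Main
import Pool.Agent.Lib.P325h.Final

/-!
The Sherali-Adams theorem for bipartite unique games.
-/

open scoped BigOperators
open Pool.Agent.Lib.P325x (Game)

namespace Pool.Agent.Lib.P325h

open Pool.Agent.Lib.P325u (sat satFrac_le_value satFrac_eq vmeas sum_vmeas_le)

/-- `4 (2 (y ^ 2 + y) + 4) ^ 2 ≤ 400 exp y` -/
theorem poly_le_exp {y : ℝ} (hy : 0 ≤ y) :
    4 * (2 * (y ^ 2 + y) + 4) ^ 2 ≤ 400 * Real.exp y := by
  have h1 : 1 + y + y ^ 2 / 2 + y ^ 3 / 6 + y ^ 4 / 24 ≤ Real.exp y := by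
    have h := Real.sum_le_exp_of_nonneg hy 5
    simp only [Finset.sum_range_succ, Finset.sum_range_zero, Nat.factorial] at h
    norm_num at h
    linarith
  have h2 : 0 ≤ y ^ 2 := sq_nonneg y
  have h3 : 0 ≤ y ^ 3 := by positivity
  have h4 : 0 ≤ y ^ 4 := by positivity
  nlinarith

/-- Sherali-Adams linear programming of degree `5000 * n ^ (x * (1 + log (1 / x)))` finds, in every
unique game with `n` vertices and pseudo-value `≥ 1 - ε`, a labeling of value at least
`1 - 56 * √(ε / x)`. -/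
theorem sa_main (ε x : ℝ) (hε : 0 < ε) (hx : 0 < x) (hx1 : x ≤ 1)
    (U W Ω ι : Type) [Fintype U] [Fintype W] [Fintype Ω] [Fintype ι] [Nonempty ι]
    (I : Game U W Ω ι) (r : ℕ)
    (hr : 5000 * ((Fintype.card U : ℝ) + Fintype.card W) ^ (x * (1 + Real.log (1 / x))) ≤ r)
    (E : ((U ⊕ W → Ω) → ℝ) →ₗ[ℝ] ℝ) (hE : IsLocalExpectation r E)
    (hval : 1 - ε ≤ E (fun z => I.satFrac (fun u => z (Sum.inl u)) (fun w => z (Sum.inr w)))) :
    1 - 56 * √(ε / x) ≤ I.value := by
  classical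
  have hc : (0 : ℝ) < Fintype.card ι := by exact_mod_cast Fintype.card_pos
  have hL : Nonempty Ω := by
    by_contra hcon
    have hemp : IsEmpty Ω := not_nonempty_iff.1 hcon
    have hV : IsEmpty (U ⊕ W → Ω) :=
      ⟨fun z => hemp.false (z (Sum.inl (I.src (Classical.arbitrary ι))))⟩
    have h1 := hE.one
    have h2 : (fun _ => 1 : (U ⊕ W → Ω) → ℝ) = 0 := by
      funext z
      exact (hV.false z).elim
    rw [h2, map_zero] at h1
    norm_num at h1
  set n : ℝ := (Fintype.card U : ℝ) + Fintype.card W with hn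
  have hU : 1 ≤ Fintype.card U :=
    Fintype.card_pos_iff.2 ⟨I.src (Classical.arbitrary ι)⟩
  have hW : 1 ≤ Fintype.card W :=
    Fintype.card_pos_iff.2 ⟨I.dst (Classical.arbitrary ι)⟩
  have hcardN : 2 ≤ Fintype.card (U ⊕ W) := by
    rw [Fintype.card_sum]; omega
  have hcard : (Fintype.card (U ⊕ W) : ℝ) = n := by
    rw [Fintype.card_sum, hn]; push_cast; ring
  have hn2 : 2 ≤ n := by
    rw [← hcard]
    exact_mod_cast hcardN
  have hn0 : 0 < n := by linarith
  have hn1 : 1 ≤ n := by linarith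
  have hlogn : 0 ≤ Real.log n := Real.log_nonneg hn1
  have hlogx : 0 ≤ -Real.log x := by
    have := Real.log_nonpos hx.le hx1
    linarith
  set β : ℝ := x * (1 + Real.log (1 / x)) with hβ
  have hβ' : β = x + x * (-Real.log x) := by
    rw [hβ, one_div, Real.log_inv]; ring
  have hxl : 0 ≤ x * (-Real.log x) := mul_nonneg hx.le hlogx
  have hpow1 : 1 ≤ n ^ β := Real.one_le_rpow hn1 (by rw [hβ']; linarith)
  have he : Real.exp 1 < 2.7182818286 := Real.exp_one_lt_d9
  have he0 : 0 < Real.exp 1 := Real.exp_pos 1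
  -- the number of conditioned vertices
  set R : ℕ := ⌈1152 * Real.exp 1 * n ^ β⌉₊ with hRdef
  have hR1 : 1152 * Real.exp 1 * n ^ β ≤ (R : ℝ) := Nat.le_ceil _
  have hR2 : (R : ℝ) < 1152 * Real.exp 1 * n ^ β + 1 := Nat.ceil_lt_add_one (by positivity)
  -- the number of samples
  set y : ℝ := x * (-Real.log x) * Real.log n / 2 with hy
  have hy0 : 0 ≤ y := by positivity
  set N : ℕ := ⌈4 * (steps y : ℝ) ^ 2 * Real.exp (y + 1 / 2)⌉₊ + 1 with hNdef
  have hN1 : 4 * (steps y : ℝ) ^ 2 * Real.exp (y + 1 / 2) + 1 ≤ N := by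
    rw [hNdef]
    push_cast
    have := Nat.le_ceil (4 * (steps y : ℝ) ^ 2 * Real.exp (y + 1 / 2))
    linarith
  have hN2 : (N : ℝ) < 4 * (steps y : ℝ) ^ 2 * Real.exp (y + 1 / 2) + 2 := by
    rw [hNdef]
    push_cast
    have := Nat.ceil_lt_add_one (a := 4 * (steps y : ℝ) ^ 2 * Real.exp (y + 1 / 2))
      (by positivity)
    linarith
  have hN0 : 1 ≤ N := by rw [hNdef]; omega
  have hexp : Real.exp y * Real.exp y ≤ n ^ β := by
    rw [← Real.exp_add]
    have h1 : Real.exp (y + y) = n ^ (x * (-Real.log x)) := by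
      rw [Real.rpow_def_of_pos hn0]
      congr 1
      rw [hy]
      ring
    rw [h1]
    exact Real.rpow_le_rpow_of_exponent_le hn1 (by rw [hβ']; linarith)
  have hhalf : Real.exp (1 / 2) ≤ 1.65 := by
    have h1 : Real.exp (1 / 2) ^ 2 = Real.exp 1 := by
      rw [← Real.exp_nat_mul]
      norm_num
    have h2 := Real.exp_pos (1 / 2)
    nlinarith
  have hN3 : 4 * (steps y : ℝ) ^ 2 * Real.exp (y + 1 / 2) ≤ 660 * n ^ β := by
    have h1 : (steps y : ℝ) ≤ 2 * (y ^ 2 + y) + 4 := steps_le hy0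
    have h2 : 4 * (steps y : ℝ) ^ 2 ≤ 400 * Real.exp y := by
      have h3 : (steps y : ℝ) ^ 2 ≤ (2 * (y ^ 2 + y) + 4) ^ 2 :=
        pow_le_pow_left₀ (Nat.cast_nonneg _) h1 2
      linarith [poly_le_exp hy0]
    rw [Real.exp_add]
    have h4 := Real.exp_pos y
    have h5 := Real.exp_pos (1 / 2)
    calc 4 * (steps y : ℝ) ^ 2 * (Real.exp y * Real.exp (1 / 2)) ≤
        400 * Real.exp y * (Real.exp y * 1.65) :=
          mul_le_mul h2 (mul_le_mul_of_nonneg_left hhalf h4.le) (by positivity) (by positivity)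
      _ = 660 * (Real.exp y * Real.exp y) := by ring
      _ ≤ 660 * n ^ β := mul_le_mul_of_nonneg_left hexp (by norm_num)
  have hRr : R + (N + N) ≤ r := by
    have h1 : (R : ℝ) + (N + N) ≤ r := by
      have h2 : 1152 * Real.exp 1 * n ^ β ≤ 1152 * 2.7182818286 * n ^ β := by
        have := mul_le_mul_of_nonneg_right he.le (by positivity : 0 ≤ 1152 * n ^ β)
        linarith
      linarith
    exact_mod_cast h1
  have hr3 : 3 ≤ r := by
    have h1 : (3 : ℝ) ≤ r := by linarith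
    exact_mod_cast h1
  have hfun : (fun z : U ⊕ W → Ω => I.satFrac (fun u => z (Sum.inl u)) (fun w => z (Sum.inr w))) =
      (Fintype.card ι : ℝ)⁻¹ • ∑ e, sat (Sum.inl (I.src e)) (Sum.inr (I.dst e)) (I.perm e) := by
    funext z
    rw [satFrac_eq]
    simp only [Pi.smul_apply, Finset.sum_apply, smul_eq_mul]
  have hviol : ∑ e, 1 / (Fintype.card ι : ℝ) *
      (1 - E (sat (Sum.inl (I.src e)) (Sum.inr (I.dst e)) (I.perm e))) ≤ ε := by
    rw [hfun, map_smul, map_sum, smul_eq_mul] at hval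
    rw [← Finset.mul_sum, Finset.sum_sub_distrib, Finset.sum_const, Finset.card_univ,
      nsmul_eq_mul, mul_one, mul_sub, one_div, inv_mul_cancel₀ hc.ne']
    linarith
  obtain ⟨ℓ, hℓ⟩ := sa_rec (fun e => Sum.inl (I.src e)) (fun e => Sum.inr (I.dst e)) I.perm hE
    hε hx hx1 hcardN (by rw [hcard]; exact hR1) hRr hr3 hN0 (by rw [hcard]; exact hN1) hviol
    Finset.univ
  simp only [Finset.mem_univ, and_self, if_true] at hℓ
  rw [← Finset.mul_sum] at hℓ
  have hv1 := sum_vmeas_le (fun e => (Sum.inl (I.src e) : U ⊕ W)) (fun e => Sum.inr (I.dst e))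
    Finset.univ
  have h2 : 56 * √(ε / x) * √(∑ y, vmeas (fun e => (Sum.inl (I.src e) : U ⊕ W))
      (fun e => Sum.inr (I.dst e)) y) ≤ 56 * √(ε / x) := by
    apply mul_le_of_le_one_right (by positivity)
    exact Real.sqrt_le_one.2 hv1
  have hsat : 1 - 1 / (Fintype.card ι : ℝ) *
      (∑ e, (if I.perm e (ℓ (Sum.inl (I.src e))) = ℓ (Sum.inr (I.dst e))
      then (0 : ℝ) else 1)) = I.satFrac (fun u => ℓ (Sum.inl u)) (fun w => ℓ (Sum.inr w)) := by
    rw [satFrac_eq, one_div]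
    have h3 : (∑ e, (if I.perm e (ℓ (Sum.inl (I.src e))) = ℓ (Sum.inr (I.dst e))
      then (0 : ℝ) else 1)) + ∑ e, sat (Sum.inl (I.src e)) (Sum.inr (I.dst e)) (I.perm e) ℓ =
      (Fintype.card ι : ℝ) := by
      rw [← Finset.sum_add_distrib]
      unfold sat
      rw [Finset.sum_congr rfl (g := fun _ => (1 : ℝ)) (fun e _ => by split_ifs <;> norm_num)]
      simp
    have h4 : (Fintype.card ι : ℝ)⁻¹ * (Fintype.card ι : ℝ) = 1 := inv_mul_cancel₀ hc.ne'
    rw [← h3, mul_add, h3] at h4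
    linarith
  have := satFrac_le_value I (fun u => ℓ (Sum.inl u)) (fun w => ℓ (Sum.inr w))
  linarith

end Pool.Agent.Lib.P325h
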