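import Pool.Agent.Lib.P325h.Defs
import Pool.Agent.Lib.P325u.Loop

/-!
Conditional covariances of a Sherali-Adams pseudo-expectation.
-/

open scoped BigOperators

namespace Pool.Agent.Lib.P325h

open Pool.Agent.Lib.P325u

variable {V Ω : Type}

section basic

variable {κ : Type} [Fintype κ] {E : ((V → Ω) → ℝ) →ₗ[ℝ] ℝ} {P : κ → (V → Ω) → ℝ}
  {D D' : Finset V} {r : ℕ}

theorem sum_E (hE : IsLocalExpectation r E) (hP : IsPart P D) :
    ∑ α, E (P α) = 1 := by
  rw [← map_sum, ← hE.one]
  congr 1
  funext σ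
  rw [Finset.sum_apply]
  exact hP.sum_one σ

theorem E_nonneg (hE : IsLocalExpectation r E) (hP : IsPart P D) (hD : D.card ≤ r)
    (α : κ) : 0 ≤ E (P α) :=
  hE.nonneg _ D hD (hP.dep α) (hP.nonneg α)

/-- the product of functions of the labels of `D` and of `D'` -/
theorem dep_mul [DecidableEq V] {f g : (V → Ω) → ℝ} (hf : DependsOn f (D : Set V))
    (hg : DependsOn g (D' : Set V)) : DependsOn (f * g) ((D ∪ D' : Finset V) : Set V) := by
  intro σ σ' h
  show f σ * g σ = f σ' * g σ'
  rw [hf (fun i hi => h i (Finset.mem_coe.2 (Finset.mem_union_left _ (Finset.mem_coe.1 hi)))),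
    hg (fun i hi => h i (Finset.mem_coe.2 (Finset.mem_union_right _ (Finset.mem_coe.1 hi))))]

/-- `E (P F ^ 2) - 2 c E (P F) + c ^ 2 E P ≥ 0`. -/
theorem quad_nonneg [DecidableEq V] (hE : IsLocalExpectation r E) (hP : IsPart P D)
    (hD : D.card + D'.card ≤ r) {F : (V → Ω) → ℝ} (hF : DependsOn F (D' : Set V)) (α : κ)
    (c : ℝ) : 0 ≤ E (P α * F * F) - 2 * c * E (P α * F) + c ^ 2 * E (P α) := by
  have hG : DependsOn (fun σ => (F σ - c) ^ 2) (D' : Set V) := by
    intro σ σ' h
    show (F σ - c) ^ 2 = (F σ' - c) ^ 2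
    rw [hF h]
  have h1 := hE.nonneg (P α * fun σ => (F σ - c) ^ 2) (D ∪ D')
    ((Finset.card_union_le _ _).trans hD) (dep_mul (hP.dep α) hG)
    (fun σ => mul_nonneg (hP.nonneg α σ) (sq_nonneg _))
  have h2 : (P α * fun σ => (F σ - c) ^ 2) =
      P α * F * F - (2 * c) • (P α * F) + (c ^ 2) • P α := by
    funext σ
    simp only [Pi.sub_apply, Pi.mul_apply, Pi.smul_apply, smul_eq_mul, Pi.add_apply]
    ring
  rw [h2, map_add, map_sub, map_smul, map_smul] at h1
  simpa [smul_eq_mul] using h1

/-- If `E (P α) = 0` then `E (P α * F) = 0`. -/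
theorem E_mul_eq_zero [DecidableEq V] (hE : IsLocalExpectation r E) (hP : IsPart P D)
    (hD : D.card + D'.card ≤ r) {F : (V → Ω) → ℝ} (hF : DependsOn F (D' : Set V)) (α : κ)
    (h0 : E (P α) = 0) : E (P α * F) = 0 := by
  by_contra hne
  set u := E (P α * F * F) with hu
  set y := E (P α * F) with hy
  have h1 := quad_nonneg hE hP hD hF α ((u + 1) / (2 * y))
  rw [h0, mul_zero, add_zero, ← hu, ← hy] at h1
  have h2 : 2 * ((u + 1) / (2 * y)) * y = u + 1 := by field_simp
  rw [h2] at h1
  linarith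

/-- The conditional variance given `P α` is nonnegative. -/
theorem term_nonneg [DecidableEq V] (hE : IsLocalExpectation r E) (hP : IsPart P D)
    (hD : D.card + D'.card ≤ r) {F : (V → Ω) → ℝ} (hF : DependsOn F (D' : Set V)) (α : κ) :
    0 ≤ E (P α * F * F) - E (P α * F) * E (P α * F) / E (P α) := by
  rcases (E_nonneg hE hP (by omega) α).lt_or_eq with h | h
  · have h1 := quad_nonneg hE hP hD hF α (E (P α * F) / E (P α))
    have h2 : E (P α * F * F) - 2 * (E (P α * F) / E (P α)) * E (P α * F) +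
        (E (P α * F) / E (P α)) ^ 2 * E (P α) =
        E (P α * F * F) - E (P α * F) * E (P α * F) / E (P α) := by
      field_simp
      ring
    rwa [h2] at h1
  · have h1 := E_mul_eq_zero hE hP hD hF α h.symm
    have h2 := quad_nonneg hE hP hD hF α 0
    rw [h1]
    simpa using h2

theorem cov_self_nonneg [DecidableEq V] (hE : IsLocalExpectation r E) (hP : IsPart P D)
    (hD : D.card + D'.card ≤ r) {F : (V → Ω) → ℝ} (hF : DependsOn F (D' : Set V)) :
    0 ≤ cov E P F F :=
  Finset.sum_nonneg (fun α _ => term_nonneg hE hP hD hF α)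

/-- The conditional variance is at most the second moment. -/
theorem cov_self_le (hE : IsLocalExpectation r E) (hP : IsPart P D)
    (hD : D.card ≤ r) (F : (V → Ω) → ℝ) : cov E P F F ≤ E (F * F) := by
  rw [← hP.sum_mul (E := E) (F * F)]
  apply Finset.sum_le_sum
  intro α _
  have h1 : 0 ≤ E (P α * F) * E (P α * F) / E (P α) :=
    div_nonneg (mul_self_nonneg _) (E_nonneg hE hP hD α)
  rw [mul_assoc]
  linarith

end basic

section indicators

variable [DecidableEq Ω] {κ : Type} [Fintype κ] {E : ((V → Ω) → ℝ) →ₗ[ℝ] ℝ}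
  {P : κ → (V → Ω) → ℝ} {D : Finset V} {r : ℕ}

theorem ind_dep (x : V) (a : Ω) :
    DependsOn (ind x a : (V → Ω) → ℝ) (({x} : Finset V) : Set V) := by
  intro σ σ' h
  have : σ x = σ' x := h x (by simp)
  unfold ind
  rw [this]

theorem E_ind_nonneg (hE : IsLocalExpectation r E) (hr : 1 ≤ r) (x : V) (a : Ω) :
    0 ≤ E (ind x a) :=
  hE.nonneg _ {x} (by simpa using hr) (ind_dep x a) (ind_nonneg x a)

theorem sum_E_ind [Fintype Ω] (hE : IsLocalExpectation r E) (x : V) :
    ∑ a, E (ind x a) = 1 := by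
  rw [← map_sum, ← hE.one]
  congr 1
  funext σ
  rw [Finset.sum_apply]
  exact sum_ind x σ

/-- The gain of the refinement by the label of `w`. -/
theorem gain [DecidableEq V] [Fintype Ω] (hE : IsLocalExpectation r E) (hP : IsPart P D)
    (hD : D.card + 2 ≤ r) (x : V) (a : Ω) (w : V) :
    ∑ b, cov E P (ind x a) (ind w b) ^ 2 / E (ind w b) ≤
      cov E P (ind x a) (ind x a) -
        cov E (fun q : κ × Ω => P q.1 * ind w q.2) (ind x a) (ind x a) := by
  set F : (V → Ω) → ℝ := ind x a with hFdef
  have hF : DependsOn F (({x} : Finset V) : Set V) := ind_dep x a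
  have hc1 : ({x} : Finset V).card = 1 := Finset.card_singleton x
  set P' : κ × Ω → (V → Ω) → ℝ := fun q => P q.1 * ind w q.2 with hP'def
  have hP' : IsPart P' (insert w D) := hP.refine w
  have hD' : (insert w D : Finset V).card + ({x} : Finset V).card ≤ r := by
    have := Finset.card_insert_le w D
    omega
  have hp0 : ∀ α, 0 ≤ E (P α) := fun α => E_nonneg hE hP (by omega) α
  have hp0' : ∀ q, 0 ≤ E (P' q) := fun q => E_nonneg hE hP' (by omega) q
  -- names
  set pp : κ → Ω → ℝ := fun α b => E (P' (α, b)) with hpp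
  set xx : κ → Ω → ℝ := fun α b => E (P' (α, b) * F) with hxx
  have hsum_p : ∀ α, ∑ b, pp α b = E (P α) := by
    intro α
    simp only [hpp, hP'def]
    rw [← map_sum, ← Finset.mul_sum]
    congr 1
    funext σ
    rw [Pi.mul_apply, Finset.sum_apply, sum_ind, mul_one]
  have hsum_x : ∀ α, ∑ b, xx α b = E (P α * F) := by
    intro α
    simp only [hxx, hP'def]
    rw [← map_sum]
    congr 1
    funext σ
    simp only [Finset.sum_apply, Pi.mul_apply]
    have : ∀ b, P α σ * ind w b σ * F σ = (P α σ * F σ) * ind w b σ := fun b => by ring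
    simp_rw [this]
    rw [← Finset.mul_sum, sum_ind, mul_one]
  have hxz : ∀ α b, pp α b = 0 → xx α b = 0 := fun α b h =>
    E_mul_eq_zero hE hP' hD' hF (α, b) h
  have hxz' : ∀ α, E (P α) = 0 → E (P α * F) = 0 := fun α h =>
    E_mul_eq_zero hE hP (by omega) hF α h
  -- y = x_b - p_b x / p
  set y : κ → Ω → ℝ := fun α b => xx α b - pp α b * E (P α * F) / E (P α) with hy
  -- the right hand side
  have hR : cov E P F F - cov E P' F F = ∑ α, ∑ b, y α b ^ 2 / pp α b := by
    have h1 : ∑ α, E (P α * F * F) = ∑ q, E (P' q * F * F) := by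
      have e1 : ∑ α, E (P α * F * F) = E (F * F) := by
        simp_rw [mul_assoc]
        exact hP.sum_mul (F * F)
      have e2 : ∑ q, E (P' q * F * F) = E (F * F) := by
        simp_rw [mul_assoc]
        exact hP'.sum_mul (F * F)
      rw [e1, e2]
    unfold cov
    rw [Finset.sum_sub_distrib, Finset.sum_sub_distrib, h1, sub_sub_sub_cancel_left,
      Fintype.sum_prod_type, ← Finset.sum_sub_distrib]
    apply Finset.sum_congr rfl
    intro α _
    have hexp : ∀ b, y α b ^ 2 / pp α b = xx α b * xx α b / pp α b -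
        2 * (E (P α * F) / E (P α)) * xx α b +
        (E (P α * F) / E (P α)) ^ 2 * pp α b := by
      intro b
      by_cases hpb : pp α b = 0
      · rw [hxz α b hpb, hpb]
        simp
      · simp only [hy]
        by_cases hpa : E (P α) = 0
        · rw [hpa]
          simp
          ring
        · field_simp
          ring
    simp_rw [hexp]
    rw [Finset.sum_add_distrib, Finset.sum_sub_distrib, ← Finset.mul_sum, ← Finset.mul_sum,
      hsum_x, hsum_p]
    by_cases hpa : E (P α) = 0
    · rw [hxz' α hpa, hpa]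
      simp [hxx, hpp]
    · simp only [hxx, hpp]
      field_simp
      ring
  -- the covariance
  have hcov : ∀ b, cov E P F (ind w b) = ∑ α, y α b := by
    intro b
    unfold cov
    apply Finset.sum_congr rfl
    intro α _
    simp only [hy, hxx, hpp, hP'def]
    rw [mul_right_comm (P α) F (ind w b), mul_comm (E (P α * F)) (E (P α * ind w b))]
  have hkap : ∀ b, ∑ α, pp α b = E (ind w b) := by
    intro b
    simp only [hpp, hP'def]
    exact hP.sum_mul (ind w b)
  rw [hR, Finset.sum_comm]
  apply Finset.sum_le_sum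
  intro b _
  rw [hcov, ← hkap]
  -- Titu
  have hyz : ∀ α, pp α b = 0 → y α b = 0 := by
    intro α h
    simp only [hy]
    rw [hxz α b h, h]
    simp
  by_cases hS : ∑ α, pp α b = 0
  · rw [hS, div_zero]
    apply Finset.sum_nonneg
    intro α _
    exact div_nonneg (sq_nonneg _) (hp0' (α, b))
  · have hSpos : 0 < ∑ α, pp α b :=
      lt_of_le_of_ne (Finset.sum_nonneg (fun α _ => hp0' (α, b))) (Ne.symm hS)
    rw [div_le_iff₀ hSpos]
    have hcs := Finset.sum_mul_sq_le_sq_mul_sq Finset.univ
      (fun α => y α b / √(pp α b)) (fun α => √(pp α b))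
    have e1 : ∀ α, y α b / √(pp α b) * √(pp α b) = y α b := by
      intro α
      rcases (hp0' (α, b)).lt_or_eq with h | h
      · have : √(pp α b) ≠ 0 := (Real.sqrt_pos.2 h).ne'
        field_simp
      · rw [hyz α h.symm]
        simp
    have e2 : ∀ α, (y α b / √(pp α b)) ^ 2 = y α b ^ 2 / pp α b := by
      intro α
      rw [div_pow, Real.sq_sqrt (hp0' (α, b))]
    have e3 : ∀ α, √(pp α b) ^ 2 = pp α b := fun α => Real.sq_sqrt (hp0' (α, b))
    simp only [e1, e2, e3] at hcs
    exact hcs

end indicators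

end Pool.Agent.Lib.P325h
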