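import Pool.Agent.Lib.P325F.Round
import Pool.Agent.Lib.P325h.Loop

/-!
# Independent rounding (Sherali-Adams version of `P325F.round_indep`)
-/

set_option autoImplicit false

open Finset
open Pool.Agent.Lib.P325u (IsPart cov ind ind_mul_self ind_nonneg sum_ind)
open Pool.Agent.Lib.P325F (Good prod_round)

namespace Pool.Agent.Lib.P325h

variable {V ι L : Type} [Fintype V] [DecidableEq V] [Fintype ι] [Fintype L] [DecidableEq L]
  {s t : ι → V} {w : ι → ℝ}

open Pool.Agent.Lib.P325F.RoundAux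

theorem round_indep (perm : ι → Equiv.Perm L) (hst : ∀ e, s e ≠ t e)
    {E : ((V → L) → ℝ) →ₗ[ℝ] ℝ} {r : ℕ} (hE : IsLocalExpectation r E) {κ : Type} [Fintype κ]
    {P : κ → (V → L) → ℝ} {D : Finset V} (hP : IsPart P D) (hD : D.card + 2 ≤ r) :
    ∃ y : V → L, ∑ e, w e * E (P325u.sat (s e) (t e) (perm e)) -
      ∑ e, w e * ∑ a, cov E P (ind (s e) a) (ind (t e) (perm e a)) ≤
        P325F.sat s t perm w y := by
  have hp0 : ∀ α, 0 ≤ E (P α) := fun α => E_nonneg hE hP (by omega) α
  obtain ⟨α, hα, hobj⟩ := avg_attained (fun α => E (P α))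
    (fun α => ∑ e, w e * ∑ a, (E (P α * ind (s e) a) / E (P α)) *
      (E (P α * ind (t e) (perm e a)) / E (P α))) hp0 (sum_E hE hP)
  have hind0 : ∀ x b, 0 ≤ E (P α * ind x b) := by
    intro x b
    apply E_two_nonneg hE hP hD α x x
    · intro σ σ' h1 _
      unfold ind
      rw [h1]
    · exact ind_nonneg x b
  have hsum1 : ∀ x, ∑ a, E (P α * ind x a) / E (P α) = 1 := by
    intro x
    have h1 : ∑ b, E (P α * ind x b) = E (P α) := by
      rw [← map_sum, ← Finset.mul_sum]
      congr 1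
      funext σ
      rw [Pi.mul_apply, Finset.sum_apply, sum_ind, mul_one]
    rw [← Finset.sum_div, h1, div_self hα.ne']
  obtain ⟨y, hy⟩ := prod_round (w := w) perm hst (fun x a => E (P α * ind x a) / E (P α))
    (fun x a => div_nonneg (hind0 x a) hα.le) hsum1
  refine ⟨y, le_trans (le_trans (le_of_eq ?_) hobj) hy⟩
  have h1 : ∀ α : κ, E (P α) * (∑ e, w e * ∑ a, (E (P α * ind (s e) a) / E (P α)) *
      (E (P α * ind (t e) (perm e a)) / E (P α))) =
      ∑ e, w e * ∑ a, E (P α * ind (s e) a) * E (P α * ind (t e) (perm e a)) / E (P α) := by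
    intro α
    rw [Finset.mul_sum]
    refine Finset.sum_congr rfl fun e _ => ?_
    rw [← mul_assoc, mul_comm (E (P α)) (w e), mul_assoc, Finset.mul_sum]
    congr 1
    refine Finset.sum_congr rfl fun a _ => ?_
    by_cases h0 : E (P α) = 0
    · rw [h0]
      simp
    · field_simp
  rw [Finset.sum_congr rfl fun α _ => h1 α, Finset.sum_comm, ← Finset.sum_sub_distrib]
  refine Finset.sum_congr rfl fun e _ => ?_
  rw [← Finset.mul_sum, ← mul_sub]
  congr 1
  rw [Finset.sum_comm]
  have h2 : E (P325u.sat (s e) (t e) (perm e)) =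
      ∑ a, E (ind (s e) a * ind (t e) (perm e a)) := by
    rw [← map_sum]
    congr 1
    funext σ
    rw [Finset.sum_apply]
    simp only [Pi.mul_apply, P325u.sat, ind]
    exact ite_pair (perm e) (σ (s e)) (σ (t e))
  rw [h2, ← Finset.sum_sub_distrib]
  refine Finset.sum_congr rfl fun a _ => ?_
  unfold cov
  rw [Finset.sum_sub_distrib]
  have h3 : ∑ α, E (P α * ind (s e) a * ind (t e) (perm e a)) =
      E (ind (s e) a * ind (t e) (perm e a)) := by
    simp_rw [mul_assoc]
    exact hP.sum_mul _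
  rw [h3]
  ring

end Pool.Agent.Lib.P325h
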