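import Pool.Agent.Lib.P325h.Corr
import Pool.Agent.Lib.P325h.Cond
import Pool.Agent.Lib.P325h.Round
import Pool.Agent.Lib.P325F.Defs

/-!
# The rounding lemma with independent rounding (Sherali-Adams version of `P325F.sos_of_pe`)
-/

set_option autoImplicit false

open Finset Matrix Pool.Agent.Lib.P325F
open Pool.Agent.Lib.P325u (IsPart cov ind cov_comm)

namespace Pool.Agent.Lib.P325h

variable {V ι L : Type} [Fintype V] [DecidableEq V] [Fintype ι] [Fintype L] [DecidableEq L]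
  {s t : ι → V}

theorem sos_of_le (perm : ι → Equiv.Perm L) (hst : ∀ e, s e ≠ t e)
    {E : ((V → L) → ℝ) →ₗ[ℝ] ℝ} {r : ℕ} (hE : IsLocalExpectation r E) {J : ℕ}
    (hJ : J = 1 ∨ Even J) (hJ0 : 0 < J) {Q τ : ℝ} (hQ : 1 ≤ Q) (hτ : 0 < τ)
    (hr : 2 * (Q * τ⁻¹ ^ (2 * J)) + 8 * (J : ℝ) ^ 2 * τ⁻¹ ^ J + 5 ≤ r) :
    SOS s t perm (fun e => E (P325u.sat (s e) (t e) (perm e))) J Q τ := by
  intro w hw htr
  set m : ℝ := ∑ e, w e with hm
  rcases (Finset.sum_nonneg (fun e _ => hw e) : 0 ≤ ∑ e, w e).lt_or_eq with hpos | hzero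
  · -- the main case
    set μ : V → ℝ := fun x => dg s t w x / (2 * m) with hμdef
    have hμ0 : ∀ x, 0 ≤ μ x := fun x => div_nonneg (dg_nonneg hw x) (by linarith)
    have hμ1 : ∑ x, μ x = 1 := by
      rw [hμdef]
      rw [← Finset.sum_div, sum_dg]
      exact div_self (by linarith)
    have hτJ : 0 < τ⁻¹ ^ (2 * J) := by positivity
    have hQτ : 0 < Q * τ⁻¹ ^ (2 * J) := by positivity
    have hJr : (0 : ℝ) < J := by exact_mod_cast hJ0
    set R : ℕ := ⌈2 * (Q * τ⁻¹ ^ (2 * J))⌉₊ with hR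
    have hR0 : 0 < R := Nat.ceil_pos.2 (by positivity)
    have hR1 : 2 * (Q * τ⁻¹ ^ (2 * J)) ≤ R := Nat.le_ceil _
    have hR2 : (R : ℝ) < 2 * (Q * τ⁻¹ ^ (2 * J)) + 1 := Nat.ceil_lt_add_one (by positivity)
    have hNp : 0 < 4 * (J : ℝ) ^ 2 * τ⁻¹ ^ J := by positivity
    set N : ℕ := ⌈4 * (J : ℝ) ^ 2 * τ⁻¹ ^ J⌉₊ + 1 with hNdef
    have hN1 : 4 * (J : ℝ) ^ 2 * τ⁻¹ ^ J + 1 ≤ N := by
      rw [hNdef]
      push_cast
      have := Nat.le_ceil (4 * (J : ℝ) ^ 2 * τ⁻¹ ^ J)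
      linarith
    have hN2 : (N : ℝ) < 4 * (J : ℝ) ^ 2 * τ⁻¹ ^ J + 2 := by
      rw [hNdef]
      push_cast
      have := Nat.ceil_lt_add_one hNp.le
      linarith
    have hN0 : 1 ≤ N := by rw [hNdef]; omega
    have hRr : R + (N + N) ≤ r := by
      have : (R : ℝ) + (N + N) ≤ r := by linarith
      exact_mod_cast this
    obtain ⟨κ, _, P, D, hP, hD, hcorr⟩ := exists_corr hE μ hμ0 hμ1 hR0 (by omega) hRr
    have hle := corr_le (s := s) (t := t) (N := N) perm hw hpos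
      (C := fun p q => cov E P (ind p.1 p.2) (ind q.1 q.2))
      (fun p q => cov_comm _ _) (cov_locPSD hE hP hD)
      (by
        have := avVar_le_one hE hP (by omega) μ hμ0 hμ1
        exact this)
      (κ := fun q => E (ind q.1 q.2)) (fun q => E_ind_nonneg hE (by omega) _ _)
      (fun x => sum_E_ind hE x)
      (fun p q h => cov_null hE hP (by omega) p.1 q.1 p.2 q.2 h) hJ hJ0 hτ hN1 htr
      (by
        have h1 : (∑ x, ∑ a, ∑ y, ∑ b, dg s t w x / (2 * ∑ e, w e) *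
            (dg s t w y / (2 * ∑ e, w e)) *
            (cov E P (ind x a) (ind y b) ^ 2 / E (ind y b))) * Q ≤ 1 / R * Q :=
          mul_le_mul_of_nonneg_right hcorr (by linarith)
        have hRpos : (0 : ℝ) < R := by exact_mod_cast hR0
        have h2 : 2 * (1 / R * Q) ≤ τ ^ (2 * J) := by
          rw [div_mul_eq_mul_div, one_mul, mul_div_assoc', div_le_iff₀ hRpos]
          have h3 : 2 * (Q * τ⁻¹ ^ (2 * J)) * τ ^ (2 * J) ≤ R * τ ^ (2 * J) :=
            mul_le_mul_of_nonneg_right hR1 (by positivity)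
          have h4 : τ⁻¹ ^ (2 * J) * τ ^ (2 * J) = 1 := by
            rw [← mul_pow, inv_mul_cancel₀ hτ.ne', one_pow]
          have h5 : 2 * (Q * τ⁻¹ ^ (2 * J)) * τ ^ (2 * J) = 2 * Q := by
            rw [mul_assoc, mul_assoc, h4, mul_one]
          linarith
        simp only at h1 ⊢
        linarith)
    obtain ⟨y, hy⟩ := round_indep (w := w) perm hst hE hP (by omega)
    refine ⟨y, ?_⟩
    refine le_trans ?_ hy
    simp only at hle ⊢
    linarith
  · -- all weights are zero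
    have hz : ∀ e, w e = 0 := by
      intro e
      have := (Finset.sum_eq_zero_iff_of_nonneg (fun e _ => hw e)).1 hzero.symm
      exact this e (Finset.mem_univ e)
    obtain ⟨y⟩ := nonempty_labelings hE
    refine ⟨y, ?_⟩
    unfold P325F.sat
    simp [hm, hz]

end Pool.Agent.Lib.P325h
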